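import Pool.Agent.N812.IS.Nu

/-!
# The truncated Cauchy kernel
-/

set_option autoImplicit false

namespace Pool.Agent.N812.IS

open MeasureTheory Set Metric Filter Topology
open Pool.Agent.R276.CP
open Pool.Agent.Y271.RO (Bd ht)
open Pool.Agent.R277.SP
open scoped InnerProductSpace ENNReal NNReal ComplexConjugate

/-- the radii -/
noncomputable def rl (l : ℕ) : ℝ := (1 / 16 : ℝ) ^ l

lemma rl_pos (l : ℕ) : 0 < rl l := by unfold rl; positivity

/-- the truncated kernel -/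
noncomputable def kr (l : ℕ) (ζ : ℂ) : ℂ := conj ζ * (((max ‖ζ‖ (rl l) ^ 2 : ℝ) : ℂ))⁻¹

lemma mx_pos (l : ℕ) (ζ : ℂ) : 0 < max ‖ζ‖ (rl l) := lt_max_of_lt_right (rl_pos l)

lemma kr_cont (l : ℕ) : Continuous (kr l) := by
  unfold kr
  refine Complex.continuous_conj.mul (Continuous.inv₀ ?_ fun ζ => ?_)
  · exact Complex.continuous_ofReal.comp ((continuous_norm.max continuous_const).pow 2)
  · have := mx_pos l ζ
    exact_mod_cast (pow_pos this 2).ne'

lemma kr_norm (l : ℕ) (ζ : ℂ) : ‖kr l ζ‖ ≤ (max ‖ζ‖ (rl l))⁻¹ := by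
  have h := mx_pos l ζ
  unfold kr
  rw [norm_mul, RCLike.norm_conj, norm_inv, Complex.norm_real, Real.norm_of_nonneg (by positivity),
    ← div_eq_mul_inv, div_le_iff₀ (by positivity), sq, ← mul_assoc, inv_mul_cancel₀ h.ne', one_mul]
  exact le_max_left _ _

lemma kr_norm_sq (l : ℕ) (ζ : ℂ) : ‖kr l ζ‖ ^ 2 ≤ (max ‖ζ‖ (rl l) ^ 2)⁻¹ := by
  rw [← inv_pow]
  exact pow_le_pow_left₀ (norm_nonneg _) (kr_norm l ζ) 2

/-- the factor -/
noncomputable def th (l : ℕ) (ζ : ℂ) : ℂ := 1 - ζ * kr l ζ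

lemma th_zero (l : ℕ) {ζ : ℂ} (h : rl l ≤ ‖ζ‖) : th l ζ = 0 := by
  have h0 : 0 < ‖ζ‖ := lt_of_lt_of_le (rl_pos l) h
  unfold th kr
  rw [max_eq_left h, ← mul_assoc, Complex.mul_conj, Complex.normSq_eq_norm_sq, mul_inv_cancel₀,
    sub_self]
  have : (0 : ℝ) < ‖ζ‖ ^ 2 := by positivity
  exact_mod_cast this.ne'

lemma th_norm (l : ℕ) (ζ : ℂ) : ‖th l ζ‖ ≤ 1 := by
  have h := mx_pos l ζ
  have e : th l ζ = ((1 - ‖ζ‖ ^ 2 * (max ‖ζ‖ (rl l) ^ 2)⁻¹ : ℝ) : ℂ) := by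
    unfold th kr
    rw [← mul_assoc, Complex.mul_conj, Complex.normSq_eq_norm_sq]
    push_cast
    ring
  rw [e, Complex.norm_real, Real.norm_of_nonneg]
  · have : 0 ≤ ‖ζ‖ ^ 2 * (max ‖ζ‖ (rl l) ^ 2)⁻¹ := by positivity
    linarith
  · rw [sub_nonneg, ← div_eq_mul_inv, div_le_one (by positivity)]
    exact pow_le_pow_left₀ (norm_nonneg _) (le_max_left _ _) 2

lemma th_meas (l : ℕ) : Continuous (th l) := by
  unfold th
  exact continuous_const.sub (continuous_id.mul (kr_cont l))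

lemma th_eq (l : ℕ) {ζ : ℂ} (h : ζ ≠ 0) : ζ⁻¹ - kr l ζ = th l ζ * ζ⁻¹ := by
  unfold th
  field_simp

/-! ### the integral of the square of the kernel -/

/-- the dyadic integral -/
lemma int_mx (R : ℝ) (m : ℕ) :
    ∫⁻ z in ball (0:ℂ) R, ENNReal.ofReal ((max ‖z‖ ((1 / 2 : ℝ) ^ m) ^ 2)⁻¹) ≤
      ENNReal.ofReal (vb R + 4 * Real.pi * m) := by
  have hv := vb_nonneg R
  induction m with
  | zero =>
    calc ∫⁻ z in ball (0:ℂ) R, ENNReal.ofReal ((max ‖z‖ ((1 / 2 : ℝ) ^ 0) ^ 2)⁻¹)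
        ≤ ∫⁻ z in ball (0:ℂ) R, 1 := by
          refine lintegral_mono fun z => ?_
          rw [← ENNReal.ofReal_one]
          refine ENNReal.ofReal_le_ofReal ?_
          rw [pow_zero]
          have : (1 : ℝ) ≤ max ‖z‖ 1 := le_max_right _ _
          exact inv_le_one_of_one_le₀ (by nlinarith)
      _ = ENNReal.ofReal (vb R + 4 * Real.pi * (0 : ℕ)) := by
          rw [lintegral_one, Measure.restrict_apply_univ, vb_eq]
          simp
  | succ m ih =>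
    have hpt : ∀ z : ℂ, ENNReal.ofReal ((max ‖z‖ ((1 / 2 : ℝ) ^ (m + 1)) ^ 2)⁻¹) ≤
        ENNReal.ofReal ((max ‖z‖ ((1 / 2 : ℝ) ^ m) ^ 2)⁻¹) +
          (ball (0:ℂ) ((1 / 2 : ℝ) ^ m)).indicator
            (fun _ => ENNReal.ofReal (4 * (((1 / 2 : ℝ) ^ m) ^ 2)⁻¹)) z := by
      intro z
      by_cases hz : z ∈ ball (0:ℂ) ((1 / 2 : ℝ) ^ m)
      · rw [indicator_of_mem hz]
        refine le_trans ?_ le_add_self
        refine ENNReal.ofReal_le_ofReal ?_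
        have h1 : (1 / 2 : ℝ) ^ (m + 1) ≤ max ‖z‖ ((1 / 2 : ℝ) ^ (m + 1)) := le_max_right _ _
        have h2 : (0 : ℝ) < (1 / 2 : ℝ) ^ (m + 1) := by positivity
        calc (max ‖z‖ ((1 / 2 : ℝ) ^ (m + 1)) ^ 2)⁻¹ ≤ (((1 / 2 : ℝ) ^ (m + 1)) ^ 2)⁻¹ := by
              gcongr
          _ = 4 * (((1 / 2 : ℝ) ^ m) ^ 2)⁻¹ := by
              have e : (1 / 2 : ℝ) ^ (m + 1) = (1 / 2 : ℝ) ^ m * (1 / 2) := pow_succ _ _
              rw [e, mul_pow, mul_inv, mul_comm]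
              norm_num
      · rw [indicator_of_notMem hz, add_zero]
        rw [mem_ball_zero_iff, not_lt] at hz
        have h1 : (1 / 2 : ℝ) ^ (m + 1) ≤ (1 / 2 : ℝ) ^ m :=
          pow_le_pow_of_le_one (by norm_num) (by norm_num) (Nat.le_succ m)
        rw [max_eq_left hz, max_eq_left (h1.trans hz)]
    calc ∫⁻ z in ball (0:ℂ) R, ENNReal.ofReal ((max ‖z‖ ((1 / 2 : ℝ) ^ (m + 1)) ^ 2)⁻¹)
        ≤ ∫⁻ z in ball (0:ℂ) R, (ENNReal.ofReal ((max ‖z‖ ((1 / 2 : ℝ) ^ m) ^ 2)⁻¹) +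
          (ball (0:ℂ) ((1 / 2 : ℝ) ^ m)).indicator
            (fun _ => ENNReal.ofReal (4 * (((1 / 2 : ℝ) ^ m) ^ 2)⁻¹)) z) := lintegral_mono hpt
      _ = (∫⁻ z in ball (0:ℂ) R, ENNReal.ofReal ((max ‖z‖ ((1 / 2 : ℝ) ^ m) ^ 2)⁻¹)) +
          ∫⁻ z in ball (0:ℂ) R, (ball (0:ℂ) ((1 / 2 : ℝ) ^ m)).indicator
            (fun _ => ENNReal.ofReal (4 * (((1 / 2 : ℝ) ^ m) ^ 2)⁻¹)) z := by
          rw [lintegral_add_right]
          exact measurable_const.indicator measurableSet_ball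
      _ ≤ ENNReal.ofReal (vb R + 4 * Real.pi * m) + ENNReal.ofReal (4 * Real.pi) := by
          refine add_le_add ih ?_
          calc ∫⁻ z in ball (0:ℂ) R, (ball (0:ℂ) ((1 / 2 : ℝ) ^ m)).indicator
                (fun _ => ENNReal.ofReal (4 * (((1 / 2 : ℝ) ^ m) ^ 2)⁻¹)) z
              ≤ ∫⁻ z, (ball (0:ℂ) ((1 / 2 : ℝ) ^ m)).indicator
                (fun _ => ENNReal.ofReal (4 * (((1 / 2 : ℝ) ^ m) ^ 2)⁻¹)) z :=
                setLIntegral_le_lintegral _ _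
            _ = ENNReal.ofReal (4 * (((1 / 2 : ℝ) ^ m) ^ 2)⁻¹) *
                volume (ball (0:ℂ) ((1 / 2 : ℝ) ^ m)) := by
                rw [lintegral_indicator measurableSet_ball, setLIntegral_const]
            _ = ENNReal.ofReal (4 * Real.pi) := by
                rw [Complex.volume_ball, ← ENNReal.ofReal_pow (by positivity), ← mul_assoc,
                  ← ENNReal.ofReal_mul (by positivity)]
                have e1 : 4 * (((1 / 2 : ℝ) ^ m) ^ 2)⁻¹ * ((1 / 2 : ℝ) ^ m) ^ 2 = 4 := by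
                  have : (1 / 2 : ℝ) ^ m ≠ 0 := by positivity
                  field_simp
                rw [e1, ENNReal.ofReal_mul (by norm_num)]
                congr 1
                exact (ENNReal.ofReal_coe_nnreal (p := NNReal.pi)).symm
            _ ≤ _ := le_rfl
      _ = ENNReal.ofReal (vb R + 4 * Real.pi * ((m + 1 : ℕ) : ℝ)) := by
          rw [← ENNReal.ofReal_add (by positivity) (by positivity)]
          congr 1
          push_cast
          ring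

lemma rl_eq (l : ℕ) : rl l = (1 / 2 : ℝ) ^ (4 * l) := by
  unfold rl
  rw [pow_mul]
  norm_num

/-- the integral of the square of the kernel -/
lemma int_kr (R : ℝ) (l : ℕ) (s : ℂ) :
    ∫⁻ z in ball (0:ℂ) R, ENNReal.ofReal (‖kr l (z - s)‖ ^ 2) ≤
      ENNReal.ofReal (vb (R + ‖s‖) + 16 * Real.pi * l) := by
  have hsub : ∀ z ∈ ball (0:ℂ) R, z - s ∈ ball (0:ℂ) (R + ‖s‖) := by
    intro z hz
    rw [mem_ball_zero_iff] at hz ⊢
    calc ‖z - s‖ ≤ ‖z‖ + ‖s‖ := norm_sub_le _ _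
      _ < _ := by linarith
  set G : ℂ → ℝ≥0∞ := (ball (0:ℂ) (R + ‖s‖)).indicator fun z =>
    ENNReal.ofReal ((max ‖z‖ (rl l) ^ 2)⁻¹) with hG
  calc ∫⁻ z in ball (0:ℂ) R, ENNReal.ofReal (‖kr l (z - s)‖ ^ 2)
      ≤ ∫⁻ z in ball (0:ℂ) R, G (z - s) := by
        refine setLIntegral_mono' measurableSet_ball fun z hz => ?_
        rw [hG, indicator_of_mem (hsub z hz)]
        exact ENNReal.ofReal_le_ofReal (kr_norm_sq l _)
    _ ≤ ∫⁻ z, G (z - s) := setLIntegral_le_lintegral _ _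
    _ = ∫⁻ z, G z := lintegral_sub_right_eq_self G s
    _ = ∫⁻ z in ball (0:ℂ) (R + ‖s‖), ENNReal.ofReal ((max ‖z‖ (rl l) ^ 2)⁻¹) := by
        rw [hG, lintegral_indicator measurableSet_ball]
    _ ≤ ENNReal.ofReal (vb (R + ‖s‖) + 4 * Real.pi * ((4 * l : ℕ) : ℝ)) := by
        rw [rl_eq]
        exact int_mx _ _
    _ = _ := by
        congr 1
        push_cast
        ring

/-- the kernel as a function with values in the continuous functions -/
noncomputable def kz (K : Set ℂ) (l : ℕ) : C(ℂ, C(K, ℂ)) :=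
  ContinuousMap.curry ⟨fun p : ℂ × K => kr l (p.1 - p.2),
    (kr_cont l).comp (continuous_fst.sub (continuous_subtype_val.comp continuous_snd))⟩

lemma kz_apply (K : Set ℂ) (l : ℕ) (z : ℂ) (s : K) : kz K l z s = kr l (z - s) := rfl

end Pool.Agent.N812.IS
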