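import Pool.Agent.N812.IS.L1
import Pool.Agent.Y681.NK.OUTQ
import Pool.Agent.Y487.NK.SEL

/-!
# Bounded functions on an annulus which annihilate the polynomials
-/

set_option autoImplicit false

namespace Pool.Agent.N812.IS

open MeasureTheory Set Metric Filter Topology
open scoped ENNReal NNReal ComplexConjugate

/-- the annulus -/
def An (c : ℂ) (ρ : ℝ) : Set ℂ := {z | ρ / 2 < ‖z - c‖ ∧ ‖z - c‖ ≤ ρ}

lemma An_meas (c : ℂ) (ρ : ℝ) : MeasurableSet (An c ρ) := by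
  have h : Measurable fun z : ℂ => ‖z - c‖ := (measurable_id.sub_const c).norm
  exact (measurableSet_lt measurable_const h).inter (measurableSet_le h measurable_const)

lemma An_sub (c : ℂ) (ρ : ℝ) : An c ρ ⊆ closedBall c ρ := fun z hz => by
  rw [mem_closedBall, dist_eq_norm]
  exact hz.2

/-- the lower bound on a circle -/
theorem circle_lower (B : ℝ≥0) : ∃ δ : ℝ, 0 < δ ∧ ∀ (W : ℂ → ℝ) (c : ℂ) (r : ℝ), Measurable W →
    (∀ z, 1 ≤ W z) →
    (∫⁻ θ in Ioc (0:ℝ) (2 * Real.pi), ENNReal.ofReal (Real.log (W (circleMap c r θ)))) ≤ B →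
    ∀ P : Polynomial ℂ, ENNReal.ofReal δ ≤ ∫⁻ θ in Ioc (0:ℝ) (2 * Real.pi),
      ‖1 - (circleMap c r θ - c) * P.eval (circleMap c r θ - c)‖ₑ *
        ENNReal.ofReal (W (circleMap c r θ))⁻¹ := by
  obtain ⟨δ, hδ, h⟩ := Pool.Agent.Y681.NK.OUTQ.main B
  refine ⟨δ, hδ, fun W c r hW h1 hB P => ?_⟩
  have hcm : Measurable (circleMap c r) := (continuous_circleMap c r).measurable
  obtain ⟨f, f1, f2, f3, f4⟩ := h (fun θ => ENNReal.ofReal (Real.log (W (circleMap c r θ))))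
    (ENNReal.measurable_ofReal.comp (Real.measurable_log.comp (hW.comp hcm))) hB
  have hpi : (0:ℝ) ≤ 2 * Real.pi := by positivity
  have hfW : ∀ᵐ θ ∂(volume.restrict (Ioc (0:ℝ) (2 * Real.pi))),
      ‖f θ‖ ≤ (W (circleMap c r θ))⁻¹ := by
    filter_upwards [f2] with θ hθ
    have hlog : 0 ≤ Real.log (W (circleMap c r θ)) := Real.log_nonneg (h1 _)
    have h0 : 0 < W (circleMap c r θ) := lt_of_lt_of_le one_pos (h1 _)
    have := hθ.2
    rwa [ENNReal.toReal_ofReal hlog, Real.exp_neg, Real.exp_log h0] at this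
  have hf1 : ∀ᵐ θ ∂(volume.restrict (Ioc (0:ℝ) (2 * Real.pi))), ‖f θ‖ ≤ 1 := by
    filter_upwards [hfW] with θ hθ
    exact hθ.trans (inv_le_one_of_one_le₀ (h1 _))
  have hint : ∀ k : ℕ, Integrable (fun θ => f θ * (circleMap 0 1 θ) ^ k)
      (volume.restrict (Ioc (0:ℝ) (2 * Real.pi))) := by
    intro k
    refine (integrable_const (1:ℝ)).mono' ?_ ?_
    · exact (f1.mul (((continuous_circleMap 0 1).measurable).pow_const k)).aestronglyMeasurable
    · filter_upwards [hf1] with θ hθ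
      rw [norm_mul, norm_pow, norm_circleMap_zero, abs_one, one_pow, mul_one]
      exact hθ
  have hz : ∀ θ, circleMap c r θ - c = r * circleMap 0 1 θ := by
    intro θ
    simp [circleMap]
  have e1 : ∫ θ in Ioc (0:ℝ) (2 * Real.pi),
      f θ * (1 - (circleMap c r θ - c) * P.eval (circleMap c r θ - c)) =
      ∫ θ in Ioc (0:ℝ) (2 * Real.pi), f θ := by
    have e2 : ∀ θ, f θ * (1 - (circleMap c r θ - c) * P.eval (circleMap c r θ - c)) =
        f θ * (circleMap 0 1 θ) ^ 0 - ∑ k ∈ Finset.range (P.natDegree + 1),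
          (P.coeff k * r ^ (k + 1)) * (f θ * (circleMap 0 1 θ) ^ (k + 1)) := by
      intro θ
      rw [hz, Polynomial.eval_eq_sum_range, mul_sub, Finset.mul_sum, Finset.mul_sum, pow_zero]
      congr 1
      refine Finset.sum_congr rfl fun k _ => ?_
      ring
    simp_rw [e2]
    rw [integral_sub (hint 0) (integrable_finsetSum _ fun k _ => (hint (k + 1)).const_mul _),
      integral_finsetSum _ fun k _ => (hint (k + 1)).const_mul _]
    have e3 : ∑ k ∈ Finset.range (P.natDegree + 1), ∫ θ in Ioc (0:ℝ) (2 * Real.pi),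
        (P.coeff k * r ^ (k + 1)) * (f θ * (circleMap 0 1 θ) ^ (k + 1)) = 0 := by
      refine Finset.sum_eq_zero fun k _ => ?_
      rw [integral_const_mul, ← intervalIntegral.integral_of_le hpi, f4 k, mul_zero]
    rw [e3, sub_zero]
    simp
  have e4 : ENNReal.ofReal δ ≤ ‖∫ θ in Ioc (0:ℝ) (2 * Real.pi),
      f θ * (1 - (circleMap c r θ - c) * P.eval (circleMap c r θ - c))‖ₑ := by
    rw [e1, ← ofReal_norm, ← intervalIntegral.integral_of_le hpi]
    exact ENNReal.ofReal_le_ofReal f3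
  refine e4.trans ((enorm_integral_le_lintegral_enorm _).trans ?_)
  refine lintegral_mono_ae ?_
  filter_upwards [hfW] with θ hθ
  rw [enorm_mul, mul_comm]
  refine mul_le_mul' le_rfl ?_
  rw [← ofReal_norm]
  exact ENNReal.ofReal_le_ofReal hθ

/-- the lower bound on an annulus -/
theorem area_lower (W : ℂ → ℝ) (c : ℂ) (ρ : ℝ) (hρ : 0 < ρ) (hW : Measurable W)
    (h1 : ∀ z, 1 ≤ W z)
    (hI : ∫⁻ z in closedBall c ρ, ENNReal.ofReal (Real.log (W z)) ≠ ⊤) :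
    ∃ δ : ℝ≥0∞, 0 < δ ∧ ∀ P : Polynomial ℂ,
      δ ≤ ∫⁻ z in An c ρ, ‖1 - (z - c) * P.eval (z - c)‖ₑ * ENNReal.ofReal (W z)⁻¹ := by
  have hcm : Continuous fun p : ℝ × ℝ => circleMap c p.1 p.2 := by
    unfold circleMap
    fun_prop
  have hlm : Measurable fun z : ℂ => ENNReal.ofReal (Real.log (W z)) :=
    ENNReal.measurable_ofReal.comp (Real.measurable_log.comp hW)
  set Φ : ℝ → ℝ≥0∞ := fun r => ∫⁻ θ in Ioc (0:ℝ) (2 * Real.pi),
    ENNReal.ofReal (Real.log (W (circleMap c r θ))) with hΦ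
  have hΦm : Measurable Φ :=
    Measurable.lintegral_prod_right' (f := fun p : ℝ × ℝ =>
      ENNReal.ofReal (Real.log (W (circleMap c p.1 p.2)))) (hlm.comp hcm.measurable)
  have h2 : ∫⁻ r in Ioc (ρ / 2) ρ, Φ r ≠ ⊤ := by
    have h3 := Pool.Agent.Y487.NK.polar _ hlm c ρ hρ
    intro htop
    have h4 : (∫⁻ r in Ioc (ρ / 2) ρ, ∫⁻ θ in Ioc (0:ℝ) (2 * Real.pi),
      ENNReal.ofReal (Real.log (W (circleMap c r θ)))) = ⊤ := htop
    rw [h4, ENNReal.mul_top] at h3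
    · exact hI (top_le_iff.1 h3)
    · rw [Ne, ENNReal.ofReal_eq_zero, not_le]
      positivity
  obtain ⟨n, hn⟩ : ∃ n : ℕ, volume (Ioc (ρ / 2) ρ ∩ {r | Φ r ≤ n}) ≠ 0 := by
    by_contra hcon
    push Not at hcon
    have h3 : volume (⋃ n : ℕ, Ioc (ρ / 2) ρ ∩ {r | Φ r ≤ n}) = 0 := measure_iUnion_null hcon
    have h4 : ∀ᵐ r ∂(volume.restrict (Ioc (ρ / 2) ρ)), Φ r < ⊤ := ae_lt_top hΦm h2
    have h5 : ∀ᵐ r ∂(volume.restrict (Ioc (ρ / 2) ρ)), False := by
      rw [ae_restrict_iff' measurableSet_Ioc] at h4 ⊢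
      have h6 : ∀ᵐ r ∂(volume : Measure ℝ), r ∉ ⋃ n : ℕ, Ioc (ρ / 2) ρ ∩ {r | Φ r ≤ n} :=
        measure_eq_zero_iff_ae_notMem.1 h3
      filter_upwards [h4, h6] with r h7 h8 h9
      have h10 := h7 h9
      apply h8
      obtain ⟨m, hm⟩ := exists_nat_gt (Φ r).toReal
      refine mem_iUnion.2 ⟨m, h9, ?_⟩
      show Φ r ≤ m
      rw [← ENNReal.ofReal_toReal h10.ne]
      exact (ENNReal.ofReal_le_ofReal hm.le).trans (le_of_eq (ENNReal.ofReal_natCast m))
    have h6 : volume (Ioc (ρ / 2) ρ) = 0 := by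
      rw [ae_iff] at h5
      simpa using h5
    rw [Real.volume_Ioc, ENNReal.ofReal_eq_zero] at h6
    linarith
  obtain ⟨δ, hδ, hδP⟩ := circle_lower n
  have hGm : MeasurableSet (Ioc (ρ / 2) ρ ∩ {r | Φ r ≤ n}) :=
    measurableSet_Ioc.inter (measurableSet_le hΦm measurable_const)
  refine ⟨ENNReal.ofReal (ρ / 2) * (ENNReal.ofReal δ * volume (Ioc (ρ / 2) ρ ∩ {r | Φ r ≤ n})),
    ?_, fun P => ?_⟩
  · refine ENNReal.mul_pos ?_ (mul_ne_zero ?_ hn)
    · rw [Ne, ENNReal.ofReal_eq_zero, not_le]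
      positivity
    · rw [Ne, ENNReal.ofReal_eq_zero, not_le]
      exact hδ
  · set g : ℂ → ℝ≥0∞ := (An c ρ).indicator fun z =>
      ‖1 - (z - c) * P.eval (z - c)‖ₑ * ENNReal.ofReal (W z)⁻¹ with hg
    have hgm : Measurable g := by
      refine Measurable.indicator ?_ (An_meas c ρ)
      have hp : Continuous fun z : ℂ => 1 - (z - c) * P.eval (z - c) := by
        have := P.continuous
        fun_prop
      exact hp.measurable.enorm.mul (ENNReal.measurable_ofReal.comp hW.inv)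
    have h3 := Pool.Agent.Y487.NK.polar g hgm c ρ hρ
    have h4 : ∫⁻ z in closedBall c ρ, g z = ∫⁻ z in An c ρ,
        ‖1 - (z - c) * P.eval (z - c)‖ₑ * ENNReal.ofReal (W z)⁻¹ := by
      rw [hg, setLIntegral_indicator (An_meas c ρ), inter_eq_self_of_subset_left (An_sub c ρ)]
    rw [← h4]
    refine le_trans (mul_le_mul' le_rfl ?_) h3
    rw [← setLIntegral_const]
    refine (setLIntegral_mono' hGm (g := fun r => ∫⁻ θ in Ioc (0:ℝ) (2 * Real.pi),
      g (circleMap c r θ)) fun r hr => ?_).trans (lintegral_mono_set inter_subset_left)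
    refine (hδP W c r hW h1 (by simpa using hr.2) P).trans (le_of_eq ?_)
    refine lintegral_congr fun θ => ?_
    rw [hg, indicator_of_mem]
    have hr0 : 0 < r := lt_trans (by positivity) hr.1.1
    show ρ / 2 < ‖circleMap c r θ - c‖ ∧ ‖circleMap c r θ - c‖ ≤ ρ
    rw [circleMap_sub_center, norm_circleMap_zero, abs_of_pos hr0]
    exact hr.1

/-- the quotients of the polynomials by `W`, as a subspace of `L¹` -/
def R0 (c : ℂ) (W : ℂ → ℝ) (μ : Measure ℂ) : Submodule ℂ (Lp ℂ 1 μ) where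
  carrier := {f | ∃ P : Polynomial ℂ, f =ᵐ[μ] fun z => P.eval (z - c) * ((W z)⁻¹ : ℝ)}
  add_mem' := by
    rintro f g ⟨P, hP⟩ ⟨Q, hQ⟩
    refine ⟨P + Q, ?_⟩
    filter_upwards [Lp.coeFn_add f g, hP, hQ] with z h1 h2 h3
    rw [h1, Pi.add_apply, h2, h3, Polynomial.eval_add, add_mul]
  zero_mem' := by
    refine ⟨0, ?_⟩
    filter_upwards [Lp.coeFn_zero ℂ 1 μ] with z h1
    rw [h1]
    simp
  smul_mem' := by
    rintro a f ⟨P, hP⟩
    refine ⟨Polynomial.C a * P, ?_⟩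
    filter_upwards [Lp.coeFn_smul a f, hP] with z h1 h2
    rw [h1, Pi.smul_apply, h2, Polynomial.eval_mul, Polynomial.eval_C, smul_eq_mul, mul_assoc]

/-- **Multipliers**: a function `g` on the annulus with `‖g‖ ≤ 1 / W` which annihilates the polynomials
but not `1 / (z - c)` -/
theorem exists_mult (W : ℂ → ℝ) (c : ℂ) (ρ : ℝ) (hρ : 0 < ρ) (hW : Measurable W)
    (h1 : ∀ z, 1 ≤ W z)
    (hI : ∫⁻ z in closedBall c ρ, ENNReal.ofReal (Real.log (W z)) ≠ ⊤) :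
    ∃ g : ℂ → ℂ, Measurable g ∧ (∀ z, ‖g z‖ * W z ≤ 1) ∧ (∀ z, z ∉ An c ρ → g z = 0) ∧
      (∀ k : ℕ, ∫ z, (z - c) ^ k * g z = 0) ∧ ∫ z, (z - c)⁻¹ * g z ≠ 0 := by
  classical
  set μ : Measure ℂ := volume.restrict (An c ρ) with hμ
  have hμf : IsFiniteMeasure μ := by
    refine ⟨?_⟩
    rw [hμ, Measure.restrict_apply_univ]
    exact lt_of_le_of_lt (measure_mono (An_sub c ρ)) measure_closedBall_lt_top
  have hWp : ∀ z, 0 < W z := fun z => lt_of_lt_of_le one_pos (h1 z)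
  have hWinv : Measurable fun z => (((W z)⁻¹ : ℝ) : ℂ) := Complex.measurable_ofReal.comp hW.inv
  have hWn : ∀ z, ‖(((W z)⁻¹ : ℝ) : ℂ)‖ ≤ 1 := fun z => by
    rw [Complex.norm_real, Real.norm_of_nonneg (inv_nonneg.2 (hWp z).le)]
    exact inv_le_one_of_one_le₀ (h1 z)
  -- bounded functions are in all the spaces
  have hmem : ∀ (f : ℂ → ℂ) (K : ℝ), Measurable f → (∀ z ∈ An c ρ, ‖f z‖ ≤ K) → ∀ q : ℝ≥0∞,
      MemLp f q μ := by
    intro f K hf hK q
    refine (memLp_const K).mono' hf.aestronglyMeasurable ?_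
    rw [hμ]
    filter_upwards [ae_restrict_mem (An_meas c ρ)] with z hz
    exact hK z hz
  have hbd : ∀ k : ℕ, ∀ z ∈ An c ρ, ‖(z - c) ^ k * (((W z)⁻¹ : ℝ) : ℂ)‖ ≤ ρ ^ k := by
    intro k z hz
    rw [norm_mul, norm_pow]
    calc ‖z - c‖ ^ k * ‖(((W z)⁻¹ : ℝ) : ℂ)‖ ≤ ρ ^ k * 1 :=
          mul_le_mul (pow_le_pow_left₀ (norm_nonneg _) hz.2 k) (hWn z) (norm_nonneg _)
            (by positivity)
      _ = ρ ^ k := mul_one _
  have hmk : ∀ k : ℕ, Measurable fun z : ℂ => (z - c) ^ k * (((W z)⁻¹ : ℝ) : ℂ) := fun k =>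
    ((measurable_id.sub_const c).pow_const k).mul hWinv
  have hms : Measurable fun z : ℂ => (z - c)⁻¹ * (((W z)⁻¹ : ℝ) : ℂ) :=
    ((measurable_id.sub_const c).inv).mul hWinv
  have hbs : ∀ z ∈ An c ρ, ‖(z - c)⁻¹ * (((W z)⁻¹ : ℝ) : ℂ)‖ ≤ 2 / ρ := by
    intro z hz
    rw [norm_mul, norm_inv]
    have h2 : ‖z - c‖⁻¹ ≤ 2 / ρ := by
      rw [show 2 / ρ = (ρ / 2)⁻¹ by field_simp]
      exact inv_anti₀ (by positivity) hz.1.le
    calc ‖z - c‖⁻¹ * ‖(((W z)⁻¹ : ℝ) : ℂ)‖ ≤ 2 / ρ * 1 :=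
          mul_le_mul h2 (hWn z) (norm_nonneg _) (by positivity)
      _ = 2 / ρ := mul_one _
  have hk1 := fun k => hmem _ _ (hmk k) (hbd k) 1
  have hs1 := hmem _ _ hms hbs 1
  obtain ⟨δ, hδ, hδP⟩ := area_lower W c ρ hρ hW h1 hI
  -- the function is not in the closure
  have hnot : hs1.toLp _ ∉ (R0 c W μ).topologicalClosure := by
    intro hcl
    have hcl' : hs1.toLp _ ∈ closure ((R0 c W μ : Submodule ℂ (Lp ℂ 1 μ)) : Set (Lp ℂ 1 μ)) := by
      rw [← Submodule.topologicalClosure_coe]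
      exact hcl
    obtain ⟨ε, hε0, hε⟩ : ∃ ε : ℝ, 0 < ε ∧ ENNReal.ofReal (ρ * ε) < δ := by
      by_cases hδt : δ = ⊤
      · exact ⟨1, one_pos, by rw [hδt]; exact ENNReal.ofReal_lt_top⟩
      · have h3 : 0 < δ.toReal := ENNReal.toReal_pos hδ.ne' hδt
        refine ⟨δ.toReal / (2 * ρ), by positivity, ?_⟩
        rw [show ρ * (δ.toReal / (2 * ρ)) = δ.toReal / 2 by field_simp]
        rw [ENNReal.ofReal_lt_iff_lt_toReal (by positivity) hδt]
        linarith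
    obtain ⟨f, ⟨P, hP⟩, hf⟩ := Metric.mem_closure_iff.1 hcl' ε hε0
    have h3 : δ ≤ ENNReal.ofReal (ρ * ε) := by
      refine (hδP P).trans ?_
      have h4 : ∫⁻ z in An c ρ, ‖1 - (z - c) * P.eval (z - c)‖ₑ * ENNReal.ofReal (W z)⁻¹ ≤
          ENNReal.ofReal ρ * ∫⁻ z, ‖hs1.toLp _ z - f z‖ₑ ∂μ := by
        rw [← lintegral_const_mul' _ _ ENNReal.ofReal_ne_top]
        refine lintegral_mono_ae ?_
        filter_upwards [hs1.coeFn_toLp, hP, ae_restrict_mem (An_meas c ρ)] with z h5 h6 hz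
        have hz0 : z - c ≠ 0 := by
          intro h0
          have := hz.1
          rw [h0, norm_zero] at this
          linarith
        rw [h5, h6, ← ofReal_norm, ← ofReal_norm, ← ENNReal.ofReal_mul (norm_nonneg _),
          ← ENNReal.ofReal_mul hρ.le]
        refine ENNReal.ofReal_le_ofReal ?_
        have e1 : 1 - (z - c) * P.eval (z - c) = (z - c) * ((z - c)⁻¹ - P.eval (z - c)) := by
          field_simp
        rw [e1, ← sub_mul, norm_mul, norm_mul, Complex.norm_real,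
          Real.norm_of_nonneg (inv_nonneg.2 (hWp z).le), ← mul_assoc]
        refine mul_le_mul_of_nonneg_right ?_ (inv_nonneg.2 (hWp z).le)
        exact mul_le_mul_of_nonneg_right hz.2 (norm_nonneg _)
      refine h4.trans ?_
      rw [ENNReal.ofReal_mul hρ.le]
      refine mul_le_mul' le_rfl ?_
      have h7 : ∫⁻ z, ‖hs1.toLp _ z - f z‖ₑ ∂μ = ENNReal.ofReal (dist (hs1.toLp _) f) := by
        rw [dist_eq_norm, Lp.norm_def, ENNReal.ofReal_toReal (Lp.memLp _).2.ne,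
          eLpNorm_one_eq_lintegral_enorm]
        refine lintegral_congr_ae ?_
        filter_upwards [Lp.coeFn_sub (hs1.toLp _) f] with z hz
        rw [hz, Pi.sub_apply]
      rw [h7]
      exact ENNReal.ofReal_le_ofReal hf.le
    exact absurd hε (not_lt.2 h3)
  obtain ⟨ℓ, hℓ1, hℓ2⟩ := exists_functional _ (Submodule.isClosed_topologicalClosure _) hnot
  obtain ⟨G, hGm, hGb, hG⟩ := l1_rep ℓ
  have hℓk : ∀ k : ℕ, ℓ ((hk1 k).toLp _) = 0 := by
    intro k
    apply hℓ2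
    apply Submodule.le_topologicalClosure
    refine ⟨Polynomial.X ^ k, ?_⟩
    filter_upwards [(hk1 k).coeFn_toLp] with z hz
    rw [hz]
    simp
  have hℓ0 : 0 < ‖ℓ‖ + 1 := by positivity
  set g : ℂ → ℂ := (An c ρ).indicator fun z =>
    G z * (((W z)⁻¹ : ℝ) : ℂ) * (((‖ℓ‖ + 1)⁻¹ : ℝ) : ℂ) with hg
  have hint : ∀ F : ℂ → ℂ, ∫ z, F z * g z =
      (∫ z, (F z * (((W z)⁻¹ : ℝ) : ℂ)) * G z ∂μ) * (((‖ℓ‖ + 1)⁻¹ : ℝ) : ℂ) := by
    intro F
    rw [← integral_mul_const]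
    show _ = ∫ z in An c ρ, F z * (((W z)⁻¹ : ℝ) : ℂ) * G z * (((‖ℓ‖ + 1)⁻¹ : ℝ) : ℂ)
    rw [← integral_indicator (An_meas c ρ)]
    congr 1
    funext z
    rw [hg, indicator_apply, indicator_apply]
    split_ifs
    · ring
    · rw [mul_zero]
  refine ⟨g, ?_, fun z => ?_, fun z hz => indicator_of_notMem hz _, fun k => ?_, ?_⟩
  · exact ((hGm.mul hWinv).mul measurable_const).indicator (An_meas c ρ)
  · rw [hg, indicator_apply]
    split_ifs
    · rw [norm_mul, norm_mul, Complex.norm_real, Complex.norm_real,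
        Real.norm_of_nonneg (inv_nonneg.2 (hWp z).le), Real.norm_of_nonneg (inv_nonneg.2 hℓ0.le)]
      have h3 : ‖G z‖ * (‖ℓ‖ + 1)⁻¹ ≤ 1 := by
        rw [← div_eq_mul_inv, div_le_one hℓ0]
        linarith [hGb z]
      have h4 : ‖G z‖ * (W z)⁻¹ * (‖ℓ‖ + 1)⁻¹ * W z = ‖G z‖ * (‖ℓ‖ + 1)⁻¹ := by
        have := (hWp z).ne'
        field_simp
      rw [h4]
      exact h3
    · rw [norm_zero, zero_mul]
      exact zero_le_one
  · rw [hint, ← hG _ (hk1 k) (hmem _ _ (hmk k) (hbd k) 2), hℓk, zero_mul]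
  · rw [hint, ← hG _ hs1 (hmem _ _ hms hbs 2)]
    refine mul_ne_zero hℓ1 ?_
    rw [Ne, Complex.ofReal_eq_zero]
    exact (inv_pos.2 hℓ0).ne'

end Pool.Agent.N812.IS
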