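import Pool.Agent.N812.IS.Wk

/-!
# Scalar type operators on Banach spaces: the resolvent is weakly in weak `L²`
-/

set_option autoImplicit false

namespace Pool.Agent.N812.IS

open MeasureTheory Set Metric Filter Topology
open Pool.Agent.Y271.RO (Bd ht)
open Pool.Agent.Y283.NK (ct)
open Pool.Agent.R277.SP
open scoped InnerProductSpace ENNReal NNReal

/-! ### dyadic weights -/

theorem kap {t : ℕ → ℝ} (ht : ∀ j, 0 ≤ t j)
    (hs : Summable fun j => t j ^ 2 * (1 + |Real.log (t j)|)) :
    ∃ (S : ℝ) (κ : ℕ → ℕ), 0 < S ∧ (∀ j, t j ≤ S * (1 / 2 : ℝ) ^ κ j) ∧ Summable (wt κ) := by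
  set sg : ℝ := ∑' j, t j ^ 2 * (1 + |Real.log (t j)|) with hsg
  have hnn : ∀ j, 0 ≤ t j ^ 2 * (1 + |Real.log (t j)|) := fun j => by positivity
  have hsg0 : 0 ≤ sg := tsum_nonneg hnn
  set S : ℝ := 1 + sg with hS
  have hS1 : 1 ≤ S := by linarith
  have htS : ∀ j, t j ≤ S := by
    intro j
    have h1 : t j ^ 2 ≤ sg := by
      refine le_trans ?_ (hs.le_tsum j fun i _ => hnn i)
      have := abs_nonneg (Real.log (t j))
      nlinarith [sq_nonneg (t j)]
    by_contra hcon
    push Not at hcon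
    nlinarith
  have hex : ∀ j, ∃ k : ℕ, t j ≤ S * (1 / 2 : ℝ) ^ k ∧ (1 / 4 : ℝ) ^ k * (1 + k) ≤
      4 * (2 + 2 * Real.log S) * (t j ^ 2 * (1 + |Real.log (t j)|)) + (1 / 4 : ℝ) ^ j * (1 + j) := by
    intro j
    have hlogS : 0 ≤ Real.log S := Real.log_nonneg hS1
    rcases (ht j).eq_or_lt with h0 | h0
    · refine ⟨j, ?_, ?_⟩
      · rw [← h0]
        positivity
      · rw [← h0]
        simp
    · have hx1 : 1 ≤ S / t j := (one_le_div h0).2 (htS j)
      obtain ⟨k, hk1, hk2⟩ := exists_nat_pow_near hx1 (one_lt_two)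
      refine ⟨k, ?_, ?_⟩
      · rw [le_div_iff₀ h0] at hk1
        rw [one_div, inv_pow, ← div_eq_mul_inv, le_div_iff₀ (by positivity), mul_comm]
        exact hk1
      · have h2 : (1 / 4 : ℝ) ^ k ≤ 4 * t j ^ 2 := by
          have h3 : S < 2 ^ (k + 1) * t j := by
            rw [div_lt_iff₀ h0] at hk2
            exact hk2
          have h4 : 1 < (2 ^ (k + 1) * t j) ^ 2 := by
            have : 1 < 2 ^ (k + 1) * t j := lt_of_le_of_lt hS1 h3
            nlinarith
          have h5 : (2 ^ (k + 1) * t j) ^ 2 = 4 ^ k * (4 * t j ^ 2) := by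
            rw [mul_pow, ← pow_mul, mul_comm (k + 1) 2, pow_mul, pow_succ]
            norm_num
            ring
          rw [one_div, inv_pow, inv_le_iff_one_le_mul₀ (by positivity)]
          linarith
        have h3 : (k : ℝ) ≤ 2 * Real.log S + 2 * |Real.log (t j)| := by
          have h4 : (k : ℝ) * Real.log 2 ≤ Real.log (S / t j) := by
            rw [← Real.log_pow]
            exact Real.log_le_log (by positivity) hk1
          have h5 : Real.log (S / t j) = Real.log S - Real.log (t j) :=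
            Real.log_div (by positivity) h0.ne'
          have h6 : (1 / 2 : ℝ) < Real.log 2 := by
            have := Real.log_two_gt_d9
            linarith
          have h7 := neg_abs_le (Real.log (t j))
          have h8 : (0 : ℝ) ≤ k := Nat.cast_nonneg k
          nlinarith
        have h4 : (0 : ℝ) ≤ (1 / 4 : ℝ) ^ j * (1 + j) := by positivity
        have h5 : (1 / 4 : ℝ) ^ k * (1 + k) ≤
            (4 * t j ^ 2) * (1 + (2 * Real.log S + 2 * |Real.log (t j)|)) := by
          gcongr
        have h6 : (4 * t j ^ 2) * (1 + (2 * Real.log S + 2 * |Real.log (t j)|)) ≤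
            4 * (2 + 2 * Real.log S) * (t j ^ 2 * (1 + |Real.log (t j)|)) := by
          have h7 := abs_nonneg (Real.log (t j))
          have h8 : 0 ≤ t j ^ 2 * (1 + Real.log S * |Real.log (t j)|) := by positivity
          have h9 : 4 * (2 + 2 * Real.log S) * (t j ^ 2 * (1 + |Real.log (t j)|)) -
            (4 * t j ^ 2) * (1 + (2 * Real.log S + 2 * |Real.log (t j)|)) =
              4 * t j ^ 2 + 8 * (t j ^ 2 * (Real.log S * |Real.log (t j)|)) := by ring
          have h10 : 0 ≤ t j ^ 2 * (Real.log S * |Real.log (t j)|) := by positivity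
          have h11 : 0 ≤ t j ^ 2 := by positivity
          linarith
        linarith
  choose κ hκ1 hκ2 using hex
  refine ⟨S, κ, by linarith, hκ1, ?_⟩
  refine Summable.of_nonneg_of_le (wt_nonneg κ) (fun j => hκ2 j) ?_
  refine (hs.mul_left _).add ?_
  have h1 : Summable fun j : ℕ => (1 / 4 : ℝ) ^ j := summable_geometric_of_lt_one (by norm_num)
    (by norm_num)
  have h2 : Summable fun j : ℕ => (j : ℝ) * (1 / 4 : ℝ) ^ j := by
    have := summable_pow_mul_geometric_of_norm_lt_one 1 (r := (1 / 4 : ℝ)) (by norm_num)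
    simpa using this
  refine (h1.add h2).congr fun j => ?_
  ring

/-! ### the weak type estimate -/

/-- Cauchy transforms of functions vanishing off a small set -/
theorem ht_wk : ∃ C : ℝ, 0 ≤ C ∧ ∀ (g : ℂ → ℂ) (a : ℂ) (r : ℝ) (A : Set ℂ), MeasurableSet A →
    volume A < ⊤ → Bd g a r 1 → (∀ z, z ∉ A → g z = 0) →
    ∀ l, ‖ht g l‖ ≤ C * Real.sqrt (volume A).toReal := by
  classical
  obtain ⟨K, hK0, hK⟩ := ht_small
  refine ⟨K + 1, by positivity, fun g a r A hA hAf hg hgA l => ?_⟩
  set v : ℝ := (volume A).toReal with hv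
  set ρ : ℝ := Real.sqrt v with hρ
  have hv0 : 0 ≤ v := ENNReal.toReal_nonneg
  rcases (Real.sqrt_nonneg v).eq_or_lt with h0 | h0
  · have hv1 : v = 0 := by
      rw [eq_comm, Real.sqrt_eq_zero hv0] at h0
      exact h0
    have hA0 : volume A = 0 := by
      rcases (ENNReal.toReal_eq_zero_iff _).1 hv1 with h | h
      · exact h
      · exact absurd h hAf.ne
    have hgae : ∀ᵐ z, g z = 0 := by
      have : ∀ᵐ z : ℂ, z ∉ A := measure_eq_zero_iff_ae_notMem.1 hA0
      exact this.mono fun z hz => hgA z hz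
    have : ht g l = 0 := by
      unfold ht
      rw [← integral_zero ℂ ℂ (μ := volume)]
      refine integral_congr_ae (hgae.mono fun z hz => ?_)
      simp only
      rw [hz, zero_mul]
    rw [this, norm_zero]
    positivity
  · set g₁ : ℂ → ℂ := (ball l ρ).indicator g with hg₁
    set g₂ : ℂ → ℂ := (ball l ρ)ᶜ.indicator g with hg₂
    have b₁ : Bd g₁ l ρ 1 := ⟨hg.meas.indicator measurableSet_ball, zero_le_one,
      fun z => (norm_indicator_le_norm_self _ _).trans (hg.bd z),
      fun z hz => indicator_of_notMem hz _⟩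
    have b₁' : Bd g₁ a r 1 := by
      refine ⟨hg.meas.indicator measurableSet_ball, zero_le_one,
        fun z => (norm_indicator_le_norm_self _ _).trans (hg.bd z), fun z hz => ?_⟩
      rw [hg₁, indicator_apply]
      split_ifs
      · exact hg.supp z hz
      · rfl
    have b₂ : Bd g₂ a r 1 := by
      refine ⟨hg.meas.indicator measurableSet_ball.compl, zero_le_one,
        fun z => (norm_indicator_le_norm_self _ _).trans (hg.bd z), fun z hz => ?_⟩
      rw [hg₂, indicator_apply]
      split_ifs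
      · exact hg.supp z hz
      · rfl
    have hr : 0 < r ∨ r ≤ 0 := lt_or_ge 0 r
    have hi : ∀ g' : ℂ → ℂ, Bd g' a r 1 → Integrable (fun z => g' z * (z - l)⁻¹) := by
      intro g' hg'
      rcases hr with hr | hr
      · obtain ⟨K', -, hK'⟩ := hHT r hr
        exact (hK' _ _ _ hg').2.2.1 l
      · have : g' = fun _ => 0 := by
          funext z
          apply hg'.supp
          rw [ball_eq_empty.2 hr]
          exact notMem_empty z
        rw [this]
        simp
    have hsplit : ht g l = ht g₁ l + ht g₂ l := by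
      rw [← ht_add (hi _ b₁') (hi _ b₂)]
      congr 1
      funext z
      simp only [hg₁, hg₂]
      by_cases hz : z ∈ ball l ρ
      · rw [indicator_of_mem hz, indicator_of_notMem (by simpa using hz), add_zero]
      · rw [indicator_of_notMem hz, indicator_of_mem (by simpa using hz), zero_add]
    have h2 : ‖ht g₂ l‖ ≤ ρ := by
      unfold ht
      have h3 : ∀ z, ‖g₂ z * (z - l)⁻¹‖ ≤ A.indicator (fun _ => ρ⁻¹) z := by
        intro z
        by_cases hzA : z ∈ A
        · rw [indicator_of_mem hzA, norm_mul, norm_inv]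
          by_cases hz : z ∈ ball l ρ
          · rw [hg₂, indicator_of_notMem (by simpa using hz), norm_zero, zero_mul]
            positivity
          · rw [mem_ball, dist_eq_norm, not_lt] at hz
            calc ‖g₂ z‖ * ‖z - l‖⁻¹ ≤ 1 * ρ⁻¹ := by
                  refine mul_le_mul (b₂.bd z) (inv_anti₀ h0 hz) (by positivity) zero_le_one
              _ = ρ⁻¹ := one_mul _
        · rw [indicator_of_notMem hzA]
          have : g₂ z = 0 := by
            rw [hg₂, indicator_apply]
            split_ifs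
            · exact hgA z hzA
            · rfl
          rw [this, zero_mul, norm_zero]
      have h4 : Integrable (A.indicator (fun _ => ρ⁻¹) : ℂ → ℝ) :=
        (integrable_indicator_iff hA).2 (integrableOn_const (hs := hAf.ne))
      calc ‖∫ z, g₂ z * (z - l)⁻¹‖ ≤ ∫ z, A.indicator (fun _ => ρ⁻¹) z :=
            norm_integral_le_of_norm_le h4 (Eventually.of_forall h3)
        _ = v * ρ⁻¹ := by
            rw [integral_indicator hA, setIntegral_const, smul_eq_mul]
            rfl
        _ = ρ := by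
            rw [← div_eq_mul_inv, div_eq_iff h0.ne']
            exact (Real.mul_self_sqrt hv0).symm
    rw [hsplit]
    have h1 := hK l ρ 1 g₁ h0 b₁ l
    calc ‖ht g₁ l + ht g₂ l‖ ≤ ‖ht g₁ l‖ + ‖ht g₂ l‖ := norm_add_le _ _
      _ ≤ ρ * (K * 1) + ρ := add_le_add h1 h2
      _ = (K + 1) * ρ := by ring

/-- weak type by duality -/
theorem wk_of_dual {F : ℂ → ℂ} (hF : Measurable F) {R w : ℝ}
    (h : ∀ (g : ℂ → ℂ) (A : Set ℂ), MeasurableSet A → A ⊆ ball 0 R → Bd g 0 R 1 →
      (∀ z, z ∉ A → g z = 0) → Integrable (fun z => g z * F z) ∧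
        ‖∫ z, g z * F z‖ ≤ w * Real.sqrt (volume A).toReal) : Wk F R w := by
  classical
  intro A hA hAB
  set g : ℂ → ℂ := A.indicator fun z => if F z = 0 then 0 else
    (starRingEnd ℂ) (F z) * ((‖F z‖ : ℂ))⁻¹ with hg
  have hb : Bd g 0 R 1 := by
    refine ⟨?_, zero_le_one, fun z => ?_, fun z hz => ?_⟩
    · refine Measurable.indicator ?_ hA
      refine Measurable.ite (measurableSet_eq_fun hF measurable_const) measurable_const ?_
      exact (Complex.continuous_conj.measurable.comp hF).mul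
        (Complex.measurable_ofReal.comp hF.norm).inv
    · rw [hg]
      refine (norm_indicator_le_norm_self _ _).trans ?_
      split_ifs with h0
      · rw [norm_zero]; exact zero_le_one
      · rw [norm_mul, RCLike.norm_conj, norm_inv, Complex.norm_real, norm_norm,
          mul_inv_cancel₀ (norm_ne_zero_iff.2 h0)]
    · rw [hg, indicator_of_notMem fun hzA => hz (hAB hzA)]
  obtain ⟨h1, h2⟩ := h g A hA hAB hb fun z hz => indicator_of_notMem hz _
  have h3 : ∀ z, g z * F z = A.indicator (fun z => ((‖F z‖ : ℝ) : ℂ)) z := by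
    intro z
    rw [hg]
    by_cases hz : z ∈ A
    · rw [indicator_of_mem hz, indicator_of_mem hz]
      split_ifs with h0
      · rw [h0]; simp
      · have h4 : ((‖F z‖ : ℝ) : ℂ) ≠ 0 := by
          exact_mod_cast norm_ne_zero_iff.2 h0
        rw [mul_comm, ← mul_assoc, Complex.mul_conj, Complex.normSq_eq_norm_sq]
        push_cast
        field_simp
    · rw [indicator_of_notMem hz, indicator_of_notMem hz, zero_mul]
  simp_rw [h3] at h1 h2
  have h4 : IntegrableOn (fun z => ‖F z‖) A := by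
    have h5 := (integrable_indicator_iff hA).1 h1
    have h6 := h5.norm
    refine h6.congr (Eventually.of_forall fun z => ?_)
    simp
  rw [← ofReal_integral_eq_lintegral_ofReal h4 (Eventually.of_forall fun z => norm_nonneg _)]
  refine ENNReal.ofReal_le_ofReal ?_
  have h7 : ∫ z in A, ((‖F z‖ : ℝ) : ℂ) = ((∫ z in A, ‖F z‖ : ℝ) : ℂ) := integral_ofReal
  rw [integral_indicator hA, h7, Complex.norm_real] at h2
  exact (le_abs_self _).trans h2

/-! ### the operators -/

section

variable {X : Type} [NormedAddCommGroup X] [NormedSpace ℂ X] {K : Set ℂ} [CompactSpace K]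
  {Φ : C(K, ℂ) →ₐ[ℂ] (X →L[ℂ] X)} {N : X →L[ℂ] X} {M : ℝ}

theorem FC_ex (hF : FC Φ N M) (y : X →L[ℂ] ℂ) (x : X) : ∃ F : ℂ → ℂ, Measurable F ∧
    ∀ (a : ℂ) (r B : ℝ) (g : ℂ → ℂ), Bd g a r B →
      Integrable (fun z => g z * F z) ∧ y (Φ (cK K (ht g)) x) = ∫ z, g z * F z := by
  obtain ⟨μ, h1, h2, w, d, hm⟩ := hF.mo x y
  refine ⟨ct (Subtype.val : K → ℂ) w d, (hCTG K μ Subtype.val val_meas w d).1, ?_⟩
  intro a r B g hg
  exact hm.ht hg

/-- the weak resolvent -/
noncomputable def fF (hF : FC Φ N M) (y : X →L[ℂ] ℂ) (x : X) : ℂ → ℂ := (FC_ex hF y x).choose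

lemma fF_meas (hF : FC Φ N M) (y : X →L[ℂ] ℂ) (x : X) : Measurable (fF hF y x) :=
  (FC_ex hF y x).choose_spec.1

lemma fF_rep (hF : FC Φ N M) (y : X →L[ℂ] ℂ) (x : X) (a : ℂ) (r B : ℝ) (g : ℂ → ℂ)
    (hg : Bd g a r B) : Integrable (fun z => g z * fF hF y x z) ∧
      y (Φ (cK K (ht g)) x) = ∫ z, g z * fF hF y x z :=
  (FC_ex hF y x).choose_spec.2 a r B g hg

lemma FC_norm_R (hF : FC Φ N M) {g : ℂ → ℂ} {a : ℂ} {r B D : ℝ} (hg : Bd g a r B) (hD : 0 ≤ D)
    (h : ∀ l, ‖ht g l‖ ≤ D) : ‖Φ (cK K (ht g))‖ ≤ M * D := by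
  refine (hF.bd _).trans ?_
  refine mul_le_mul_of_nonneg_left ?_ hF.nonneg
  rw [ContinuousMap.norm_le _ hD]
  intro s
  rw [cK_apply (ht_cont hg)]
  exact h _

theorem FC_rc (hF : FC Φ N M) : RC N (fun g => Φ (cK K (ht g))) (fF hF) := by
  refine ⟨fun a r B g _ => hF.comm _, fun a c r B g x hg => ?_, fun r hr => ?_, fun ε hε => ?_,
    fF_meas hF, fF_rep hF⟩
  · have hr : 0 < r ∨ r ≤ 0 := lt_or_ge 0 r
    rcases hr with hr | hr
    · obtain ⟨R, hR0, hR⟩ := hHT r hr
      obtain ⟨i1, i2, i3, i4, i5⟩ := hR c B g hg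
      have hb' : Bd (fun z => (z - a) * g z) c r ((r + ‖c - a‖) * B) := by
        refine ⟨(measurable_id.sub_const a).mul hg.meas,
          mul_nonneg (by positivity) hg.nonneg, ?_, ?_⟩
        · intro z
          rw [norm_mul]
          by_cases hz : z ∈ ball c r
          · rw [mem_ball, dist_eq_norm] at hz
            refine mul_le_mul ?_ (hg.bd z) (norm_nonneg _) (by positivity)
            calc ‖z - a‖ = ‖(z - c) + (c - a)‖ := by congr 1; ring
              _ ≤ ‖z - c‖ + ‖c - a‖ := norm_add_le _ _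
              _ ≤ _ := by linarith
          · rw [hg.supp z hz, norm_zero, mul_zero]
            exact mul_nonneg (by positivity) hg.nonneg
        · intro z hz
          rw [hg.supp z hz, mul_zero]
      have e2 := hF.step (h := cK K (ht g)) (h' := cK K (ht (fun z => (z - a) * g z))) (a := a)
        (c := ∫ z, g z) (fun s => by
          rw [cK_apply (ht_cont hg), cK_apply (ht_cont hb'), i5 a s]
          ring) x
      exact e2
    · have h0 : g = fun _ => 0 := by
        funext z
        apply hg.supp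
        rw [ball_eq_empty.2 hr]
        exact notMem_empty z
      have h1 : ht (fun _ : ℂ => (0 : ℂ)) = fun _ => 0 := by
        funext l
        unfold ht
        simp
      have h2 : cK K (fun _ => (0 : ℂ)) = 0 := by
        ext s
        rw [cK_apply continuous_const]
        rfl
      subst h0
      simp only [mul_zero, h1, h2, map_zero, zero_apply, integral_zero, smul_zero,
        zero_smul, sub_zero]
  · obtain ⟨R, hR0, hR⟩ := hHT r hr
    refine ⟨M * R, mul_nonneg hF.nonneg hR0, fun a B g hg => ?_⟩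
    rw [mul_assoc]
    exact FC_norm_R hF hg (mul_nonneg hR0 hg.nonneg) (hR a B g hg).2.2.2.1
  · obtain ⟨C, hC0, hC⟩ := ht_small
    refine ⟨ε / (M * C + 1), div_pos hε (by have := mul_nonneg hF.nonneg hC0; linarith),
      fun a B g hg => ?_⟩
    have h0 := mul_nonneg hF.nonneg hC0
    have hρ : 0 < ε / (M * C + 1) := div_pos hε (by linarith)
    have h1 := FC_norm_R hF hg (mul_nonneg hρ.le (mul_nonneg hC0 hg.nonneg)) (hC a _ B g hρ hg)
    refine h1.trans ?_
    have h2 : M * (ε / (M * C + 1) * (C * B)) = ε * B * (M * C / (M * C + 1)) := by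
      field_simp
    rw [h2]
    have h3 : M * C / (M * C + 1) ≤ 1 := by
      rw [div_le_one (by linarith)]
      linarith
    exact mul_le_of_le_one_right (mul_nonneg hε.le hg.nonneg) h3

theorem fF_wk (hF : FC Φ N M) : ∃ C : ℝ, 0 ≤ C ∧ ∀ (y : X →L[ℂ] ℂ) (x : X) (R : ℝ),
    Wk (fF hF y x) R (‖y‖ * (C * ‖x‖)) := by
  obtain ⟨C, hC0, hC⟩ := ht_wk
  refine ⟨M * C, mul_nonneg hF.nonneg hC0, fun y x R => ?_⟩
  refine wk_of_dual (fF_meas hF y x) fun g A hA hAB hg hgA => ?_
  obtain ⟨h1, h2⟩ := fF_rep hF y x 0 R 1 g hg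
  refine ⟨h1, ?_⟩
  rw [← h2]
  have hAf : volume A < ⊤ := lt_of_le_of_lt (measure_mono hAB) measure_ball_lt_top
  have h3 := FC_norm_R hF hg (mul_nonneg hC0 (Real.sqrt_nonneg _)) (hC g 0 R A hA hAf hg hgA)
  calc ‖y (Φ (cK K (ht g)) x)‖ ≤ ‖y‖ * (‖Φ (cK K (ht g))‖ * ‖x‖) :=
        (y.le_opNorm _).trans (mul_le_mul_of_nonneg_left (ContinuousLinearMap.le_opNorm _ _)
          (norm_nonneg _))
    _ ≤ ‖y‖ * ((M * (C * Real.sqrt (volume A).toReal)) * ‖x‖) := by gcongr
    _ = _ := by ring

end

end Pool.Agent.N812.IS
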