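import Pool.Agent.N812.IS.Nn
import Pool.Agent.N812.IS.Ann
import Pool.Agent.R277.SP.Main2

/-!
# Perturbations `N + κ K`, where the resolvent of `N` is weakly locally integrable
-/

set_option autoImplicit false

namespace Pool.Agent.N812.IS

open MeasureTheory Set Metric Filter Topology
open Pool.Agent.R276.CP
open Pool.Agent.Y271.RO (Bd)
open scoped InnerProductSpace ENNReal NNReal

/-- the operators `R g = ∫ g(z) (z - N)⁻¹ dA`; `f i x z = φ i ((z - N)⁻¹ x)` -/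
structure Cal {E ι : Type} [NormedAddCommGroup E] [NormedSpace ℂ E] (N : E →L[ℂ] E)
    (R : (ℂ → ℂ) → (E →L[ℂ] E)) (φ : ι → (E →L[ℂ] ℂ)) (f : ι → E → ℂ → ℂ) : Prop where
  norming : ∀ (x : E) (B : ℝ), 0 ≤ B → (∀ i, ‖φ i x‖ ≤ B * ‖φ i‖) → ‖x‖ ≤ B
  step : ∀ (a c : ℂ) (r B : ℝ) (g : ℂ → ℂ) (x : E), Bd g c r B →
    N (R g x) - a • R g x = R (fun z => (z - a) * g z) x - (∫ z, g z) • x
  bdd : ∀ r : ℝ, 0 < r → ∃ C : ℝ, 0 ≤ C ∧ ∀ (a : ℂ) (B : ℝ) (g : ℂ → ℂ), Bd g a r B → ‖R g‖ ≤ C * B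
  meas : ∀ i x, Measurable (f i x)
  rep : ∀ (i : ι) (x : E) (a : ℂ) (r B : ℝ) (g : ℂ → ℂ), Bd g a r B →
    Integrable (fun z => g z * f i x z) ∧ φ i (R g x) = ∫ z, g z * f i x z

/-- the perturbation `K x = ∑ φ (v j) x • u j` -/
structure Pert {E ι : Type} [NormedAddCommGroup E] [NormedSpace ℂ E] (φ : ι → (E →L[ℂ] ℂ))
    (f : ι → E → ℂ → ℂ) (u : ℕ → E) (v : ℕ → ι) (K : E →L[ℂ] E) : Prop where
  sum : ∀ x, Tendsto (fun n => ∑ j ∈ Finset.range n, φ (v j) x • u j) atTop (𝓝 (K x))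
  b1 : ∀ R : ℝ, ∫⁻ z in ball (0:ℂ) R, Xi (fun i j z => f (v i) (u j) z) z < ⊤
  b2 : ∀ (x : E) (R : ℝ), ∫⁻ z in ball (0:ℂ) R, nn (fun i => f (v i) x z) < ⊤
  b3 : ∀ R : ℝ, ∃ C : ℝ, 0 ≤ C ∧ ∀ i : ι, ∫⁻ z in ball (0:ℂ) R, nn (fun j => f i (u j) z) ≤
    ENNReal.ofReal (C * ‖φ i‖)
  b4 : ∀ R ε : ℝ, 0 < ε → ∃ n : ℕ, ∀ i : ι,
    ∫⁻ z in ball (0:ℂ) R, nn (tl n (fun j => f i (u j) z)) ≤ ENNReal.ofReal (ε * ‖φ i‖)

/-- multipliers -/
structure Mu (c : ℂ → l2) (g : ℂ → ℂ) (a : ℂ) (r B : ℝ) : Prop where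
  meas : Measurable g
  nonneg : 0 ≤ B
  bd : ∀ z, ‖g z‖ * (1 + ‖c z‖) ≤ B
  supp : ∀ z, z ∉ ball a r → g z = 0

section

variable {E ι : Type} [NormedAddCommGroup E] [NormedSpace ℂ E] {N : E →L[ℂ] E}
    {R : (ℂ → ℂ) → (E →L[ℂ] E)} {φ : ι → (E →L[ℂ] ℂ)} {f : ι → E → ℂ → ℂ} {u : ℕ → E} {v : ℕ → ι}
    {K : E →L[ℂ] E} {c : ℂ → l2} {g : ℂ → ℂ} {a : ℂ} {r B : ℝ}

lemma Mu.toBd (hg : Mu c g a r B) : Bd g a r B := by
  refine ⟨hg.meas, hg.nonneg, fun z => ?_, hg.supp⟩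
  refine le_trans ?_ (hg.bd z)
  nlinarith [norm_nonneg (g z), norm_nonneg (c z), mul_nonneg (norm_nonneg (g z)) (norm_nonneg (c z))]

lemma Mu.bdc (hg : Mu c g a r B) (z : ℂ) : ‖g z‖ * ‖c z‖ ≤ B := by
  refine le_trans ?_ (hg.bd z)
  nlinarith [norm_nonneg (g z), norm_nonneg (c z), mul_nonneg (norm_nonneg (g z)) (norm_nonneg (c z))]

lemma Mu.coord (hc : StronglyMeasurable c) (hg : Mu c g a r B) (j : ℕ) :
    Bd (fun z => g z * (c z : ℕ → ℂ) j) a r B := by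
  refine ⟨hg.meas.mul (coord_meas hc j), hg.nonneg, fun z => ?_, fun z hz => ?_⟩
  · rw [norm_mul]
    exact (mul_le_mul_of_nonneg_left (coord_le _ _) (norm_nonneg _)).trans (hg.bdc z)
  · rw [hg.supp z hz, zero_mul]

/-- multiplication of a multiplier -/
lemma Mu.mul (hg : Mu c g a r B) {h : ℂ → ℂ} {B' : ℝ} (hh : Measurable h) (hB' : 0 ≤ B')
    (hb : ∀ z ∈ ball a r, ‖h z‖ ≤ B') : Mu c (fun z => h z * g z) a r (B' * B) := by
  refine ⟨hh.mul hg.meas, mul_nonneg hB' hg.nonneg, fun z => ?_, fun z hz => ?_⟩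
  · by_cases hz : z ∈ ball a r
    · rw [norm_mul, mul_assoc]
      refine mul_le_mul (hb z hz) (hg.bd z) ?_ hB'
      positivity
    · rw [hg.supp z hz, mul_zero, norm_zero, zero_mul]
      exact mul_nonneg hB' hg.nonneg
  · rw [hg.supp z hz, mul_zero]

/-- the partial sums -/
noncomputable def Zs (R : (ℂ → ℂ) → (E →L[ℂ] E)) (u : ℕ → E) (c : ℂ → l2) (g : ℂ → ℂ) (n : ℕ) : E :=
  ∑ j ∈ Finset.range n, R (fun z => g z * (c z : ℕ → ℂ) j) (u j)

lemma sum_int (hC : Cal N R φ f) (hc : StronglyMeasurable c) (hg : Mu c g a r B) (i : ι)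
    (s : Finset ℕ) : Integrable (fun z => g z * ∑ j ∈ s, (c z : ℕ → ℂ) j * f i (u j) z) ∧
      φ i (∑ j ∈ s, R (fun z => g z * (c z : ℕ → ℂ) j) (u j)) =
      ∫ z, g z * ∑ j ∈ s, (c z : ℕ → ℂ) j * f i (u j) z := by
  have h1 : ∀ j, Integrable (fun z => g z * (c z : ℕ → ℂ) j * f i (u j) z) :=
    fun j => (hC.rep i (u j) a r B _ (hg.coord hc j)).1
  have h2 : ∀ z, g z * ∑ j ∈ s, (c z : ℕ → ℂ) j * f i (u j) z =
      ∑ j ∈ s, g z * (c z : ℕ → ℂ) j * f i (u j) z := by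
    intro z
    rw [Finset.mul_sum]
    exact Finset.sum_congr rfl fun j _ => by ring
  simp_rw [h2]
  refine ⟨integrable_finset_sum _ fun j _ => h1 j, ?_⟩
  rw [map_sum, integral_finset_sum _ fun j _ => h1 j]
  exact Finset.sum_congr rfl fun j _ => (hC.rep i (u j) a r B _ (hg.coord hc j)).2

lemma ball_sub (a : ℂ) (r : ℝ) : ball a r ⊆ ball (0:ℂ) (‖a‖ + r) := by
  intro z hz
  rw [mem_ball, dist_eq_norm] at hz
  rw [mem_ball_zero_iff]
  calc ‖z‖ = ‖a + (z - a)‖ := by congr 1; ring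
    _ ≤ ‖a‖ + ‖z - a‖ := norm_add_le _ _
    _ < _ := by linarith

lemma block (hC : Cal N R φ f) (hc : StronglyMeasurable c)
    (hg : Mu c g a r B) (i : ι) {s : Finset ℕ} {n : ℕ} (hs : ∀ j ∈ s, n ≤ j) {D : ℝ} (hD : 0 ≤ D)
    (hn : ∫⁻ z in ball (0:ℂ) (‖a‖ + r), nn (tl n (fun j => f i (u j) z)) ≤
      ENNReal.ofReal (D * ‖φ i‖)) :
    ‖φ i (∑ j ∈ s, R (fun z => g z * (c z : ℕ → ℂ) j) (u j))‖ ≤ D * B * ‖φ i‖ := by
  obtain ⟨h1, h2⟩ := sum_int (u := u) hC hc hg i s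
  rw [h2]
  have hB := hg.nonneg
  have h3 : ENNReal.ofReal ‖∫ z, g z * ∑ j ∈ s, (c z : ℕ → ℂ) j * f i (u j) z‖ ≤
      ENNReal.ofReal (D * B * ‖φ i‖) := by
    calc ENNReal.ofReal ‖∫ z, g z * ∑ j ∈ s, (c z : ℕ → ℂ) j * f i (u j) z‖
        ≤ ∫⁻ z, ENNReal.ofReal ‖g z * ∑ j ∈ s, (c z : ℕ → ℂ) j * f i (u j) z‖ := by
          simp only [ofReal_norm_eq_enorm]
          exact enorm_integral_le_lintegral_enorm _
      _ ≤ ∫⁻ z in ball (0:ℂ) (‖a‖ + r), ENNReal.ofReal B * nn (tl n (fun j => f i (u j) z)) := by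
          rw [← lintegral_indicator measurableSet_ball]
          refine lintegral_mono fun z => ?_
          by_cases hz : z ∈ ball (0:ℂ) (‖a‖ + r)
          · rw [indicator_of_mem hz, norm_mul, ENNReal.ofReal_mul (norm_nonneg _)]
            calc ENNReal.ofReal ‖g z‖ * ENNReal.ofReal ‖∑ j ∈ s, (c z : ℕ → ℂ) j * f i (u j) z‖
                ≤ ENNReal.ofReal ‖g z‖ *
                  (ENNReal.ofReal ‖c z‖ * nn (tl n (fun j => f i (u j) z))) :=
                  mul_le_mul' le_rfl (sum_le_tl (c z) _ hs)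
              _ = ENNReal.ofReal (‖g z‖ * ‖c z‖) * nn (tl n (fun j => f i (u j) z)) := by
                  rw [ENNReal.ofReal_mul (norm_nonneg _), mul_assoc]
              _ ≤ _ := mul_le_mul' (ENNReal.ofReal_le_ofReal (hg.bdc z)) le_rfl
          · rw [indicator_of_notMem hz, hg.supp z (fun h => hz (ball_sub a r h)), zero_mul,
              norm_zero, ENNReal.ofReal_zero]
      _ = ENNReal.ofReal B * ∫⁻ z in ball (0:ℂ) (‖a‖ + r), nn (tl n (fun j => f i (u j) z)) := by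
          rw [lintegral_const_mul]
          exact nn_meas fun j => tl_meas (fun j => hC.meas i (u j)) n j
      _ ≤ ENNReal.ofReal B * ENNReal.ofReal (D * ‖φ i‖) := mul_le_mul' le_rfl hn
      _ = ENNReal.ofReal (D * B * ‖φ i‖) := by
          rw [← ENNReal.ofReal_mul hB]
          congr 1
          ring
  exact (ENNReal.ofReal_le_ofReal_iff (by positivity)).1 h3

lemma Zs_cauchy (hC : Cal N R φ f) (hP : Pert φ f u v K) (hc : StronglyMeasurable c)
    (hg : Mu c g a r B) : CauchySeq (Zs R u c g) := by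
  rw [Metric.cauchySeq_iff']
  intro ε hε
  have hB := hg.nonneg
  set δ : ℝ := ε / (2 * (B + 1)) with hδ
  have hδ0 : 0 < δ := by positivity
  obtain ⟨n, hn⟩ := hP.b4 (‖a‖ + r) δ hδ0
  refine ⟨n, fun m hm => ?_⟩
  rw [dist_eq_norm]
  have h1 : Zs R u c g m - Zs R u c g n =
      ∑ j ∈ Finset.Ico n m, R (fun z => g z * (c z : ℕ → ℂ) j) (u j) := by
    unfold Zs
    rw [Finset.sum_Ico_eq_sub _ hm]
  rw [h1]
  have h2 := hC.norming (∑ j ∈ Finset.Ico n m, R (fun z => g z * (c z : ℕ → ℂ) j) (u j)) (δ * B)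
    (by positivity) fun i => block hC hc hg i (fun j hj => (Finset.mem_Ico.1 hj).1) hδ0.le (hn i)
  refine h2.trans_lt ?_
  rw [hδ, div_mul_eq_mul_div, div_lt_iff₀ (by positivity)]
  nlinarith

variable [CompleteSpace E]

/-- the sum -/
noncomputable def Zl (R : (ℂ → ℂ) → (E →L[ℂ] E)) (u : ℕ → E) (c : ℂ → l2) (g : ℂ → ℂ) : E :=
  limUnder atTop (Zs R u c g)

lemma Zl_tendsto (hC : Cal N R φ f) (hP : Pert φ f u v K) (hc : StronglyMeasurable c)
    (hg : Mu c g a r B) : Tendsto (Zs R u c g) atTop (𝓝 (Zl R u c g)) :=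
  tendsto_nhds_limUnder (cauchySeq_tendsto_of_complete (Zs_cauchy hC hP hc hg))

omit [CompleteSpace E] in
lemma Zl_bound (hC : Cal N R φ f) (hP : Pert φ f u v K) (hc : StronglyMeasurable c) (a : ℂ) (r : ℝ) :
    ∃ C : ℝ, 0 ≤ C ∧ ∀ (g : ℂ → ℂ) (B : ℝ), Mu c g a r B → ∀ n, ‖Zs R u c g n‖ ≤ C * B := by
  obtain ⟨C, hC0, h⟩ := hP.b3 (‖a‖ + r)
  refine ⟨C, hC0, fun g B hg n => ?_⟩
  refine hC.norming _ _ (mul_nonneg hC0 hg.nonneg) fun i => ?_
  refine block hC hc hg i (n := 0) (fun j _ => Nat.zero_le j) hC0 ?_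
  simp only [tl_zero]
  exact h i

/-- the value of the functionals -/
lemma Zl_val (hC : Cal N R φ f) (hP : Pert φ f u v K) (hc : StronglyMeasurable c)
    (hg : Mu c g a r B) (i : ι) {s : ℂ → ℂ}
    (hs : ∀ᵐ z : ℂ, HasSum (fun j => f i (u j) z * (c z : ℕ → ℂ) j) (s z)) :
    Integrable (fun z => g z * s z) ∧ φ i (Zl R u c g) = ∫ z, g z * s z := by
  have h1 := ((φ i).continuous.tendsto _).comp (Zl_tendsto hC hP hc hg)
  obtain ⟨C, hC0, hb3⟩ := hP.b3 (‖a‖ + r)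
  set G : ℂ → ℝ≥0∞ := (ball (0:ℂ) (‖a‖ + r)).indicator fun z =>
    ENNReal.ofReal B * nn (fun j => f i (u j) z) with hG
  have hGm : Measurable G :=
    ((nn_meas fun j => hC.meas i (u j)).const_mul _).indicator measurableSet_ball
  have hGi : ∫⁻ z, G z ≠ ⊤ := by
    rw [hG, lintegral_indicator measurableSet_ball, lintegral_const_mul _
      (nn_meas fun j => hC.meas i (u j))]
    exact (ENNReal.mul_lt_top ENNReal.ofReal_lt_top
      ((hb3 i).trans_lt ENNReal.ofReal_lt_top)).ne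
  have hGa : ∀ᵐ z, G z < ⊤ := ae_lt_top hGm hGi
  have hGint : Integrable fun z => (G z).toReal := integrable_toReal_of_lintegral_ne_top
    hGm.aemeasurable hGi
  have hbound : ∀ n : ℕ, ∀ᵐ z, ‖g z * ∑ j ∈ Finset.range n, (c z : ℕ → ℂ) j * f i (u j) z‖ ≤
      (G z).toReal := by
    intro n
    filter_upwards [hGa] with z hz
    rw [← ENNReal.ofReal_le_iff_le_toReal hz.ne]
    simp only [hG]
    by_cases hzb : z ∈ ball (0:ℂ) (‖a‖ + r)
    · rw [indicator_of_mem hzb, norm_mul, ENNReal.ofReal_mul (norm_nonneg _)]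
      calc ENNReal.ofReal ‖g z‖ * ENNReal.ofReal ‖∑ j ∈ Finset.range n, (c z : ℕ → ℂ) j * f i (u j) z‖
          ≤ ENNReal.ofReal ‖g z‖ * (ENNReal.ofReal ‖c z‖ * nn (fun j => f i (u j) z)) :=
            mul_le_mul' le_rfl (sum_le_nn (c z) _ _)
        _ = ENNReal.ofReal (‖g z‖ * ‖c z‖) * nn (fun j => f i (u j) z) := by
            rw [ENNReal.ofReal_mul (norm_nonneg _), mul_assoc]
        _ ≤ _ := mul_le_mul' (ENNReal.ofReal_le_ofReal (hg.bdc z)) le_rfl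
    · rw [indicator_of_notMem hzb, hg.supp z (fun h => hzb (ball_sub a r h)), zero_mul,
        norm_zero, ENNReal.ofReal_zero]
  have hlim : ∀ᵐ z, Tendsto (fun n => g z * ∑ j ∈ Finset.range n, (c z : ℕ → ℂ) j * f i (u j) z)
      atTop (𝓝 (g z * s z)) := by
    filter_upwards [hs] with z hz
    have h2 := hz.tendsto_sum_nat.const_mul (g z)
    refine h2.congr fun n => ?_
    congr 1
    exact Finset.sum_congr rfl fun j _ => mul_comm _ _
  have hmeas : ∀ n : ℕ, AEStronglyMeasurable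
      (fun z => g z * ∑ j ∈ Finset.range n, (c z : ℕ → ℂ) j * f i (u j) z) volume :=
    fun n => (sum_int (u := u) hC hc hg i (Finset.range n)).1.aestronglyMeasurable
  have h3 := tendsto_integral_of_dominated_convergence _ hmeas hGint hbound hlim
  have h4 : (fun n => ∫ z, g z * ∑ j ∈ Finset.range n, (c z : ℕ → ℂ) j * f i (u j) z) =
      (φ i) ∘ (Zs R u c g) := by
    funext n
    exact (sum_int (u := u) hC hc hg i (Finset.range n)).2.symm
  rw [h4] at h3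
  refine ⟨?_, tendsto_nhds_unique h1 h3⟩
  refine hGint.mono' (aestronglyMeasurable_of_tendsto_ae atTop hmeas hlim) ?_
  filter_upwards [hlim, ae_all_iff.2 hbound] with z hz1 hz2
  exact le_of_tendsto' hz1.norm hz2

/-- the vectors `(∫ g(z) (z - T)⁻¹ dA) x` -/
noncomputable def Yv (R : (ℂ → ℂ) → (E →L[ℂ] E)) (u : ℕ → E) (c : ℂ → l2) (κ : ℂ) (x : E)
    (g : ℂ → ℂ) : E := R g x + κ • Zl R u c g

/-- the basic formula -/
theorem Yv_step (hC : Cal N R φ f) (hP : Pert φ f u v K) (hc : StronglyMeasurable c) (κ : ℂ) (x : E)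
    (hce : ∀ᵐ z : ℂ, ∀ i, ∃ s : ℂ, HasSum (fun j => f (v i) (u j) z * (c z : ℕ → ℂ) j) s ∧
        (c z : ℕ → ℂ) i = f (v i) x z + κ * s)
    (hg : Mu c g a r B) (b : ℂ) :
    (N + κ • K) (Yv R u c κ x g) - b • Yv R u c κ x g =
      Yv R u c κ x (fun z => (z - b) * g z) - (∫ z, g z) • x := by
  have hg' : Mu c (fun z => (z - b) * g z) a r ((r + ‖a - b‖) * B ⊔ 0) := by
    by_cases hr : 0 ≤ r
    · have h1 := hg.mul (h := fun z => z - b) (B' := r + ‖a - b‖) (measurable_id.sub_const b)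
        (by positivity) (fun z hz => by
          rw [mem_ball, dist_eq_norm] at hz
          calc ‖z - b‖ = ‖(z - a) + (a - b)‖ := by congr 1; ring
            _ ≤ ‖z - a‖ + ‖a - b‖ := norm_add_le _ _
            _ ≤ _ := by linarith)
      exact ⟨h1.meas, le_max_right _ _, fun z => (h1.bd z).trans (le_max_left _ _), h1.supp⟩
    · have h0 : ∀ z, g z = 0 := fun z => hg.supp z (by
        rw [ball_eq_empty.2 (not_le.1 hr).le]
        exact notMem_empty z)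
      refine ⟨(measurable_id.sub_const b).mul hg.meas, le_max_right _ _, fun z => ?_, fun z _ => ?_⟩
      · rw [h0 z]
        simp
      · rw [h0 z, mul_zero]
  have t1 := Zl_tendsto hC hP hc hg
  have t2 := Zl_tendsto hC hP hc hg'
  have hpart : ∀ n, N (Zs R u c g n) - b • Zs R u c g n =
      Zs R u c (fun z => (z - b) * g z) n -
        ∑ j ∈ Finset.range n, (∫ z, g z * (c z : ℕ → ℂ) j) • u j := by
    intro n
    unfold Zs
    rw [map_sum, Finset.smul_sum, ← Finset.sum_sub_distrib, ← Finset.sum_sub_distrib]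
    refine Finset.sum_congr rfl fun j _ => ?_
    rw [hC.step b a r B _ (u j) (hg.coord hc j)]
    congr 3
    funext z
    ring
  have hval : ∀ i, φ (v i) (Yv R u c κ x g) = ∫ z, g z * (c z : ℕ → ℂ) i := by
    intro i
    choose! s hs1 hs2 using fun z (h : ∀ i, ∃ s : ℂ, HasSum (fun j => f (v i) (u j) z *
      (c z : ℕ → ℂ) j) s ∧ (c z : ℕ → ℂ) i = f (v i) x z + κ * s) => h i
    obtain ⟨i1, i2⟩ := Zl_val hC hP hc hg (v i) (s := s) (hce.mono fun z hz => hs1 z hz)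
    obtain ⟨i3, i4⟩ := hC.rep (v i) x a r B g hg.toBd
    unfold Yv
    rw [map_add, map_smul, i2, i4, smul_eq_mul, ← integral_const_mul, ← integral_add i3
      (i1.const_mul κ)]
    refine integral_congr_ae (hce.mono fun z hz => ?_)
    simp only
    rw [hs2 z hz]
    ring
  have hK : Tendsto (fun n => ∑ j ∈ Finset.range n, (∫ z, g z * (c z : ℕ → ℂ) j) • u j) atTop
      (𝓝 (K (Yv R u c κ x g))) := by
    refine (hP.sum (Yv R u c κ x g)).congr fun n => ?_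
    exact Finset.sum_congr rfl fun j _ => by rw [hval j]
  have hN : Tendsto (fun n => N (Zs R u c g n) - b • Zs R u c g n) atTop
      (𝓝 (N (Zl R u c g) - b • Zl R u c g)) :=
    ((N.continuous.tendsto _).comp t1).sub (t1.const_smul b)
  have hN2 : N (Zl R u c g) - b • Zl R u c g =
      Zl R u c (fun z => (z - b) * g z) - K (Yv R u c κ x g) := by
    refine tendsto_nhds_unique hN ?_
    refine (t2.sub hK).congr fun n => ?_
    exact (hpart n).symm
  have h5 := hC.step b a r B g x hg.toBd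
  have e1 : (N + κ • K) (Yv R u c κ x g) - b • Yv R u c κ x g =
      (N (R g x) - b • R g x) + κ • (N (Zl R u c g) - b • Zl R u c g) +
        κ • K (Yv R u c κ x g) := by
    rw [add_apply, smul_apply]
    unfold Yv
    simp only [map_add, map_smul, smul_add, smul_sub]
    rw [smul_comm b κ]
    abel
  rw [e1, h5, hN2]
  unfold Yv
  rw [smul_sub]
  abel

end

end Pool.Agent.N812.IS
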