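import Pool.Agent.R276.CP.Rs
import Pool.Agent.R276.CP.Had
import Pool.Agent.R276.CP.Pot

/-!
# Regularized determinants: bounds by the sums of `min b b²` over the columns

Adapted from `Pool.Agent.R276.CP.Up` and `Pool.Agent.R276.CP.Rs` (helpers 999, 515 and 276), where the bound is
the sum of the powers `b ^ p`, `1 ≤ p ≤ 2`.
-/

set_option autoImplicit false

namespace Pool.Agent.N812.IS

open MeasureTheory Set Metric Filter Topology Matrix
open Pool.Agent.R276.CP Pool.Agent.R276.CP.Rs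
open Pool.Agent.Y271.CO (Mx op res_formula op_apply)
open scoped InnerProductSpace ENNReal NNReal

/-- `min x x²` -/
noncomputable def ps (x : ℝ) : ℝ := min x (x ^ 2)

lemma ps_nonneg {x : ℝ} (hx : 0 ≤ x) : 0 ≤ ps x := le_min hx (sq_nonneg x)

lemma ps_of_le {x : ℝ} (hx : 0 ≤ x) (h : x ≤ 1) : ps x = x ^ 2 := by
  unfold ps
  rw [min_eq_right]
  nlinarith

lemma ps_of_ge {x : ℝ} (h : 1 ≤ x) : ps x = x := by
  unfold ps
  rw [min_eq_left]
  nlinarith

lemma ps_mono {x y : ℝ} (hx : 0 ≤ x) (h : x ≤ y) : ps x ≤ ps y := by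
  unfold ps
  exact min_le_min h (pow_le_pow_left₀ hx h 2)

lemma ps_mul {a x : ℝ} (ha : 0 ≤ a) (hx : 0 ≤ x) : ps (a * x) ≤ (a + a ^ 2) * ps x := by
  rcases le_total x 1 with h | h
  · rw [ps_of_le hx h]
    refine (min_le_right _ _).trans ?_
    nlinarith [mul_nonneg ha (sq_nonneg x)]
  · rw [ps_of_ge h]
    refine (min_le_left _ _).trans ?_
    nlinarith [mul_nonneg (sq_nonneg a) hx]

lemma ps_add {x y : ℝ} (hx : 0 ≤ x) (hy : 0 ≤ y) : ps (x + y) ≤ 4 * ps x + 4 * ps y := by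
  wlog h : y ≤ x generalizing x y
  · have := this hy hx (not_le.1 h).le
    rw [add_comm x y]
    linarith
  have h1 : ps (x + y) ≤ ps (2 * x) := ps_mono (by linarith) (by linarith)
  have h2 : ps (2 * x) ≤ 4 * ps x := by
    unfold ps
    rcases le_total x (x ^ 2) with h3 | h3
    · rw [min_eq_left h3]
      exact (min_le_left _ _).trans (by linarith)
    · rw [min_eq_right h3]
      exact (min_le_right _ _).trans (by nlinarith)
  have := ps_nonneg hy
  linarith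

theorem scalar_ps {x b : ℝ} (hx : |x| ≤ b) :
    (1 + 2 * x + 2 * b ^ 2) * Real.exp (-(2 * x)) ≤ Real.exp (6 * ps b) := by
  have hb : 0 ≤ b := (abs_nonneg x).trans hx
  rcases le_total b 1 with h | h
  · have := scalar2 (p := 2) hx (by norm_num) le_rfl
    rw [Real.rpow_two] at this
    rw [ps_of_le hb h]
    exact this
  · have := scalar2 (p := 1) hx le_rfl (by norm_num)
    rw [Real.rpow_one] at this
    rw [ps_of_ge h]
    exact this

theorem scalar_ps1 {x b : ℝ} (hx : |x| ≤ b) :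
    (1 + 2 * x + b ^ 2) * Real.exp (-(2 * x)) ≤ Real.exp (6 * ps b) := by
  refine le_trans (mul_le_mul_of_nonneg_right ?_ (Real.exp_pos _).le) (scalar_ps hx)
  nlinarith [sq_nonneg b]

/-- the upper bound -/
theorem up_ps {H : Type} [NormedAddCommGroup H] [InnerProductSpace ℂ H] (n : ℕ) (e u : Fin n → H)
    (R : H →L[ℂ] H) (κ : ℂ) (he : Orthonormal ℂ e) :
    ‖fd (Gm R e u) κ‖ ≤ Real.exp (3 * ∑ j, ps (‖κ‖ * ‖R (u j)‖)) := by
  have h : S_HAD := Had.main
  have hκ : ∀ i j, κ * Gm R e u i j = ⟪e i, κ • R (u j)⟫_ℂ := by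
    intro i j
    rw [inner_smul_right]
    rfl
  set b : Fin n → ℝ := fun j => ‖κ‖ * ‖R (u j)‖ with hb
  have hbw : ∀ j, ‖κ • R (u j)‖ = b j := fun j => norm_smul _ _
  have hg : ∀ j, |-(⟪e j, κ • R (u j)⟫_ℂ).re| ≤ b j := by
    intro j
    rw [abs_neg]
    refine (Complex.abs_re_le_norm _).trans ?_
    refine (norm_inner_le_norm _ _).trans ?_
    rw [he.1 j, one_mul, hbw]
  have hdet : ‖(1 - κ • Gm R e u).det‖ ^ 2 ≤
      ∏ j, (1 + 2 * (-(⟪e j, κ • R (u j)⟫_ℂ).re) + b j ^ 2) := by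
    refine (h (Fin n) _).trans ?_
    refine Finset.prod_le_prod (fun j _ => Finset.sum_nonneg fun i _ => by positivity)
      fun j _ => ?_
    have h1 := Up.col he (κ • R (u j)) j
    rw [hbw] at h1
    have h2 : ∀ i, (1 - κ • Gm R e u) i j =
        (1 : Matrix (Fin n) (Fin n) ℂ) i j - ⟪e i, κ • R (u j)⟫_ℂ := by
      intro i
      rw [Matrix.sub_apply, Matrix.smul_apply, smul_eq_mul, hκ]
    simp_rw [h2]
    linarith
  have hexp : ‖Complex.exp (κ * (Gm R e u).trace)‖ ^ 2 =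
      ∏ j, Real.exp (-(2 * (-(⟪e j, κ • R (u j)⟫_ℂ).re))) := by
    rw [Complex.norm_exp, ← Real.exp_nat_mul, ← Real.exp_sum]
    congr 1
    rw [Matrix.trace, Finset.mul_sum, Complex.re_sum, Finset.mul_sum]
    refine Finset.sum_congr rfl fun j _ => ?_
    rw [Matrix.diag_apply, hκ]
    push_cast
    ring
  have hsq : ‖fd (Gm R e u) κ‖ ^ 2 ≤ Real.exp (3 * ∑ j, ps (b j)) ^ 2 := by
    rw [fd, norm_mul, mul_pow, hexp]
    refine (mul_le_mul_of_nonneg_right hdet
      (Finset.prod_nonneg fun j _ => (Real.exp_pos _).le)).trans ?_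
    rw [← Finset.prod_mul_distrib, ← Real.exp_nat_mul]
    have h6 : ((2 : ℕ) : ℝ) * (3 * ∑ j, ps (b j)) = ∑ j, 6 * ps (b j) := by
      rw [← Finset.mul_sum]
      push_cast
      ring
    rw [h6, Real.exp_sum]
    refine Finset.prod_le_prod (fun j _ => ?_) fun j _ => scalar_ps1 (hg j)
    refine mul_nonneg ?_ (Real.exp_pos _).le
    have := (abs_le.1 (hg j))
    nlinarith [sq_nonneg (b j - 1), this.1]
  exact le_of_sq_le_sq hsq (Real.exp_pos _).le

/-- the bound for the resolvent -/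
theorem rs_ps {H : Type} [NormedAddCommGroup H] [InnerProductSpace ℂ H] [CompleteSpace H] (n : ℕ)
    (e u : Fin n → H) (A K : H →L[ℂ] H) (κ z : ℂ) (he : Orthonormal ℂ e)
    (hK : ∀ x, K x = ∑ j, ⟪e j, x⟫_ℂ • u j) (hz : z ∈ resolventSet ℂ A)
    (hfd : fd (Gm (resolvent A z) e u) κ ≠ 0) :
    z ∈ resolventSet ℂ (A + κ • K) ∧
      ‖resolvent (A + κ • K) z‖ * ‖fd (Gm (resolvent A z) e u) κ‖ ≤
        2 * ‖resolvent A z‖ * Real.exp (3 * ∑ j, ps (‖κ‖ * ‖resolvent A z (u j)‖)) := by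
  have h : S_HAD := Had.main
  have hKJ : K = (J u).comp (F e) := by
    ext x
    rw [ContinuousLinearMap.comp_apply, J_apply, hK]
    exact Finset.sum_congr rfl fun j _ => by rw [F_apply]
  have hdet : (1 - κ • Gm (resolvent A z) e u).det ≠ 0 := by
    intro h0
    exact hfd (by rw [fd, h0, zero_mul])
  obtain ⟨N, hN1, hN2⟩ : ∃ N, (1 - κ • Gm (resolvent A z) e u) * N = 1 ∧
      N * (1 - κ • Gm (resolvent A z) e u) = 1 :=
    ⟨_, Matrix.mul_nonsing_inv _ (isUnit_iff_ne_zero.2 hdet),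
      Matrix.nonsing_inv_mul _ (isUnit_iff_ne_zero.2 hdet)⟩
  have hres := res_formula A (F e) (J u) κ z hz N (by rw [Mx_eq]; exact hN1)
    (by rw [Mx_eq]; exact hN2)
  rw [← hKJ] at hres
  refine ⟨hres.1, ?_⟩
  set R := resolvent A z with hR
  set S := resolvent (A + κ • K) z with hS
  set b : Fin n → ℝ := fun j => ‖κ‖ * ‖R (u j)‖ with hb
  have hSx : ∀ x, S x = R x + κ • R (J u (op N (F e (R x)))) := by
    intro x
    rw [hres.2]
    rfl
  have hg : ∀ j, |-(⟪e j, κ • R (u j)⟫_ℂ).re| ≤ b j := by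
    intro j
    rw [abs_neg]
    refine (Complex.abs_re_le_norm _).trans ?_
    refine (norm_inner_le_norm _ _).trans ?_
    rw [he.1 j, one_mul, norm_smul]
  have hexp : ‖Complex.exp (κ * (Gm R e u).trace)‖ ^ 2 =
      ∏ j, Real.exp (-(2 * (-(⟪e j, κ • R (u j)⟫_ℂ).re))) := by
    rw [Complex.norm_exp, ← Real.exp_nat_mul, ← Real.exp_sum]
    congr 1
    rw [Matrix.trace, Finset.mul_sum, Complex.re_sum, Finset.mul_sum]
    refine Finset.sum_congr rfl fun j _ => ?_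
    rw [Matrix.diag_apply, inner_smul_right]
    push_cast
    simp only [Gm, Matrix.of_apply]
    ring
  have hpsb : ∀ j, 0 ≤ ps (b j) := fun j => ps_nonneg (by rw [hb]; positivity)
  have key : ∀ x f : H, ‖f‖ ≤ 1 → ‖fd (Gm R e u) κ‖ * ‖⟪f, S x⟫_ℂ‖ ≤
      2 * ‖R x‖ * Real.exp (3 * ∑ j, ps (b j)) := by
    intro x f hf
    have h1 := had h R (u := u) he κ x f hf
    rw [det_bord R e u κ x f N hN1 hN2, ← hSx, norm_mul, mul_pow] at h1
    have h2 : (‖fd (Gm R e u) κ‖ * ‖⟪f, S x⟫_ℂ‖) ^ 2 ≤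
        (2 * ‖R x‖ * Real.exp (3 * ∑ j, ps (b j))) ^ 2 := by
      have h3 : (‖fd (Gm R e u) κ‖ * ‖⟪f, S x⟫_ℂ‖) ^ 2 =
          (‖(1 - κ • Gm R e u).det‖ ^ 2 * ‖⟪f, S x⟫_ℂ‖ ^ 2) *
            ‖Complex.exp (κ * (Gm R e u).trace)‖ ^ 2 := by
        rw [fd, norm_mul]
        ring
      rw [h3, hexp]
      refine (mul_le_mul_of_nonneg_right h1
        (Finset.prod_nonneg fun j _ => (Real.exp_pos _).le)).trans ?_
      rw [mul_right_comm, ← Finset.prod_mul_distrib]
      have h4 : ∏ j, (1 + 2 * (-(⟪e j, κ • R (u j)⟫_ℂ).re) + 2 * (‖κ‖ * ‖R (u j)‖) ^ 2) *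
          Real.exp (-(2 * (-(⟪e j, κ • R (u j)⟫_ℂ).re))) ≤ ∏ j, Real.exp (6 * ps (b j)) := by
        refine Finset.prod_le_prod (fun j _ => ?_) fun j _ => scalar_ps (hg j)
        refine mul_nonneg ?_ (Real.exp_pos _).le
        have := (abs_le.1 (hg j))
        nlinarith [sq_nonneg (b j - 1), this.1]
      have h5 : ∏ j, Real.exp (6 * ps (b j)) = Real.exp (3 * ∑ j, ps (b j)) ^ 2 := by
        rw [← Real.exp_sum, ← Real.exp_nat_mul, ← Finset.mul_sum]
        congr 1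
        push_cast
        ring
      rw [h5] at h4
      refine (mul_le_mul_of_nonneg_right h4 (by positivity)).trans ?_
      nlinarith [sq_nonneg (Real.exp (3 * ∑ j, ps (b j)) * ‖R x‖)]
    exact le_of_sq_le_sq h2 (by positivity)
  have key2 : ∀ x, ‖(‖fd (Gm R e u) κ‖ : ℂ) • S x‖ ≤
      (2 * ‖R‖ * Real.exp (3 * ∑ j, ps (b j))) * ‖x‖ := by
    intro x
    have h1 : ‖R x‖ ≤ ‖R‖ * ‖x‖ := R.le_opNorm x
    have h2 : ‖fd (Gm R e u) κ‖ * ‖S x‖ ≤ 2 * ‖R x‖ * Real.exp (3 * ∑ j, ps (b j)) := by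
      by_cases h0 : S x = 0
      · rw [h0, norm_zero, mul_zero]
        positivity
      · have h3 : ‖S x‖ ≠ 0 := norm_ne_zero_iff.2 h0
        have h4 := key x ((‖S x‖⁻¹ : ℂ) • S x) (by
          rw [norm_smul, norm_inv, Complex.norm_real, norm_norm, inv_mul_cancel₀ h3])
        rw [inner_smul_left, inner_self_eq_norm_sq_to_K] at h4
        have h5 : ‖(starRingEnd ℂ) ((‖S x‖ : ℂ)⁻¹) * ((‖S x‖ : ℂ)) ^ 2‖ = ‖S x‖ := by
          rw [norm_mul, RCLike.norm_conj, norm_inv, norm_pow, Complex.norm_real, norm_norm, sq,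
            ← mul_assoc, inv_mul_cancel₀ h3, one_mul]
        exact (h5 ▸ h4)
    rw [norm_smul, Complex.norm_real, norm_norm]
    refine h2.trans ?_
    have h3 := mul_le_mul_of_nonneg_right (mul_le_mul_of_nonneg_left h1 (zero_le_two (α := ℝ)))
      (Real.exp_pos (3 * ∑ j, ps (b j))).le
    linarith
  have key3 := ContinuousLinearMap.opNorm_le_bound ((‖fd (Gm R e u) κ‖ : ℂ) • S)
    (by positivity) key2
  rw [norm_smul, Complex.norm_real, norm_norm] at key3
  linarith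

end Pool.Agent.N812.IS
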