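import Pool.Agent.N812.IS.Hf
import Pool.Agent.Y891.NK.AREA

/-!
# Measures on the set of the coupling constants, the adjoint on a Hilbert space
-/

set_option autoImplicit false

namespace Pool.Agent.N812.IS

open MeasureTheory Set Metric Filter Topology
open Pool.Agent.R276.CP
open Pool.Agent.R277.SP
open Pool.Agent.Y283.NK (HasHyp)
open scoped InnerProductSpace ENNReal NNReal ComplexConjugate

/-- bounded potentials -/
lemma logbd_of {m : Measure ℂ} (h0 : ∀ s : ℂ, m {s} = 0)
    (hm : ∀ R : ℝ, m (ball (0:ℂ) R) ≠ ⊤ ∧ ∃ C : ℝ≥0, ∀ s : ℂ,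
      ∫⁻ t in ball (0:ℂ) R, ENNReal.ofReal (Real.posLog ‖t - s‖⁻¹) ∂m ≤ C) : LogBd m := by
  intro R
  obtain ⟨h1, C, hC⟩ := hm R
  refine ⟨C + (m (ball (0:ℂ) R)).toNNReal, ?_, fun s => ?_⟩
  · rw [ENNReal.coe_add, ENNReal.coe_toNNReal h1]
    exact le_add_self
  · calc ∫⁻ t in ball (0:ℂ) R, Pool.Agent.R276.CP.lm ‖t - s‖ ∂m
        = ∫⁻ t in ball (0:ℂ) R, ENNReal.ofReal (Real.posLog ‖t - s‖⁻¹) ∂m := by
          refine lintegral_congr_ae (ae_restrict_of_ae ?_)
          have h2 : ∀ᵐ t ∂m, t ≠ s := by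
            rw [ae_iff]
            simpa using h0 s
          filter_upwards [h2] with t ht
          unfold Pool.Agent.R276.CP.lm
          rw [if_neg (by simpa [sub_eq_zero] using ht)]
      _ ≤ C := hC s
      _ ≤ _ := by rw [ENNReal.coe_add]; exact le_self_add

theorem three {P : ℂ → Prop} (h : ∀ m : Measure ℂ, LogBd m → ∀ᵐ t ∂m, P t) :
    (∀ᵐ t : ℂ, P t) ∧ (∀ᵐ t : ℝ, P (t : ℂ)) := by
  refine ⟨h volume Pool.Agent.Y891.NK.main_vol.1, ?_⟩
  have h1 := h (Measure.map (fun t : ℝ => (t : ℂ)) volume) Pool.Agent.Y891.NK.main_vol.2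
  exact ae_of_ae_map Complex.continuous_ofReal.measurable.aemeasurable h1

/-- local spectra of the Hilbert space adjoint -/
theorem locv_adj {H : Type} [NormedAddCommGroup H] [InnerProductSpace ℂ H] [CompleteSpace H]
    {T : H →L[ℂ] H} (h : LocV (ad T)) : LocV (ContinuousLinearMap.adjoint T) := by
  intro c hc ε hε
  have h1 : conj c ∈ spectrum ℂ T := by
    rw [← ContinuousLinearMap.star_eq_adjoint, spectrum.map_star] at hc
    exact hc
  obtain ⟨y, C, hy0, hy⟩ := h (conj c) (spec_ad h1) ε hε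
  set w : H := (InnerProductSpace.toDual ℂ H).symm y with hw
  have hyw : y = InnerProductSpace.toDual ℂ H w := by
    rw [hw, LinearIsometryEquiv.apply_symm_apply]
  refine ⟨w, C, ?_, fun n => ?_⟩
  · intro h0
    apply hy0
    rw [hyw, h0, map_zero]
  · have key : ∀ n : ℕ, ((ad T - conj c • (1 : (H →L[ℂ] ℂ) →L[ℂ] (H →L[ℂ] ℂ))) ^ n)
        (InnerProductSpace.toDual ℂ H w) = InnerProductSpace.toDual ℂ H
        (((ContinuousLinearMap.adjoint T - c • (1 : H →L[ℂ] H)) ^ n) w) := by
      intro n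
      induction n with
      | zero => rfl
      | succ n ih =>
        rw [pow_succ', pow_succ']
        show (ad T - conj c • (1 : (H →L[ℂ] ℂ) →L[ℂ] (H →L[ℂ] ℂ)))
          (((ad T - conj c • (1 : (H →L[ℂ] ℂ) →L[ℂ] (H →L[ℂ] ℂ))) ^ n)
            (InnerProductSpace.toDual ℂ H w)) = _
        rw [ih]
        ext x
        show ⟪((ContinuousLinearMap.adjoint T - c • (1 : H →L[ℂ] H)) ^ n) w, T x⟫_ℂ -
          conj c * ⟪((ContinuousLinearMap.adjoint T - c • (1 : H →L[ℂ] H)) ^ n) w, x⟫_ℂ =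
          ⟪ContinuousLinearMap.adjoint T
            (((ContinuousLinearMap.adjoint T - c • (1 : H →L[ℂ] H)) ^ n) w) -
            c • (((ContinuousLinearMap.adjoint T - c • (1 : H →L[ℂ] H)) ^ n) w), x⟫_ℂ
        rw [inner_sub_left, inner_smul_left, ContinuousLinearMap.adjoint_inner_left]
    have h2 := hy n
    rw [hyw, key n, LinearIsometryEquiv.norm_map] at h2
    exact h2

/-- powers dominate the logarithm -/
lemma pow_log {s : ℕ → ℝ} (hs : ∀ j, 0 ≤ s j) {p q : ℝ} (hp : 0 < p) (hpq : p < q)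
    (h : Summable fun j => s j ^ p) : Summable fun j => s j ^ q * (1 + |Real.log (s j)|) := by
  have h0 : Tendsto (fun j => s j ^ p) atTop (𝓝 0) := h.tendsto_atTop_zero
  have h1 : ∀ᶠ j in atTop, s j ^ p < 1 := h0.eventually_lt_const one_pos
  obtain ⟨n, hn⟩ := eventually_atTop.1 h1
  rw [← summable_nat_add_iff n]
  have h2 : Summable fun j => (1 + (q - p)⁻¹) * s (j + n) ^ p :=
    ((summable_nat_add_iff n).2 h).mul_left _
  refine Summable.of_nonneg_of_le (fun j => by
    have := hs (j + n)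
    positivity) (fun j => ?_) h2
  have hsj := hs (j + n)
  rcases hsj.eq_or_lt with h3 | h3
  · rw [← h3, Real.zero_rpow (by linarith : q ≠ 0), zero_mul]
    have : (0 : ℝ) ≤ (0 : ℝ) ^ p := Real.rpow_nonneg le_rfl p
    have : 0 < q - p := by linarith
    positivity
  · have h4 := hn (j + n) (Nat.le_add_left n j)
    have h5 : s (j + n) < 1 := by
      by_contra hcon
      push Not at hcon
      have := Real.one_le_rpow hcon hp.le
      linarith
    set x := s (j + n) with hx
    have hqp : 0 < q - p := by linarith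
    have h6 : x ^ q = x ^ p * x ^ (q - p) := by
      rw [← Real.rpow_add h3]
      congr 1
      ring
    have h7 : x ^ (q - p) ≤ 1 := Real.rpow_le_one h3.le h5.le hqp.le
    have h8 : x ^ (q - p) * |Real.log x| ≤ (q - p)⁻¹ := by
      have h9 : Real.log x < 0 := Real.log_neg h3 h5
      rw [abs_of_neg h9]
      have h10 : Real.log (x⁻¹ ^ (q - p)) ≤ x⁻¹ ^ (q - p) - 1 :=
        Real.log_le_sub_one_of_pos (by positivity)
      rw [Real.log_rpow (by positivity), Real.log_inv] at h10
      have h11 : x⁻¹ ^ (q - p) = (x ^ (q - p))⁻¹ := Real.inv_rpow h3.le _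
      rw [h11] at h10
      have h12 : 0 < x ^ (q - p) := by positivity
      have h13 : (q - p) * (x ^ (q - p) * -Real.log x) ≤ 1 := by
        calc (q - p) * (x ^ (q - p) * -Real.log x) = x ^ (q - p) * ((q - p) * -Real.log x) := by ring
          _ ≤ x ^ (q - p) * ((x ^ (q - p))⁻¹ - 1) := mul_le_mul_of_nonneg_left h10 h12.le
          _ = 1 - x ^ (q - p) := by field_simp
          _ ≤ 1 := by linarith
      rw [← one_div, le_div_iff₀ hqp]
      linarith
    rw [h6]
    have h14 : 0 ≤ x ^ p := by positivity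
    calc x ^ p * x ^ (q - p) * (1 + |Real.log x|) =
          x ^ p * (x ^ (q - p) + x ^ (q - p) * |Real.log x|) := by ring
      _ ≤ x ^ p * (1 + (q - p)⁻¹) := mul_le_mul_of_nonneg_left (add_le_add h7 h8) h14
      _ = _ := mul_comm _ _

end Pool.Agent.N812.IS
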