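import Pool.Agent.N812.IS.Det
import Pool.Agent.R276.CP.Fat

/-!
# Infinite matrices depending on a parameter: the inverse of `1 - κ F(z)` for almost every `κ`
-/

set_option autoImplicit false

namespace Pool.Agent.N812.IS

open MeasureTheory Set Metric Filter Topology
open Pool.Agent.R276.CP Pool.Agent.R276.CP.Fat
open scoped InnerProductSpace ENNReal NNReal

/-- square summable sequences -/
abbrev l2 : Type := lp (fun _ : ℕ => ℂ) 2

/-- the unit vectors -/
noncomputable def ee (j : ℕ) : l2 := lp.single 2 j (1 : ℂ)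

lemma ee_apply (j i : ℕ) : (ee j : ℕ → ℂ) i = if i = j then 1 else 0 := by
  rw [ee, lp.single_apply, Pi.single_apply]

lemma inner_ee (j : ℕ) (x : l2) : ⟪ee j, x⟫_ℂ = (x : ℕ → ℂ) j := by
  rw [ee, lp.inner_single_left]
  simp

lemma ee_orth : Orthonormal ℂ ee := by
  rw [orthonormal_iff_ite]
  intro i j
  rw [inner_ee, ee_apply]

lemma norm_sq_l2 (x : l2) : ‖x‖ ^ 2 = ∑' i, ‖(x : ℕ → ℂ) i‖ ^ 2 := by
  have := lp.norm_rpow_eq_tsum (p := 2) (by norm_num) x
  simpa using this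

lemma summable_l2 (x : l2) : Summable fun i => ‖(x : ℕ → ℂ) i‖ ^ 2 := by
  have := (lp.memℓp x).summable (p := 2) (by norm_num)
  simpa using this

/-- the vector with given coordinates (zero if they are not square summable) -/
noncomputable def vec (a : ℕ → ℂ) : l2 := by
  classical
  exact if h : Memℓp a 2 then ⟨a, h⟩ else 0

lemma memlp_iff (a : ℕ → ℂ) : Memℓp a 2 ↔ Summable fun i => ‖a i‖ ^ 2 := by
  constructor
  · intro h
    have := h.summable (p := 2) (by norm_num)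
    simpa using this
  · intro h
    apply memℓp_gen
    simpa using h

lemma vec_apply {a : ℕ → ℂ} (h : Summable fun i => ‖a i‖ ^ 2) (i : ℕ) : (vec a : ℕ → ℂ) i = a i := by
  unfold vec
  rw [dif_pos ((memlp_iff a).2 h)]

/-- truncations -/
noncomputable def tr (a : ℕ → ℂ) (n : ℕ) : l2 := ∑ i ∈ Finset.range n, a i • ee i

lemma tr_tendsto {a : ℕ → ℂ} (h : Summable fun i => ‖a i‖ ^ 2) :
    Tendsto (tr a) atTop (𝓝 (vec a)) := by
  have h1 := lp.hasSum_single (p := 2) (by norm_num) (vec a)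
  have h2 := h1.tendsto_sum_nat
  refine h2.congr fun n => ?_
  unfold tr
  refine Finset.sum_congr rfl fun i _ => ?_
  rw [vec_apply h]
  ext k
  rw [lp.single_apply, lp.coeFn_smul, Pi.smul_apply, ee_apply, Pi.single_apply]
  split_ifs <;> simp

lemma vec_meas {a : ℂ → ℕ → ℂ} (ha : ∀ i, Measurable fun z => a z i) :
    StronglyMeasurable fun z => vec (a z) := by
  classical
  set S : Set ℂ := {z | ∑' i, ENNReal.ofReal (‖a z i‖ ^ 2) ≠ ⊤} with hS
  have hSm : MeasurableSet S := by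
    have h1 : Measurable fun z => ∑' i, ENNReal.ofReal (‖a z i‖ ^ 2) :=
      Measurable.tsum fun i => ((ha i).norm.pow_const 2).ennreal_ofReal
    exact (measurableSet_eq_fun h1 measurable_const).compl
  have hSs : ∀ z, z ∈ S ↔ Summable fun i => ‖a z i‖ ^ 2 := by
    intro z
    constructor
    · intro hz
      have h1 := ENNReal.summable_toReal hz
      refine h1.congr fun i => ?_
      rw [ENNReal.toReal_ofReal (by positivity)]
    · intro hz
      show _ ≠ ⊤
      rw [← ENNReal.ofReal_tsum_of_nonneg (fun i => by positivity) hz]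
      exact ENNReal.ofReal_ne_top
  refine stronglyMeasurable_of_tendsto atTop (f := fun n => S.indicator fun z => tr (a z) n)
    (fun n => ?_) ?_
  · refine StronglyMeasurable.indicator ?_ hSm
    unfold tr
    exact Finset.stronglyMeasurable_fun_sum _ fun i _ =>
      (ha i).stronglyMeasurable.smul_const _
  · rw [tendsto_pi_nhds]
    intro z
    by_cases hz : z ∈ S
    · simp only [indicator_of_mem hz]
      exact tr_tendsto ((hSs z).1 hz)
    · simp only [indicator_of_notMem hz]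
      have : vec (a z) = 0 := by
        unfold vec
        rw [dif_neg]
        rw [memlp_iff, ← hSs]
        exact hz
      rw [this]
      exact tendsto_const_nhds

/-! ### operators with given columns -/

/-- one column -/
noncomputable def col1 (j : ℕ) (u : l2) : l2 →L[ℂ] l2 := (innerSL ℂ (ee j)).smulRight u

lemma col1_apply (j : ℕ) (u x : l2) : col1 j u x = (x : ℕ → ℂ) j • u := by
  unfold col1
  rw [ContinuousLinearMap.smulRight_apply, innerSL_apply_apply, inner_ee]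

lemma colsum_bound (u : ℕ → l2) (S : Finset ℕ) :
    ‖∑ j ∈ S, col1 j (u j)‖ ≤ Real.sqrt (∑ j ∈ S, ‖u j‖ ^ 2) := by
  refine ContinuousLinearMap.opNorm_le_bound _ (Real.sqrt_nonneg _) fun x => ?_
  rw [_root_.sum_apply]
  simp only [col1_apply]
  calc ‖∑ j ∈ S, (x : ℕ → ℂ) j • u j‖ ≤ ∑ j ∈ S, ‖(x : ℕ → ℂ) j‖ * ‖u j‖ := by
        refine (norm_sum_le _ _).trans (Finset.sum_le_sum fun j _ => ?_)
        rw [norm_smul]
    _ ≤ Real.sqrt (∑ j ∈ S, ‖(x : ℕ → ℂ) j‖ ^ 2) * Real.sqrt (∑ j ∈ S, ‖u j‖ ^ 2) :=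
        Real.sum_mul_le_sqrt_mul_sqrt _ _ _
    _ ≤ ‖x‖ * Real.sqrt (∑ j ∈ S, ‖u j‖ ^ 2) := by
        refine mul_le_mul_of_nonneg_right ?_ (Real.sqrt_nonneg _)
        refine Real.sqrt_le_iff.2 ⟨norm_nonneg _, ?_⟩
        rw [norm_sq_l2]
        exact (summable_l2 x).sum_le_tsum _ fun i _ => by positivity
    _ = _ := mul_comm _ _

lemma colsum_summable {u : ℕ → l2} (hu : Summable fun j => ‖u j‖ ^ 2) :
    Summable fun j => col1 j (u j) := by
  rw [summable_iff_vanishing_norm]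
  intro ε hε
  obtain ⟨s, hs⟩ := summable_iff_vanishing_norm.1 hu (ε ^ 2) (by positivity)
  refine ⟨s, fun t ht => ?_⟩
  refine (colsum_bound u t).trans_lt ?_
  have h1 := hs t ht
  rw [Real.norm_of_nonneg (Finset.sum_nonneg fun j _ => by positivity)] at h1
  rw [Real.sqrt_lt' hε]
  exact h1

/-! ### the matrix `F(z)` -/

/-- the columns of the matrix -/
noncomputable def cv (F : ℕ → ℕ → ℂ → ℂ) (z : ℂ) (j : ℕ) : l2 := vec fun i => F i j z

/-- the sections -/
noncomputable def Tn (F : ℕ → ℕ → ℂ → ℂ) (n : ℕ) (z : ℂ) : l2 →L[ℂ] l2 :=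
  ∑ j ∈ Finset.range n, col1 j (cv F z j)

/-- the operator -/
noncomputable def Top (F : ℕ → ℕ → ℂ → ℂ) (z : ℂ) : l2 →L[ℂ] l2 := ∑' j, col1 j (cv F z j)

/-- the sum over all entries -/
noncomputable def Xi (F : ℕ → ℕ → ℂ → ℂ) (z : ℂ) : ℝ≥0∞ :=
  ∑' j, ∑' i, ENNReal.ofReal (ps ‖F i j z‖)

lemma cv_meas {F : ℕ → ℕ → ℂ → ℂ} (hF : ∀ i j, Measurable (F i j)) (j : ℕ) :
    StronglyMeasurable fun z => cv F z j :=
  vec_meas fun i => hF i j

lemma col1_cont (j : ℕ) : Continuous (col1 j) := by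
  have : col1 j = fun u => ContinuousLinearMap.smulRightL ℂ l2 l2 (innerSL ℂ (ee j)) u := by
    funext u
    rfl
  rw [this]
  exact (ContinuousLinearMap.smulRightL ℂ l2 l2 (innerSL ℂ (ee j))).continuous

lemma Tn_meas {F : ℕ → ℕ → ℂ → ℂ} (hF : ∀ i j, Measurable (F i j)) (n : ℕ) :
    StronglyMeasurable (Tn F n) := by
  unfold Tn
  exact Finset.stronglyMeasurable_fun_sum _ fun j _ =>
    (col1_cont j).comp_stronglyMeasurable (cv_meas hF j)

/-- sequences with finite `ps`-sum are square summable, and the `ps` of the norm is bounded -/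
lemma ps_seq {a : ℕ → ℂ} (h : ∑' i, ENNReal.ofReal (ps ‖a i‖) ≠ ⊤) :
    (Summable fun i => ‖a i‖ ^ 2) ∧
      ENNReal.ofReal (ps ‖vec a‖) ≤ 2 * ∑' i, ENNReal.ofReal (ps ‖a i‖) := by
  have h1 : Summable fun i => ps ‖a i‖ := by
    refine (ENNReal.summable_toReal h).congr fun i => ?_
    rw [ENNReal.toReal_ofReal (ps_nonneg (norm_nonneg _))]
  -- small and large entries
  set S : ℕ → ℝ := fun i => if ‖a i‖ ≤ 1 then ‖a i‖ ^ 2 else 0 with hS
  set L : ℕ → ℝ := fun i => if ‖a i‖ ≤ 1 then 0 else ‖a i‖ with hL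
  have hSL : ∀ i, ps ‖a i‖ = S i + L i := by
    intro i
    simp only [hS, hL]
    split_ifs with h2
    · rw [ps_of_le (norm_nonneg _) h2, add_zero]
    · rw [ps_of_ge (not_le.1 h2).le, zero_add]
  have hS0 : ∀ i, 0 ≤ S i := by
    intro i
    simp only [hS]
    split_ifs <;> positivity
  have hL0 : ∀ i, 0 ≤ L i := by
    intro i
    simp only [hL]
    split_ifs <;> positivity
  have hSs : Summable S := h1.of_nonneg_of_le hS0 fun i => by rw [hSL]; linarith [hL0 i]
  have hLs : Summable L := h1.of_nonneg_of_le hL0 fun i => by rw [hSL]; linarith [hS0 i]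
  have hsum : ∑' i, ps ‖a i‖ = ∑' i, S i + ∑' i, L i := by
    rw [← hSs.tsum_add hLs]
    exact tsum_congr hSL
  have hsq : ∀ s : Finset ℕ, ∑ i ∈ s, ‖a i‖ ^ 2 ≤ ∑' i, S i + (∑' i, L i) ^ 2 := by
    intro s
    have h2 : ∀ i, ‖a i‖ ^ 2 = S i + L i ^ 2 := by
      intro i
      simp only [hS, hL]
      split_ifs <;> simp
    simp_rw [h2]
    rw [Finset.sum_add_distrib]
    refine add_le_add (hSs.sum_le_tsum _ fun i _ => hS0 i) ?_
    calc ∑ i ∈ s, L i ^ 2 ≤ (∑ i ∈ s, L i) ^ 2 := Finset.sum_sq_le_sq_sum_of_nonneg fun i _ => hL0 i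
      _ ≤ (∑' i, L i) ^ 2 :=
        pow_le_pow_left₀ (Finset.sum_nonneg fun i _ => hL0 i) (hLs.sum_le_tsum _ fun i _ => hL0 i) 2
  have hsqs : Summable fun i => ‖a i‖ ^ 2 :=
    summable_of_sum_le (fun i => by positivity) hsq
  refine ⟨hsqs, ?_⟩
  have hn : ‖vec a‖ ^ 2 ≤ ∑' i, S i + (∑' i, L i) ^ 2 := by
    rw [norm_sq_l2]
    have : ∀ i, ‖(vec a : ℕ → ℂ) i‖ ^ 2 = ‖a i‖ ^ 2 := fun i => by rw [vec_apply hsqs]
    simp_rw [this]
    exact hsqs.tsum_le_of_sum_le hsq
  have h22 : ∀ x : ℝ, (2 : ℝ≥0∞) * ENNReal.ofReal x = ENNReal.ofReal (2 * x) := by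
    intro x
    rw [ENNReal.ofReal_mul (by norm_num)]
    simp
  rw [← ENNReal.ofReal_tsum_of_nonneg (fun i => ps_nonneg (norm_nonneg _)) h1, h22]
  refine ENNReal.ofReal_le_ofReal ?_
  rw [hsum]
  have hs0 : 0 ≤ ∑' i, S i := tsum_nonneg hS0
  have hl0 : 0 ≤ ∑' i, L i := tsum_nonneg hL0
  rcases le_total ((∑' i, L i) ^ 2) (∑' i, S i) with h3 | h3
  · refine (min_le_right _ _).trans ?_
    linarith
  · refine (min_le_left _ _).trans ?_
    have h4 : ‖vec a‖ ^ 2 ≤ (2 * (∑' i, S i + ∑' i, L i)) ^ 2 := by nlinarith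
    exact le_of_sq_le_sq h4 (by positivity)

end Pool.Agent.N812.IS
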