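import Pool.Agent.N812.IS.Gen

/-!
# Infinite matrices depending on a parameter: the inverse of `1 - κ F(z)` for almost every `κ`, 2

The argument follows `Pool.Agent.R276.CP.Fat` (helper 973).
-/

set_option autoImplicit false

namespace Pool.Agent.N812.IS

open MeasureTheory Set Metric Filter Topology
open Pool.Agent.R276.CP Pool.Agent.R276.CP.Fat
open scoped InnerProductSpace ENNReal NNReal

/-- the sum over the first columns -/
noncomputable def Sn (F : ℕ → ℕ → ℂ → ℂ) (n : ℕ) (z : ℂ) : ℝ≥0∞ :=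
  ∑ j ∈ Finset.range n, ENNReal.ofReal (ps ‖cv F z j‖)

lemma ps_meas : Measurable ps := by
  unfold ps
  exact measurable_id.min (measurable_id.pow_const 2)

lemma Sn_meas {F : ℕ → ℕ → ℂ → ℂ} (hF : ∀ i j, Measurable (F i j)) (n : ℕ) :
    Measurable (Sn F n) := by
  unfold Sn
  refine Finset.measurable_sum _ fun j _ => ?_
  exact (ps_meas.comp (cv_meas hF j).norm.measurable).ennreal_ofReal

lemma Xi_meas {F : ℕ → ℕ → ℂ → ℂ} (hF : ∀ i j, Measurable (F i j)) : Measurable (Xi F) := by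
  unfold Xi
  exact Measurable.tsum fun j => Measurable.tsum fun i =>
    (ps_meas.comp (hF i j).norm).ennreal_ofReal

lemma col_fin {F : ℕ → ℕ → ℂ → ℂ} {z : ℂ} (hz : Xi F z ≠ ⊤) (j : ℕ) :
    ∑' i, ENNReal.ofReal (ps ‖F i j z‖) ≠ ⊤ :=
  ne_top_of_le_ne_top hz (ENNReal.le_tsum j)

lemma Sn_le {F : ℕ → ℕ → ℂ → ℂ} {z : ℂ} (hz : Xi F z ≠ ⊤) (n : ℕ) : Sn F n z ≤ 2 * Xi F z := by
  unfold Sn
  calc ∑ j ∈ Finset.range n, ENNReal.ofReal (ps ‖cv F z j‖)
      ≤ ∑ j ∈ Finset.range n, 2 * ∑' i, ENNReal.ofReal (ps ‖F i j z‖) :=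
        Finset.sum_le_sum fun j _ => (ps_seq (col_fin hz j)).2
    _ = 2 * ∑ j ∈ Finset.range n, ∑' i, ENNReal.ofReal (ps ‖F i j z‖) := by
        rw [Finset.mul_sum]
    _ ≤ _ := mul_le_mul' le_rfl (ENNReal.sum_le_tsum _)

/-- the columns are square summable -/
lemma cv_summable {F : ℕ → ℕ → ℂ → ℂ} {z : ℂ} (hz : Xi F z ≠ ⊤) :
    Summable fun j => ‖cv F z j‖ ^ 2 := by
  set G : ℕ → ℂ := fun j => (‖cv F z j‖ : ℂ) with hG
  have h1 : ∑' j, ENNReal.ofReal (ps ‖G j‖) ≠ ⊤ := by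
    refine ne_top_of_le_ne_top (b := 2 * Xi F z) (ENNReal.mul_ne_top (by simp) hz) ?_
    rw [Xi, ← ENNReal.tsum_mul_left]
    refine ENNReal.tsum_le_tsum fun j => ?_
    simp only [hG, Complex.norm_real, norm_norm]
    exact (ps_seq (col_fin hz j)).2
  refine (ps_seq h1).1.congr fun j => ?_
  simp only [hG, Complex.norm_real, norm_norm]

lemma Tn_tendsto {F : ℕ → ℕ → ℂ → ℂ} {z : ℂ} (hz : Xi F z ≠ ⊤) :
    Tendsto (fun n => Tn F n z) atTop (𝓝 (Top F z)) :=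
  (colsum_summable (cv_summable hz)).hasSum.tendsto_sum_nat

lemma Top_meas {F : ℕ → ℕ → ℂ → ℂ} (hF : ∀ i j, Measurable (F i j)) (hX : ∀ z, Xi F z ≠ ⊤) :
    StronglyMeasurable (Top F) :=
  stronglyMeasurable_of_tendsto atTop (Tn_meas hF) (tendsto_pi_nhds.2 fun z => Tn_tendsto (hX z))

lemma Top_apply {F : ℕ → ℕ → ℂ → ℂ} {z : ℂ} (hz : Xi F z ≠ ⊤) (c : l2) (i : ℕ) :
    HasSum (fun j => F i j z * (c : ℕ → ℂ) j) ((Top F z c : ℕ → ℂ) i) := by
  have h1 := (colsum_summable (cv_summable hz)).hasSum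
  have h3 := h1.mapL ((innerSL ℂ (ee i)).comp (ContinuousLinearMap.apply ℂ l2 c))
  have e1 : ∀ A : l2 →L[ℂ] l2, ((innerSL ℂ (ee i)).comp (ContinuousLinearMap.apply ℂ l2 c)) A =
      (A c : ℕ → ℂ) i := fun A => by
    rw [ContinuousLinearMap.comp_apply, ContinuousLinearMap.apply_apply, innerSL_apply_apply,
      inner_ee]
  rw [e1] at h3
  have e2 : (fun j => ((innerSL ℂ (ee i)).comp (ContinuousLinearMap.apply ℂ l2 c))
      (col1 j (cv F z j))) = fun j => F i j z * (c : ℕ → ℂ) j := by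
    funext j
    rw [e1, col1_apply, lp.coeFn_smul, Pi.smul_apply, cv, vec_apply (ps_seq (col_fin hz j)).1,
      smul_eq_mul, mul_comm]
  rwa [e2] at h3

/-- the first bound -/
noncomputable def Phi (F : ℕ → ℕ → ℂ → ℂ) (n : ℕ) (r : ℝ) (q : ℂ × ℂ) : ℝ≥0∞ :=
  (1 + ENNReal.ofReal (3 * (r + r ^ 2)) * Sn F n q.1) +
    lm ‖fd (Gm (1 : l2 →L[ℂ] l2) (fun j : Fin n => ee j) (fun j : Fin n => cv F q.1 j)) q.2‖

lemma res_zero : resolvent (0 : l2 →L[ℂ] l2) (1 : ℂ) = 1 := by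
  rw [resolvent, map_one, sub_zero, Ring.inverse_one]

lemma norm_one_le : ‖(1 : l2 →L[ℂ] l2)‖ ≤ 1 :=
  ContinuousLinearMap.opNorm_le_bound _ zero_le_one fun x => by simp

theorem phi_le (F : ℕ → ℕ → ℂ → ℂ) (n : ℕ) {r c : ℝ} {κ z : ℂ} (hκ : ‖κ‖ < r)
    (h : Phi F n r (z, κ) ≤ ENNReal.ofReal c) :
    (1 : ℂ) ∈ resolventSet ℂ (κ • Tn F n z) ∧ ‖resolvent (κ • Tn F n z) (1 : ℂ)‖ ≤ Real.exp c := by
  have hr : 0 ≤ r := (norm_nonneg κ).trans hκ.le
  set e : Fin n → l2 := fun j => ee j with he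
  set u : Fin n → l2 := fun j => cv F z j with hu
  have heo : Orthonormal ℂ e := ee_orth.comp _ Fin.val_injective
  unfold Phi at h
  have hf : fd (Gm (1 : l2 →L[ℂ] l2) e u) κ ≠ 0 := by
    intro h0
    simp only [← he, ← hu, h0] at h
    rw [norm_zero] at h
    unfold lm at h
    simp at h
  have hK : ∀ x, Tn F n z x = ∑ j, ⟪e j, x⟫_ℂ • u j := by
    intro x
    unfold Tn
    rw [_root_.sum_apply, Finset.sum_range]
    refine Finset.sum_congr rfl fun j _ => ?_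
    rw [col1_apply, he, inner_ee]
  have h1z : (1 : ℂ) ∈ resolventSet ℂ (0 : l2 →L[ℂ] l2) := by
    rw [spectrum.mem_resolventSet_iff, map_one, sub_zero]
    exact isUnit_one
  obtain ⟨h1, h2⟩ := rs_ps n e u 0 (Tn F n z) κ 1 heo hK h1z (by rwa [res_zero])
  rw [zero_add] at h1 h2
  rw [res_zero] at h2
  refine ⟨h1, ?_⟩
  have hf' : 0 < ‖fd (Gm (1 : l2 →L[ℂ] l2) e u) κ‖ := norm_pos_iff.2 hf
  set N := ‖fd (Gm (1 : l2 →L[ℂ] l2) e u) κ‖ with hN
  have hSn : Sn F n z = ENNReal.ofReal (∑ j, ps ‖u j‖) := by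
    unfold Sn
    rw [Finset.sum_range, ENNReal.ofReal_sum_of_nonneg fun j _ => ps_nonneg (norm_nonneg _)]
  have hbn : 0 ≤ ∑ j, ps ‖u j‖ := Finset.sum_nonneg fun j _ => ps_nonneg (norm_nonneg _)
  have hle : 1 + 3 * (r + r ^ 2) * ∑ j, ps ‖u j‖ + Real.posLog N⁻¹ ≤ c := by
    have e0 : lm N = ENNReal.ofReal (Real.posLog N⁻¹) := by
      unfold lm
      rw [if_neg hf'.ne']
    simp only [← he, ← hu, ← hN] at h
    rw [e0, hSn, ← ENNReal.ofReal_one, ← ENNReal.ofReal_mul (by positivity),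
      ← ENNReal.ofReal_add zero_le_one (by positivity),
      ← ENNReal.ofReal_add (by positivity) Real.posLog_nonneg] at h
    rcases ENNReal.ofReal_le_ofReal_iff'.1 h with h3 | h3
    · exact h3
    · exfalso
      have h5 := Real.posLog_nonneg (x := N⁻¹)
      have h6 : 0 ≤ 3 * (r + r ^ 2) * ∑ j, ps ‖u j‖ := by positivity
      linarith
  have hsum : ∑ j, ps (‖κ‖ * ‖(1 : l2 →L[ℂ] l2) (u j)‖) ≤ (r + r ^ 2) * ∑ j, ps ‖u j‖ := by
    rw [Finset.mul_sum]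
    apply Finset.sum_le_sum
    intro j _
    refine (ps_mul (norm_nonneg _) (norm_nonneg _)).trans ?_
    refine mul_le_mul_of_nonneg_right ?_ (ps_nonneg (norm_nonneg _))
    have := norm_nonneg κ
    nlinarith
  have h3 : ‖resolvent (κ • Tn F n z) (1 : ℂ)‖ ≤
      2 * 1 * Real.exp (3 * ∑ j, ps (‖κ‖ * ‖(1 : l2 →L[ℂ] l2) (u j)‖)) * N⁻¹ := by
    rw [← div_eq_mul_inv, le_div_iff₀ hf']
    refine h2.trans ?_
    gcongr
    exact norm_one_le
  calc ‖resolvent (κ • Tn F n z) (1 : ℂ)‖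
      ≤ 2 * 1 * Real.exp (3 * ∑ j, ps (‖κ‖ * ‖(1 : l2 →L[ℂ] l2) (u j)‖)) * N⁻¹ := h3
    _ ≤ Real.exp 1 * Real.exp (3 * (r + r ^ 2) * ∑ j, ps ‖u j‖) * Real.exp (Real.posLog N⁻¹) := by
        have h4 : (2 : ℝ) ≤ Real.exp 1 := by
          have := Real.add_one_le_exp (1 : ℝ)
          linarith
        have h6 := le_exp_posLog N⁻¹
        have h7 : Real.exp (3 * ∑ j, ps (‖κ‖ * ‖(1 : l2 →L[ℂ] l2) (u j)‖)) ≤
            Real.exp (3 * (r + r ^ 2) * ∑ j, ps ‖u j‖) := Real.exp_le_exp.2 (by linarith)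
        rw [mul_one]
        gcongr
    _ = Real.exp (1 + 3 * (r + r ^ 2) * ∑ j, ps ‖u j‖ + Real.posLog N⁻¹) := by
        rw [Real.exp_add, Real.exp_add]
    _ ≤ Real.exp c := Real.exp_le_exp.2 hle

lemma fd_meas {F : ℕ → ℕ → ℂ → ℂ} (hF : ∀ i j, Measurable (F i j)) (n : ℕ) :
    Measurable fun q : ℂ × ℂ =>
      ‖fd (Gm (1 : l2 →L[ℂ] l2) (fun j : Fin n => ee j) (fun j : Fin n => cv F q.1 j)) q.2‖ := by
  have h0 : ∀ i j : Fin n, Measurable fun q : ℂ × ℂ =>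
      Gm (1 : l2 →L[ℂ] l2) (fun j : Fin n => ee j) (fun j : Fin n => cv F q.1 j) i j := by
    intro i j
    unfold Gm
    simp only [Matrix.of_apply]
    have h1 : StronglyMeasurable fun z => ⟪ee (i : ℕ), (1 : l2 →L[ℂ] l2) (cv F z j)⟫_ℂ := by
      have h2 : Continuous fun x : l2 => ⟪ee (i : ℕ), (1 : l2 →L[ℂ] l2) x⟫_ℂ :=
        continuous_const.inner (1 : l2 →L[ℂ] l2).continuous
      exact h2.comp_stronglyMeasurable (cv_meas hF j)
    exact h1.measurable.comp measurable_fst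
  refine Measurable.norm ?_
  unfold fd
  refine Measurable.mul ?_ ?_
  · simp only [Matrix.det_apply]
    refine Finset.measurable_sum _ fun σ _ => ?_
    refine Measurable.const_smul ?_ _
    refine Finset.measurable_prod _ fun i _ => ?_
    simp only [Matrix.sub_apply, Matrix.smul_apply]
    exact measurable_const.sub (measurable_snd.smul (h0 _ _))
  · refine Complex.continuous_exp.measurable.comp (measurable_snd.mul ?_)
    simp only [Matrix.trace]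
    exact Finset.measurable_sum _ fun i _ => h0 i i

lemma Phi_meas {F : ℕ → ℕ → ℂ → ℂ} (hF : ∀ i j, Measurable (F i j)) (n : ℕ) (r : ℝ) :
    Measurable (Phi F n r) := by
  unfold Phi
  refine Measurable.fun_add ?_ ?_
  · exact measurable_const.add ((Sn_meas hF n |>.comp measurable_fst).const_mul _)
  · exact meas_lm.comp (fd_meas hF n)

/-- the integral over the coupling constant -/
theorem int_kappa {m : Measure ℂ} {r : ℝ} (hr : 0 < r)
    {C : ℝ≥0} (hC : ∀ (q : Polynomial ℂ) (τ : ℂ) (M : ℝ), q.eval 0 = 1 → 0 ≤ M →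
    (∀ κ : ℂ, ‖κ‖ ≤ 6 * r → ‖q.eval κ * Complex.exp (κ * τ)‖ ≤ Real.exp M) →
    ∫⁻ κ in ball (0:ℂ) r, lm ‖q.eval κ * Complex.exp (κ * τ)‖ ∂m ≤ C * ENNReal.ofReal (M + 1))
    (F : ℕ → ℕ → ℂ → ℂ) (n : ℕ) (z : ℂ) :
    ∫⁻ κ in ball (0:ℂ) r, Phi F n r (z, κ) ∂m ≤
      (1 + ENNReal.ofReal (3 * (r + r ^ 2)) * Sn F n z) * m (ball 0 r) +
      C * (ENNReal.ofReal (3 * (6 * r + (6 * r) ^ 2)) * Sn F n z + 1) := by
  unfold Phi
  simp only
  set e : Fin n → l2 := fun j => ee j with he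
  set u : Fin n → l2 := fun j => cv F z j with hu
  have heo : Orthonormal ℂ e := ee_orth.comp _ Fin.val_injective
  rw [lintegral_add_left measurable_const, lintegral_const, Measure.restrict_apply_univ]
  gcongr
  have hq : ∀ κ : ℂ, fd (Gm (1 : l2 →L[ℂ] l2) e u) κ =
      (Gm (1 : l2 →L[ℂ] l2) e u).charpolyRev.eval κ *
        Complex.exp (κ * (Gm (1 : l2 →L[ℂ] l2) e u).trace) := by
    intro κ
    rw [Pool.Agent.Y271.CO.eval_rev]
    rfl
  simp only [hq]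
  have hSn : Sn F n z = ENNReal.ofReal (∑ j, ps ‖u j‖) := by
    unfold Sn
    rw [Finset.sum_range, ENNReal.ofReal_sum_of_nonneg fun j _ => ps_nonneg (norm_nonneg _)]
  have hb : 0 ≤ ∑ j, ps ‖u j‖ := Finset.sum_nonneg fun j _ => ps_nonneg (norm_nonneg _)
  refine (hC _ _ (3 * (6 * r + (6 * r) ^ 2) * ∑ j, ps ‖u j‖) ?_ (by positivity) ?_).trans ?_
  · exact Matrix.eval_charpolyRev
  · intro κ hκ
    rw [← hq]
    refine (up_ps n e u 1 κ heo).trans (Real.exp_le_exp.2 ?_)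
    rw [mul_assoc]
    gcongr
    rw [Finset.mul_sum]
    apply Finset.sum_le_sum
    intro j _
    refine (ps_mul (norm_nonneg _) (norm_nonneg _)).trans ?_
    refine mul_le_mul_of_nonneg_right ?_ (ps_nonneg (norm_nonneg _))
    have := norm_nonneg κ
    nlinarith
  · rw [ENNReal.ofReal_add (by positivity) zero_le_one, ENNReal.ofReal_one,
      ENNReal.ofReal_mul (by positivity), ← hSn]

end Pool.Agent.N812.IS
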