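import Pool.Agent.N812.IS.Gen2

/-!
# Infinite matrices depending on a parameter: the inverse of `1 - κ F(z)` for almost every `κ`, 3

The argument follows `Pool.Agent.R276.CP.Fat` (helper 973).
-/

set_option autoImplicit false

namespace Pool.Agent.N812.IS

open MeasureTheory Set Metric Filter Topology
open Pool.Agent.R276.CP Pool.Agent.R276.CP.Fat
open scoped InnerProductSpace ENNReal NNReal

lemma inverse_meas {T : ℂ → (l2 →L[ℂ] l2)} (hT : StronglyMeasurable T) :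
    StronglyMeasurable fun z => Ring.inverse (T z) := by
  classical
  borelize (l2 →L[ℂ] l2)
  have hU : IsOpen {A : l2 →L[ℂ] l2 | IsUnit A} := Units.isOpen
  have hc : ContinuousOn (Ring.inverse : (l2 →L[ℂ] l2) → (l2 →L[ℂ] l2)) {A | IsUnit A} := by
    rintro A ⟨U, rfl⟩
    exact (NormedRing.inverse_continuousAt U).continuousWithinAt
  have hm : Measurable (Ring.inverse : (l2 →L[ℂ] l2) → (l2 →L[ℂ] l2)) := by
    have h1 : (Ring.inverse : (l2 →L[ℂ] l2) → (l2 →L[ℂ] l2)) =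
        {A : l2 →L[ℂ] l2 | IsUnit A}.piecewise Ring.inverse (fun _ => 0) := by
      funext A
      by_cases hA : IsUnit A
      · simp [Set.piecewise, hA]
      · simp [Set.piecewise, hA, Ring.inverse_non_unit _ hA]
    rw [h1]
    exact hc.measurable_piecewise continuousOn_const hU.measurableSet
  rw [stronglyMeasurable_iff_measurable_separable]
  refine ⟨hm.comp hT.measurable, ?_⟩
  have h2 : TopologicalSpace.IsSeparable (range T ∩ {A | IsUnit A}) :=
    hT.isSeparable_range.mono inter_subset_left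
  have h3 := (hc.mono (inter_subset_right (s := range T))).isSeparable_image h2
  refine (h3.union (Set.finite_singleton (0 : l2 →L[ℂ] l2)).isSeparable).mono ?_
  rintro _ ⟨z, rfl⟩
  by_cases hz : IsUnit (T z)
  · exact Or.inl ⟨T z, ⟨⟨z, rfl⟩, hz⟩, rfl⟩
  · right
    rw [mem_singleton_iff]
    exact Ring.inverse_non_unit _ hz

lemma Sn_le' {F : ℕ → ℕ → ℂ → ℂ} (n : ℕ) (z : ℂ) : Sn F n z ≤ 2 * Xi F z := by
  by_cases hz : Xi F z = ⊤
  · rw [hz]
    simp
  · exact Sn_le hz n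

lemma res_eq (A : l2 →L[ℂ] l2) : resolvent A (1 : ℂ) = Ring.inverse (1 - A) := by
  rw [resolvent, map_one]

/-- invertibility for almost every coupling constant, on a disc -/
theorem generic_ball {F : ℕ → ℕ → ℂ → ℂ} (hF : ∀ i j, Measurable (F i j)) {R : ℝ}
    (hX : ∫⁻ z in ball (0:ℂ) R, Xi F z < ⊤) {m : Measure ℂ} (hm : LogBd m) {r : ℝ} (hr : 0 < r) :
    ∀ᵐ κ ∂(m.restrict (ball (0:ℂ) r)), ∃ L : ℂ → ℝ≥0∞, Measurable L ∧
      (∫⁻ z in ball (0:ℂ) R, L z < ⊤) ∧
      ∀ᵐ z ∂((volume : Measure ℂ).restrict (ball 0 R)), (1 : ℂ) ∈ resolventSet ℂ (κ • Top F z) ∧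
        ENNReal.ofReal (Real.posLog ‖resolvent (κ • Top F z) (1 : ℂ)‖) ≤ L z := by
  obtain ⟨C1, hC1⟩ := Pool.Agent.R276.CP.Pot.main m hm r hr
  obtain ⟨C2, hC2, -⟩ := hm r
  set B := ball (0:ℂ) R with hB
  have hfin : IsFiniteMeasure (m.restrict (ball (0:ℂ) r)) :=
    ⟨by rw [Measure.restrict_apply_univ]; exact hC2.trans_lt ENNReal.coe_lt_top⟩
  have hBfin : volume B < ⊤ := measure_ball_lt_top
  have hfinB : IsFiniteMeasure ((volume : Measure ℂ).restrict B) :=
    ⟨by rw [Measure.restrict_apply_univ]; exact hBfin⟩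
  obtain ⟨X, hXd⟩ : ∃ X : ℝ≥0∞, X = ∫⁻ z in B, Xi F z := ⟨_, rfl⟩
  have hXm := Xi_meas hF
  have hS : ∀ n, ∫⁻ z in B, Sn F n z ≤ 2 * X := by
    intro n
    rw [hXd, ← lintegral_const_mul _ hXm]
    exact lintegral_mono fun z => Sn_le' n z
  obtain ⟨T, hTd⟩ : ∃ T : ℝ≥0∞,
      T = (volume B + ENNReal.ofReal (3 * (r + r ^ 2)) * (2 * X)) * C2 +
        C1 * (ENNReal.ofReal (3 * (6 * r + (6 * r) ^ 2)) * (2 * X) + volume B) := ⟨_, rfl⟩
  have hT : T < ⊤ := by
    rw [hTd]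
    have h1 : (2 * X : ℝ≥0∞) < ⊤ := ENNReal.mul_lt_top (by simp) (by rw [hXd]; exact hX)
    refine ENNReal.add_lt_top.2 ⟨ENNReal.mul_lt_top (ENNReal.add_lt_top.2
      ⟨hBfin, ENNReal.mul_lt_top ENNReal.ofReal_lt_top h1⟩)
      ENNReal.coe_lt_top, ENNReal.mul_lt_top ENNReal.coe_lt_top (ENNReal.add_lt_top.2
        ⟨ENNReal.mul_lt_top ENNReal.ofReal_lt_top h1, hBfin⟩)⟩
  have hPhi : ∀ n, ∫⁻ q, Phi F n r q
      ∂(((volume : Measure ℂ).restrict B).prod (m.restrict (ball (0:ℂ) r))) ≤ T := by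
    intro n
    rw [lintegral_prod _ (Phi_meas hF n r).aemeasurable]
    calc ∫⁻ z in B, ∫⁻ κ in ball (0:ℂ) r, Phi F n r (z, κ) ∂m
        ≤ ∫⁻ z in B, ((1 + ENNReal.ofReal (3 * (r + r ^ 2)) * Sn F n z) * C2 +
            C1 * (ENNReal.ofReal (3 * (6 * r + (6 * r) ^ 2)) * Sn F n z + 1)) := by
          apply lintegral_mono
          intro z
          refine (int_kappa hr hC1 F n z).trans ?_
          beta_reduce
          gcongr
      _ = (volume B + ENNReal.ofReal (3 * (r + r ^ 2)) * ∫⁻ z in B, Sn F n z) * C2 +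
            C1 * (ENNReal.ofReal (3 * (6 * r + (6 * r) ^ 2)) * (∫⁻ z in B, Sn F n z) +
              volume B) := by
          have hm0 := Sn_meas hF n
          have hm1 : Measurable fun z => ENNReal.ofReal (3 * (r + r ^ 2)) * Sn F n z :=
            hm0.const_mul _
          have hm2 : Measurable fun z => ENNReal.ofReal (3 * (6 * r + (6 * r) ^ 2)) * Sn F n z :=
            hm0.const_mul _
          have hm4 : Measurable fun z => 1 + ENNReal.ofReal (3 * (r + r ^ 2)) * Sn F n z :=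
            hm1.const_add 1
          have hm5 : Measurable fun z =>
              ENNReal.ofReal (3 * (6 * r + (6 * r) ^ 2)) * Sn F n z + 1 := hm2.add_const 1
          rw [lintegral_add_left (hm4.mul_const _), lintegral_mul_const _ hm4,
            lintegral_const_mul _ hm5, lintegral_add_left measurable_const,
            lintegral_const_mul _ hm0, lintegral_add_left hm2, lintegral_const_mul _ hm0,
            lintegral_one, Measure.restrict_apply_univ]
      _ ≤ T := by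
          rw [hTd]
          gcongr
          · exact hS n
          · exact hS n
  obtain ⟨L, hLd⟩ : ∃ L : ℂ × ℂ → ℝ≥0∞,
      L = fun q => liminf (fun n => Phi F n r q) atTop := ⟨_, rfl⟩
  have hLm : Measurable L := by
    rw [hLd]
    exact Measurable.liminf fun n => Phi_meas hF n r
  have hL : ∫⁻ q, L q ∂(((volume : Measure ℂ).restrict B).prod (m.restrict (ball (0:ℂ) r))) ≤ T := by
    rw [hLd]
    refine (lintegral_liminf_le fun n => Phi_meas hF n r).trans ?_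
    exact liminf_le_of_frequently_le' (Frequently.of_forall hPhi)
  have hL2 : ∀ᵐ κ ∂(m.restrict (ball (0:ℂ) r)), ∫⁻ z in B, L (z, κ) < ⊤ := by
    rw [lintegral_prod_symm _ hLm.aemeasurable] at hL
    refine ae_lt_top ?_ (hL.trans_lt hT).ne
    exact hLm.lintegral_prod_left'
  filter_upwards [hL2, ae_restrict_mem measurableSet_ball] with κ h1 h2
  refine ⟨fun z => L (z, κ), hLm.comp measurable_prodMk_right, h1, ?_⟩
  have h3 : ∀ᵐ z ∂((volume : Measure ℂ).restrict B), L (z, κ) < ⊤ :=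
    ae_lt_top (hLm.comp measurable_prodMk_right) h1.ne
  have h4 : ∀ᵐ z ∂((volume : Measure ℂ).restrict B), Xi F z < ⊤ := ae_lt_top hXm hX.ne
  filter_upwards [h3, h4] with z h3 h4
  have key : ∀ c : ℝ, (L (z, κ)).toReal < c → (1 : ℂ) ∈ resolventSet ℂ (κ • Top F z) ∧
      ‖resolvent (κ • Top F z) (1 : ℂ)‖ ≤ Real.exp c := by
    intro c hc
    apply res_lim (T := fun n => κ • Tn F n z) ((Tn_tendsto h4.ne).const_smul κ) 1
    have h5 : L (z, κ) < ENNReal.ofReal c := (ENNReal.lt_ofReal_iff_toReal_lt h3.ne).2 hc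
    rw [hLd] at h5
    have h6 : ∃ᶠ n in atTop, Phi F n r (z, κ) < ENNReal.ofReal c :=
      frequently_lt_of_liminf_lt (by isBoundedDefault) h5
    exact h6.mono fun n hn => phi_le F n (by simpa using h2) hn.le
  refine ⟨(key _ (lt_add_one _)).1, ?_⟩
  rw [ENNReal.ofReal_le_iff_le_toReal h3.ne]
  apply le_of_forall_gt_imp_ge_of_dense
  intro c hc
  exact posLog_le_of_le_exp (norm_nonneg _) (ENNReal.toReal_nonneg.trans hc.le) (key c hc).2

/-- the matrix `F(z)` is good: `1 - F(z)` is invertible for almost every `z`, with an inverse of locally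
log-integrable norm -/
structure Good (F : ℕ → ℕ → ℂ → ℂ) (κ : ℂ) : Prop where
  res : ∀ᵐ z : ℂ, (1 : ℂ) ∈ resolventSet ℂ (κ • Top F z)
  log : ∀ R : ℝ, ∫⁻ z in ball (0:ℂ) R,
    ENNReal.ofReal (Real.posLog ‖resolvent (κ • Top F z) (1 : ℂ)‖) < ⊤

lemma ae_of_balls {m : Measure ℂ} {P : ℂ → Prop}
    (h : ∀ n : ℕ, ∀ᵐ z ∂(m.restrict (ball 0 ((n : ℝ) + 1))), P z) : ∀ᵐ z ∂m, P z := by
  have h1 : (⋃ n : ℕ, ball (0:ℂ) ((n : ℝ) + 1)) = univ := by
    rw [eq_univ_iff_forall]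
    intro z
    obtain ⟨n, hn⟩ := exists_nat_gt ‖z‖
    rw [mem_iUnion]
    exact ⟨n, by rw [mem_ball_zero_iff]; linarith⟩
  rw [← Measure.restrict_univ (μ := m), ← h1]
  rw [ae_restrict_iUnion_iff]
  exact h

/-- invertibility for almost every coupling constant -/
theorem generic {F : ℕ → ℕ → ℂ → ℂ} (hF : ∀ i j, Measurable (F i j))
    (hX : ∀ R : ℝ, ∫⁻ z in ball (0:ℂ) R, Xi F z < ⊤) {m : Measure ℂ} (hm : LogBd m) :
    ∀ᵐ κ ∂m, Good F κ := by
  have h1 : ∀ n k : ℕ, ∀ᵐ κ ∂(m.restrict (ball (0:ℂ) ((n : ℝ) + 1))), ∃ L : ℂ → ℝ≥0∞,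
      Measurable L ∧ (∫⁻ z in ball (0:ℂ) ((k : ℝ) + 1), L z < ⊤) ∧
      ∀ᵐ z ∂((volume : Measure ℂ).restrict (ball 0 ((k : ℝ) + 1))),
        (1 : ℂ) ∈ resolventSet ℂ (κ • Top F z) ∧
        ENNReal.ofReal (Real.posLog ‖resolvent (κ • Top F z) (1 : ℂ)‖) ≤ L z :=
    fun n k => generic_ball hF (hX _) hm (by positivity)
  refine ae_of_balls fun n => ?_
  filter_upwards [ae_all_iff.2 (h1 n)] with κ hκ
  refine ⟨ae_of_balls fun k => ?_, fun R => ?_⟩
  · obtain ⟨L, -, -, h⟩ := hκ k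
    exact h.mono fun z hz => hz.1
  · obtain ⟨k, hk⟩ := exists_nat_gt R
    obtain ⟨L, -, hL, h⟩ := hκ k
    calc ∫⁻ z in ball (0:ℂ) R, ENNReal.ofReal (Real.posLog ‖resolvent (κ • Top F z) (1 : ℂ)‖)
        ≤ ∫⁻ z in ball (0:ℂ) ((k : ℝ) + 1),
            ENNReal.ofReal (Real.posLog ‖resolvent (κ • Top F z) (1 : ℂ)‖) :=
          lintegral_mono_set (ball_subset_ball (by linarith))
      _ ≤ ∫⁻ z in ball (0:ℂ) ((k : ℝ) + 1), L z := lintegral_mono_ae (h.mono fun z hz => hz.2)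
      _ < ⊤ := hL

end Pool.Agent.N812.IS
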