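import Pool.Agent.N812.IS.Kr

/-!
# Normal operators: the far and the near part of the resolvent
-/

set_option autoImplicit false

namespace Pool.Agent.N812.IS

open MeasureTheory Set Metric Filter Topology
open Pool.Agent.R276.CP
open Pool.Agent.Y271.RO (Bd ht)
open Pool.Agent.R277.SP
open scoped InnerProductSpace ENNReal NNReal ComplexConjugate

/-- `L¹` norms by duality -/
theorem l1_of_dual {F : ℂ → ℂ} (hF : Measurable F) {R w : ℝ}
    (h : ∀ (g : ℂ → ℂ), Bd g 0 R 1 → Integrable (fun z => g z * F z) ∧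
        ‖∫ z, g z * F z‖ ≤ w) : ∫⁻ z in ball (0:ℂ) R, ENNReal.ofReal ‖F z‖ ≤ ENNReal.ofReal w := by
  classical
  set A : Set ℂ := ball 0 R with hAd
  have hA : MeasurableSet A := measurableSet_ball
  set g : ℂ → ℂ := A.indicator fun z => if F z = 0 then 0 else
    (starRingEnd ℂ) (F z) * ((‖F z‖ : ℂ))⁻¹ with hg
  have hb : Bd g 0 R 1 := by
    refine ⟨?_, zero_le_one, fun z => ?_, fun z hz => ?_⟩
    · refine Measurable.indicator ?_ hA
      refine Measurable.ite (measurableSet_eq_fun hF measurable_const) measurable_const ?_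
      exact (Complex.continuous_conj.measurable.comp hF).mul
        (Complex.measurable_ofReal.comp hF.norm).inv
    · rw [hg]
      refine (norm_indicator_le_norm_self _ _).trans ?_
      split_ifs with h0
      · rw [norm_zero]; exact zero_le_one
      · rw [norm_mul, RCLike.norm_conj, norm_inv, Complex.norm_real, norm_norm,
          mul_inv_cancel₀ (norm_ne_zero_iff.2 h0)]
    · rw [hg, indicator_of_notMem fun hzA => hz hzA]
  obtain ⟨h1, h2⟩ := h g hb
  have h3 : ∀ z, g z * F z = A.indicator (fun z => ((‖F z‖ : ℝ) : ℂ)) z := by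
    intro z
    rw [hg]
    by_cases hz : z ∈ A
    · rw [indicator_of_mem hz, indicator_of_mem hz]
      split_ifs with h0
      · rw [h0]; simp
      · have h4 : ((‖F z‖ : ℝ) : ℂ) ≠ 0 := by
          exact_mod_cast norm_ne_zero_iff.2 h0
        rw [mul_comm, ← mul_assoc, Complex.mul_conj, Complex.normSq_eq_norm_sq]
        push_cast
        field_simp
    · rw [indicator_of_notMem hz, indicator_of_notMem hz, zero_mul]
  simp_rw [h3] at h1 h2
  have h4 : IntegrableOn (fun z => ‖F z‖) A := by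
    have h5 := (integrable_indicator_iff hA).1 h1
    have h6 := h5.norm
    refine h6.congr (Eventually.of_forall fun z => ?_)
    simp
  rw [← ofReal_integral_eq_lintegral_ofReal h4 (Eventually.of_forall fun z => norm_nonneg _)]
  refine ENNReal.ofReal_le_ofReal ?_
  have h7 : ∫ z in A, ((‖F z‖ : ℝ) : ℂ) = ((∫ z in A, ‖F z‖ : ℝ) : ℂ) := integral_ofReal
  rw [integral_indicator hA, h7, Complex.norm_real] at h2
  exact (le_abs_self _).trans h2

/-! ### the near part -/

section near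

variable {X : Type} [NormedAddCommGroup X] [NormedSpace ℂ X] {K : Set ℂ} [CompactSpace K]
  {Φ : C(K, ℂ) →ₐ[ℂ] (X →L[ℂ] X)} {N : X →L[ℂ] X} {M : ℝ}

/-- the map `h ↦ y (Φ h x)` -/
noncomputable def Lf (hF : FC Φ N M) (y : X →L[ℂ] ℂ) (x : X) : C(K, ℂ) →L[ℂ] ℂ :=
  ({ toFun := fun h => y (Φ h x)
     map_add' := fun h h' => by simp
     map_smul' := fun c h => by simp } : C(K, ℂ) →ₗ[ℂ] ℂ).mkContinuous (‖y‖ * (M * ‖x‖))
    (fun h => by
    have h1 : ‖Φ h x‖ ≤ M * ‖h‖ * ‖x‖ := hF.bd_apply (norm_nonneg _)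
      (fun s => h.norm_coe_le_norm s) x
    calc ‖y (Φ h x)‖ ≤ ‖y‖ * ‖Φ h x‖ := y.le_opNorm _
      _ ≤ ‖y‖ * (M * ‖h‖ * ‖x‖) := by gcongr
      _ = ‖y‖ * (M * ‖x‖) * ‖h‖ := by ring)

lemma Lf_apply (hF : FC Φ N M) (y : X →L[ℂ] ℂ) (x : X) (h : C(K, ℂ)) : Lf hF y x h = y (Φ h x) :=
  rfl

lemma Lf_norm (hF : FC Φ N M) (y : X →L[ℂ] ℂ) (x : X) : ‖Lf hF y x‖ ≤ ‖y‖ * (M * ‖x‖) :=
  LinearMap.mkContinuous_norm_le _ (mul_nonneg (norm_nonneg _) (mul_nonneg hF.nonneg
    (norm_nonneg _))) _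

/-- the far part -/
noncomputable def far (hF : FC Φ N M) (l : ℕ) (y : X →L[ℂ] ℂ) (x : X) (z : ℂ) : ℂ :=
  Lf hF y x (kz K l z)

lemma far_cont (hF : FC Φ N M) (l : ℕ) (y : X →L[ℂ] ℂ) (x : X) : Continuous (far hF l y x) :=
  (Lf hF y x).continuous.comp (kz K l).continuous

theorem near_int (hF : FC Φ N M) : ∃ C : ℝ, 0 ≤ C ∧ ∀ (l : ℕ) (y : X →L[ℂ] ℂ) (x : X) (R : ℝ),
    ∫⁻ z in ball (0:ℂ) R, ENNReal.ofReal ‖fF hF y x z - far hF l y x z‖ ≤
      ENNReal.ofReal (C * rl l * (‖y‖ * ‖x‖)) := by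
  obtain ⟨C, hC0, hC⟩ := ht_small
  refine ⟨M * C, mul_nonneg hF.nonneg hC0, fun l y x R => ?_⟩
  have hm : Measurable fun z => fF hF y x z - far hF l y x z :=
    (fF_meas hF y x).sub (far_cont hF l y x).measurable
  refine l1_of_dual hm fun g hg => ?_
  obtain ⟨i1, i2⟩ := fF_rep hF y x 0 R 1 g hg
  -- the Bochner integral
  have hI : Integrable fun z => g z • kz K l z := by
    have h1 : IntegrableOn (fun z => ‖kz K l z‖) (closedBall (0:ℂ) R) :=
      ((kz K l).continuous.norm.continuousOn).integrableOn_compact (isCompact_closedBall _ _)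
    have h2 : Integrable ((closedBall (0:ℂ) R).indicator fun z => ‖kz K l z‖) :=
      (integrable_indicator_iff measurableSet_closedBall).2 h1
    refine h2.mono' (hg.meas.aestronglyMeasurable.smul
      (kz K l).continuous.aestronglyMeasurable) (Eventually.of_forall fun z => ?_)
    by_cases hz : z ∈ closedBall (0:ℂ) R
    · rw [indicator_of_mem hz, norm_smul]
      have := hg.bd z
      nlinarith [norm_nonneg (kz K l z)]
    · rw [indicator_of_notMem hz, hg.supp z fun h => hz (ball_subset_closedBall h), zero_smul,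
        norm_zero]
  have i3 : ∫ z, g z * far hF l y x z = Lf hF y x (∫ z, g z • kz K l z) := by
    rw [← (Lf hF y x).integral_comp_comm hI]
    refine integral_congr_ae (Eventually.of_forall fun z => ?_)
    simp only [map_smul, smul_eq_mul]
    rfl
  have i4 : Integrable fun z => g z * far hF l y x z := by
    have := (Lf hF y x).integrable_comp hI
    refine this.congr (Eventually.of_forall fun z => ?_)
    simp only [map_smul, smul_eq_mul]
    rfl
  have e1 : ∀ z, g z * (fF hF y x z - far hF l y x z) =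
      g z * fF hF y x z - g z * far hF l y x z := fun z => mul_sub _ _ _
  simp_rw [e1]
  refine ⟨i1.sub i4, ?_⟩
  rw [integral_sub i1 i4, i3, ← i2]
  have e2 : y (Φ (cK K (ht g)) x) = Lf hF y x (cK K (ht g)) := rfl
  rw [e2, ← map_sub]
  have hn : ‖cK K (ht g) - ∫ z, g z • kz K l z‖ ≤ rl l * (C * 1) := by
    rw [ContinuousMap.norm_le _ (mul_nonneg (rl_pos l).le (by positivity))]
    intro s
    have h1 : (∫ z, g z • kz K l z) s = ∫ z, g z * kr l (z - s) := by
      have h2 := (ContinuousMap.evalCLM ℂ s : C(K, ℂ) →L[ℂ] ℂ).integral_comp_comm hI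
      exact h2.symm
    have h3 : Integrable fun z => g z * kr l (z - s) := by
      have h2 := (ContinuousMap.evalCLM ℂ s : C(K, ℂ) →L[ℂ] ℂ).integrable_comp hI
      exact h2
    have hr : 0 < R ∨ R ≤ 0 := lt_or_ge 0 R
    have h4 : Integrable fun z => g z * (z - s)⁻¹ := by
      rcases hr with hr | hr
      · obtain ⟨K', -, hK'⟩ := hHT R hr
        exact (hK' _ _ _ hg).2.2.1 s
      · have : g = fun _ => 0 := by
          funext z
          apply hg.supp
          rw [ball_eq_empty.2 hr]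
          exact notMem_empty z
        rw [this]
        simp
    have h5 : (cK K (ht g) - ∫ z, g z • kz K l z) s =
        ht (fun z => g z * th l (z - s)) s := by
      rw [ContinuousMap.sub_apply, h1, cK_apply (ht_cont hg)]
      unfold ht
      rw [← integral_sub h4 h3]
      refine integral_congr_ae ?_
      have hne : ∀ᵐ z : ℂ, z ≠ (s : ℂ) := by
        rw [ae_iff]
        simp
      refine hne.mono fun z hz => ?_
      simp only
      have h6 := th_eq l (sub_ne_zero.2 hz)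
      rw [← mul_sub, h6]
      ring
    rw [h5]
    refine hC s (rl l) 1 _ (rl_pos l) ⟨?_, zero_le_one, fun z => ?_, fun z hz => ?_⟩ s
    · exact hg.meas.mul ((th_meas l).measurable.comp (measurable_id.sub_const _))
    · rw [norm_mul]
      calc ‖g z‖ * ‖th l (z - s)‖ ≤ 1 * 1 := mul_le_mul (hg.bd z) (th_norm l _) (norm_nonneg _)
            zero_le_one
        _ = 1 := one_mul 1
    · rw [th_zero l, mul_zero]
      rw [mem_ball, dist_eq_norm, not_lt] at hz
      exact hz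
  calc ‖Lf hF y x (cK K (ht g) - ∫ z, g z • kz K l z)‖
      ≤ ‖Lf hF y x‖ * ‖cK K (ht g) - ∫ z, g z • kz K l z‖ := ContinuousLinearMap.le_opNorm _ _
    _ ≤ (‖y‖ * (M * ‖x‖)) * (rl l * (C * 1)) :=
        mul_le_mul (Lf_norm hF y x) hn (norm_nonneg _) (mul_nonneg (norm_nonneg _)
          (mul_nonneg hF.nonneg (norm_nonneg _)))
    _ = M * C * rl l * (‖y‖ * ‖x‖) := by ring

end near

/-! ### the far part -/

section far

variable {H : Type} [NormedAddCommGroup H] [InnerProductSpace ℂ H] [CompleteSpace H] {K : Set ℂ}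
  [CompactSpace K] {Φ : C(K, ℂ) →ₐ[ℂ] (H →L[ℂ] H)} {N : H →L[ℂ] H} {M : ℝ}

lemma kz_int (K : Set ℂ) [CompactSpace K] (R : ℝ) : ∃ C : ℝ, 0 ≤ C ∧ ∀ l : ℕ,
    IntegrableOn (fun z => star (kz K l z) * kz K l z) (ball (0:ℂ) R) ∧
      ‖∫ z in ball (0:ℂ) R, star (kz K l z) * kz K l z‖ ≤ C * (1 + l) := by
  obtain ⟨b, hb⟩ : ∃ b : ℝ, ∀ s : K, ‖(s : ℂ)‖ ≤ b := by
    have hK : IsCompact K := isCompact_iff_compactSpace.2 inferInstance
    obtain ⟨b, hb⟩ := hK.isBounded.exists_norm_le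
    exact ⟨b, fun s => hb s s.2⟩
  refine ⟨vb (R + b) + 16 * Real.pi, by have := vb_nonneg (R + b); positivity, fun l => ?_⟩
  have hc : Continuous fun z => star (kz K l z) * kz K l z :=
    (kz K l).continuous.star.mul (kz K l).continuous
  have hi : IntegrableOn (fun z => star (kz K l z) * kz K l z) (ball (0:ℂ) R) :=
    (hc.continuousOn.integrableOn_compact (isCompact_closedBall _ _)).mono_set
      ball_subset_closedBall
  refine ⟨hi, ?_⟩
  have hv := vb_nonneg (R + b)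
  rw [ContinuousMap.norm_le _ (by positivity)]
  intro s
  have h2 := (ContinuousMap.evalCLM ℂ s : C(K, ℂ) →L[ℂ] ℂ).integral_comp_comm hi
  have h2' : (∫ z in ball (0:ℂ) R, star (kz K l z) * kz K l z) s =
      ∫ z in ball (0:ℂ) R, (starRingEnd ℂ) (kr l (z - s)) * kr l (z - s) := by
    exact h2.symm
  rw [h2']
  have h3 : ENNReal.ofReal ‖∫ z in ball (0:ℂ) R, (starRingEnd ℂ) (kr l (z - s)) * kr l (z - s)‖ ≤
      ENNReal.ofReal (vb (R + ‖(s : ℂ)‖) + 16 * Real.pi * l) := by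
    refine le_trans ?_ (int_kr R l s)
    calc ENNReal.ofReal ‖∫ z in ball (0:ℂ) R, (starRingEnd ℂ) (kr l (z - s)) * kr l (z - s)‖
        ≤ ∫⁻ z in ball (0:ℂ) R, ENNReal.ofReal ‖(starRingEnd ℂ) (kr l (z - s)) * kr l (z - s)‖ := by
          simp only [ofReal_norm_eq_enorm]
          exact enorm_integral_le_lintegral_enorm _
      _ = ∫⁻ z in ball (0:ℂ) R, ENNReal.ofReal (‖kr l (z - s)‖ ^ 2) := by
          refine lintegral_congr fun z => ?_
          rw [norm_mul, RCLike.norm_conj, sq]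
  have hv' := vb_nonneg (R + ‖(s : ℂ)‖)
  have h4 := (ENNReal.ofReal_le_ofReal_iff (by positivity)).1 h3
  have h5 : vb (R + ‖(s : ℂ)‖) ≤ vb (R + b) := by
    unfold vb
    refine ENNReal.toReal_mono measure_ball_lt_top.ne (measure_mono (ball_subset_ball ?_))
    linarith [hb s]
  have h6 : (0 : ℝ) ≤ l := Nat.cast_nonneg l
  have h7 : 0 ≤ vb (R + b) * l := by positivity
  have h8 := Real.pi_pos
  nlinarith

/-- the mean square of the far part -/
theorem far_int (hF : FC Φ N M) (hst : ∀ h, Φ (star h) = ContinuousLinearMap.adjoint (Φ h)) (R : ℝ) :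
    ∃ C : ℝ, 0 ≤ C ∧ ∀ (l : ℕ) (x : H),
    ∫⁻ z in ball (0:ℂ) R, ENNReal.ofReal (‖Φ (kz K l z) x‖ ^ 2) ≤
      ENNReal.ofReal (C * ‖x‖ ^ 2 * (1 + l)) := by
  obtain ⟨C, hC0, hC⟩ := kz_int K R
  refine ⟨M * C, mul_nonneg hF.nonneg hC0, fun l x => ?_⟩
  obtain ⟨hi, hn⟩ := hC l
  set y : H →L[ℂ] ℂ := innerSL ℂ x with hy
  have e1 : ∀ z, Lf hF y x (star (kz K l z) * kz K l z) = ((‖Φ (kz K l z) x‖ ^ 2 : ℝ) : ℂ) := by
    intro z
    rw [Lf_apply, map_mul, hst]
    show ⟪x, ContinuousLinearMap.adjoint (Φ (kz K l z)) (Φ (kz K l z) x)⟫_ℂ = _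
    rw [ContinuousLinearMap.adjoint_inner_right, inner_self_eq_norm_sq_to_K]
    norm_cast
  have h1 := (Lf hF y x).integral_comp_comm hi
  simp only [e1] at h1
  have hi' : IntegrableOn (fun z => (‖Φ (kz K l z) x‖ ^ 2 : ℝ)) (ball (0:ℂ) R) := by
    have h2 := ((Lf hF y x).integrable_comp hi).norm
    refine h2.congr (Eventually.of_forall fun z => ?_)
    simp only [e1, Complex.norm_real]
    exact Real.norm_of_nonneg (by positivity)
  rw [← ofReal_integral_eq_lintegral_ofReal hi' (Eventually.of_forall fun z => by positivity)]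
  refine ENNReal.ofReal_le_ofReal ?_
  have h2 : ∫ z in ball (0:ℂ) R, ((‖Φ (kz K l z) x‖ ^ 2 : ℝ) : ℂ) =
      ((∫ z in ball (0:ℂ) R, ‖Φ (kz K l z) x‖ ^ 2 : ℝ) : ℂ) := integral_ofReal
  rw [h2] at h1
  have h3 : ∫ z in ball (0:ℂ) R, ‖Φ (kz K l z) x‖ ^ 2 ≤
      ‖(((∫ z in ball (0:ℂ) R, ‖Φ (kz K l z) x‖ ^ 2 : ℝ)) : ℂ)‖ := by
    rw [Complex.norm_real]
    exact le_abs_self _
  rw [h1] at h3
  refine h3.trans ((ContinuousLinearMap.le_opNorm _ _).trans ?_)
  calc ‖Lf hF y x‖ * ‖∫ z in ball (0:ℂ) R, star (kz K l z) * kz K l z‖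
      ≤ (‖y‖ * (M * ‖x‖)) * (C * (1 + l)) := mul_le_mul (Lf_norm hF y x) hn (norm_nonneg _)
        (mul_nonneg (norm_nonneg _) (mul_nonneg hF.nonneg (norm_nonneg _)))
    _ = M * C * ‖x‖ ^ 2 * (1 + l) := by
        rw [hy, innerSL_apply_norm]
        ring

lemma far_cont' (l : ℕ) (hF : FC Φ N M) (x : H) : Continuous fun z => Φ (kz K l z) x := by
  have h1 : Continuous Φ := by
    have : ∀ h, ‖Φ.toLinearMap h‖ ≤ M * ‖h‖ := hF.bd
    exact (Φ.toLinearMap.mkContinuous M this).continuous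
  exact (ContinuousLinearMap.apply ℂ H x).continuous.comp (h1.comp (kz K l).continuous)

/-- the far part for the adjoint -/
theorem far_int' (hF : FC Φ N M) (hst : ∀ h, Φ (star h) = ContinuousLinearMap.adjoint (Φ h))
    (R : ℝ) : ∃ C : ℝ, 0 ≤ C ∧ ∀ (l : ℕ) (x : H),
    ∫⁻ z in ball (0:ℂ) R,
      ENNReal.ofReal (‖ContinuousLinearMap.adjoint (Φ (kz K l z)) x‖ ^ 2) ≤
      ENNReal.ofReal (C * ‖x‖ ^ 2 * (1 + l)) := by
  obtain ⟨C, hC0, hC⟩ := far_int hF hst R
  refine ⟨C, hC0, fun l x => le_trans (le_of_eq ?_) (hC l x)⟩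
  refine lintegral_congr fun z => ?_
  have h1 : ∀ (h : C(K, ℂ)), ‖ContinuousLinearMap.adjoint (Φ h) x‖ = ‖Φ h x‖ := by
    intro h
    have h2 : ‖ContinuousLinearMap.adjoint (Φ h) x‖ ^ 2 = ‖Φ h x‖ ^ 2 := by
      have h3 : ((‖ContinuousLinearMap.adjoint (Φ h) x‖ ^ 2 : ℝ) : ℂ) = ((‖Φ h x‖ ^ 2 : ℝ) : ℂ) := by
        have e1 := inner_self_eq_norm_sq_to_K (𝕜 := ℂ) (ContinuousLinearMap.adjoint (Φ h) x)
        have e2 := inner_self_eq_norm_sq_to_K (𝕜 := ℂ) (Φ h x)
        rw [ContinuousLinearMap.adjoint_inner_left] at e1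
        rw [← ContinuousLinearMap.adjoint_inner_right] at e2
        have e3 : Φ h (ContinuousLinearMap.adjoint (Φ h) x) =
            ContinuousLinearMap.adjoint (Φ h) (Φ h x) := by
          rw [← hst h]
          have : Φ h * Φ (star h) = Φ (star h) * Φ h := by
            rw [← map_mul, ← map_mul, mul_comm]
          exact congrArg (fun A : H →L[ℂ] H => A x) this
        rw [e3] at e1
        have e4 := e1.symm.trans e2
        exact_mod_cast e4
      exact_mod_cast h3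
    have := congrArg Real.sqrt h2
    rwa [Real.sqrt_sq (norm_nonneg _), Real.sqrt_sq (norm_nonneg _)] at this
  rw [h1]

lemma far_cont'' (l : ℕ) (hF : FC Φ N M) (x : H) :
    Continuous fun z => ContinuousLinearMap.adjoint (Φ (kz K l z)) x := by
  have h1 : Continuous Φ := by
    have : ∀ h, ‖Φ.toLinearMap h‖ ≤ M * ‖h‖ := hF.bd
    exact (Φ.toLinearMap.mkContinuous M this).continuous
  exact (ContinuousLinearMap.apply ℂ H x).continuous.comp
    (ContinuousLinearMap.adjoint.continuous.comp (h1.comp (kz K l).continuous))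

end far

end Pool.Agent.N812.IS
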