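import Pool.Agent.N812.IS.Hp

/-!
# Normal operators: the theorem
-/

set_option autoImplicit false

namespace Pool.Agent.N812.IS

open MeasureTheory Set Metric Filter Topology
open Pool.Agent.R276.CP
open Pool.Agent.R277.SP
open Pool.Agent.Y283.NK (HasHyp)
open scoped InnerProductSpace ENNReal NNReal ComplexConjugate

variable {H : Type} [NormedAddCommGroup H] [InnerProductSpace ℂ H] [CompleteSpace H]

/-- the class `∑ s² (1 + |log s|) < ∞` -/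
def LogHS (K : H →L[ℂ] H) : Prop :=
  ∃ (s : ℕ → ℝ) (u v : ℕ → H), Orthonormal ℂ u ∧ Orthonormal ℂ v ∧ (∀ j, 0 ≤ s j) ∧
    (Summable fun j => s j ^ 2 * (1 + |Real.log (s j)|)) ∧
    ∀ x, HasSum (fun j => ((s j : ℂ) * ⟪v j, x⟫_ℂ) • u j) (K x)

lemma vu_apply (u v : ℕ → H) (s : ℕ → ℝ) (hs : ∀ j, 0 ≤ s j) (j : ℕ) (x : H) :
    (vv v s j).smulRight (uu u s j) x = ((s j : ℂ) * ⟪v j, x⟫_ℂ) • u j := by
  rw [ContinuousLinearMap.smulRight_apply, vv, uu, smul_apply, innerSL_apply_apply, smul_smul,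
    smul_eq_mul]
  congr 1
  have h1 : ((Real.sqrt (s j) : ℝ) : ℂ) * ((Real.sqrt (s j) : ℝ) : ℂ) = (s j : ℂ) := by
    rw [← Complex.ofReal_mul, Real.mul_self_sqrt (hs j)]
  calc ((Real.sqrt (s j) : ℝ) : ℂ) * ⟪v j, x⟫_ℂ * ((Real.sqrt (s j) : ℝ) : ℂ) =
        (((Real.sqrt (s j) : ℝ) : ℂ) * ((Real.sqrt (s j) : ℝ) : ℂ)) * ⟪v j, x⟫_ℂ := by ring
    _ = _ := by rw [h1]

lemma hs_sum {s : ℕ → ℝ} {u v : ℕ → H} (hu : Orthonormal ℂ u) (hv : Orthonormal ℂ v)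
    (hs : ∀ j, 0 ≤ s j) (hsum : Summable fun j => s j ^ 2) {K : H →L[ℂ] H}
    (hK : ∀ x, HasSum (fun j => ((s j : ℂ) * ⟪v j, x⟫_ℂ) • u j) (K x)) :
    HasSum (fun j => (vv v s j).smulRight (uu u s j)) K := by
  have hb : ∀ F : Finset ℕ, ‖∑ j ∈ F, (vv v s j).smulRight (uu u s j)‖ ≤
      Real.sqrt (∑ j ∈ F, s j ^ 2) := by
    intro F
    refine ContinuousLinearMap.opNorm_le_bound _ (Real.sqrt_nonneg _) fun x => ?_
    rw [_root_.sum_apply]
    simp only [vu_apply u v s hs]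
    calc ‖∑ j ∈ F, ((s j : ℂ) * ⟪v j, x⟫_ℂ) • u j‖ ≤ ∑ j ∈ F, s j * ‖⟪v j, x⟫_ℂ‖ := by
          refine (norm_sum_le _ _).trans (Finset.sum_le_sum fun j _ => ?_)
          rw [norm_smul, hu.1 j, mul_one, norm_mul, Complex.norm_real,
            Real.norm_of_nonneg (hs j)]
      _ ≤ Real.sqrt (∑ j ∈ F, s j ^ 2) * Real.sqrt (∑ j ∈ F, ‖⟪v j, x⟫_ℂ‖ ^ 2) :=
          Real.sum_mul_le_sqrt_mul_sqrt _ _ _
      _ ≤ Real.sqrt (∑ j ∈ F, s j ^ 2) * ‖x‖ := by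
          refine mul_le_mul_of_nonneg_left ?_ (Real.sqrt_nonneg _)
          refine Real.sqrt_le_iff.2 ⟨norm_nonneg _, ?_⟩
          exact hv.sum_inner_products_le x
  have hsm : Summable fun j => (vv v s j).smulRight (uu u s j) := by
    rw [summable_iff_vanishing_norm]
    intro ε hε
    obtain ⟨F, hF⟩ := summable_iff_vanishing_norm.1 hsum (ε ^ 2) (by positivity)
    refine ⟨F, fun t ht => (hb t).trans_lt ?_⟩
    have h1 := hF t ht
    rw [Real.norm_of_nonneg (Finset.sum_nonneg fun j _ => by positivity)] at h1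
    rw [Real.sqrt_lt' hε]
    exact h1
  have h4 : ∑' j, (vv v s j).smulRight (uu u s j) = K := by
    ext x
    have h5 := hsm.hasSum.mapL (ContinuousLinearMap.apply ℂ H x)
    refine (h5.unique ?_)
    refine (hK x).congr_fun fun j => ?_
    rw [ContinuousLinearMap.apply_apply, vu_apply u v s hs]
  rw [← h4]
  exact hsm.hasSum

/-- the functional calculus of a normal operator -/
noncomputable def nc (N : H →L[ℂ] H) (hN : IsStarNormal N) :
    C(spectrum ℂ N, ℂ) →ₐ[ℂ] (H →L[ℂ] H) :=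
  (cfcHom hN : C(spectrum ℂ N, ℂ) →⋆ₐ[ℂ] (H →L[ℂ] H)).toAlgHom

lemma nc_fc (N : H →L[ℂ] H) (hN : IsStarNormal N) : FC (nc N hN) N 1 := by
  refine ⟨zero_le_one, fun h => ?_, ?_⟩
  · rw [one_mul]
    exact NonUnitalStarAlgHom.norm_apply_le
      (cfcHom hN : C(spectrum ℂ N, ℂ) →⋆ₐ[ℂ] (H →L[ℂ] H)) h
  · exact cfcHom_id hN

lemma nc_star (N : H →L[ℂ] H) (hN : IsStarNormal N) (h : C(spectrum ℂ N, ℂ)) :
    nc N hN (star h) = ContinuousLinearMap.adjoint (nc N hN h) := by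
  rw [← ContinuousLinearMap.star_eq_adjoint]
  exact map_star (cfcHom hN : C(spectrum ℂ N, ℂ) →⋆ₐ[ℂ] (H →L[ℂ] H)) h

theorem normal {N K : H →L[ℂ] H} (hN : IsStarNormal N) (hK : LogHS K) {m : Measure ℂ}
    (hm : LogBd m) : ∀ᵐ κ ∂m,
    ((∃ c : ℂ, N + κ • K = c • 1) ∨ HasHyp (N + κ • K)) ∧ LocV (N + κ • K) ∧
      LocV (ad (N + κ • K)) := by
  obtain ⟨s, u, v, hu, hv, hs, hsum, hK⟩ := hK
  obtain ⟨S, κ, hS, h1, h2⟩ := kap hs hsum
  have hs2 : Summable fun j => s j ^ 2 := by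
    refine Summable.of_nonneg_of_le (fun j => by positivity) (fun j => ?_) hsum
    have := abs_nonneg (Real.log (s j))
    nlinarith [sq_nonneg (s j)]
  have hT := hs_sum hu hv hs hs2 hK
  exact main (FC_rc (nc_fc N hN)) (pt_of_hs (nc_fc N hN) (nc_star N hN) hu hv hs hS h1 h2 hT)
    (compact_of_sum hT) hm

end Pool.Agent.N812.IS
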