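import Pool.Agent.N812.IS.Hs

/-!
# Normal operators: perturbations of the class `∑ s² (1 + |log s|) < ∞`
-/

set_option autoImplicit false

namespace Pool.Agent.N812.IS

open MeasureTheory Set Metric Filter Topology
open Pool.Agent.R276.CP
open Pool.Agent.Y271.RO (Bd ht)
open Pool.Agent.R277.SP
open Pool.Agent.Y283.NK (HasHyp)
open scoped InnerProductSpace ENNReal NNReal ComplexConjugate

variable {H : Type} [NormedAddCommGroup H] [InnerProductSpace ℂ H] [CompleteSpace H] {K : Set ℂ}
  [CompactSpace K] {Φ : C(K, ℂ) →ₐ[ℂ] (H →L[ℂ] H)} {N : H →L[ℂ] H} {M : ℝ}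

/-- the vectors -/
noncomputable def uu (e : ℕ → H) (s : ℕ → ℝ) (j : ℕ) : H := ((Real.sqrt (s j) : ℝ) : ℂ) • e j

/-- the functionals -/
noncomputable def vv (e : ℕ → H) (s : ℕ → ℝ) (j : ℕ) : H →L[ℂ] ℂ :=
  ((Real.sqrt (s j) : ℝ) : ℂ) • innerSL ℂ (e j)

lemma rl_wt (κ : ℕ → ℕ) (j : ℕ) : rl (κ j) ≤ wt κ j := by
  unfold rl wt
  have h1 : (1 / 16 : ℝ) ^ κ j ≤ (1 / 4 : ℝ) ^ κ j :=
    pow_le_pow_left₀ (by norm_num) (by norm_num) _
  have : (0 : ℝ) ≤ (1 / 4 : ℝ) ^ κ j * κ j := by positivity
  nlinarith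

lemma rl_max (κ : ℕ → ℕ) (i j : ℕ) : rl (max (κ i) (κ j)) ≤ wt κ i * wt κ j := by
  have h0 : ∀ a : ℕ, (1 / 4 : ℝ) ^ a ≤ (1 / 4 : ℝ) ^ a * (1 + a) := by
    intro a
    have : (0 : ℝ) ≤ (1 / 4 : ℝ) ^ a * a := by positivity
    nlinarith
  have h1 : rl (max (κ i) (κ j)) ≤ (1 / 4 : ℝ) ^ κ i * (1 / 4 : ℝ) ^ κ j := by
    unfold rl
    rw [← pow_add]
    calc (1 / 16 : ℝ) ^ max (κ i) (κ j) = (1 / 4 : ℝ) ^ (2 * max (κ i) (κ j)) := by
          rw [pow_mul]; norm_num
      _ ≤ (1 / 4 : ℝ) ^ (κ i + κ j) := by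
          refine pow_le_pow_of_le_one (by norm_num) (by norm_num) ?_
          have := le_max_left (κ i) (κ j)
          have := le_max_right (κ i) (κ j)
          omega
  refine h1.trans ?_
  unfold wt
  exact mul_le_mul (h0 _) (h0 _) (by positivity) (by positivity)

theorem pt_of_hs (hF : FC Φ N M) (hst : ∀ h, Φ (star h) = ContinuousLinearMap.adjoint (Φ h))
    {e e' : ℕ → H} (he : Orthonormal ℂ e) (he' : Orthonormal ℂ e') {s : ℕ → ℝ}
    (hs0 : ∀ j, 0 ≤ s j) {S : ℝ} {κ : ℕ → ℕ} (hS : 0 < S) (hs : ∀ j, s j ≤ S * (1 / 2 : ℝ) ^ κ j)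
    (hκ : Summable (wt κ)) {T : H →L[ℂ] H}
    (hT : HasSum (fun j => (vv e' s j).smulRight (uu e s j)) T) :
    Pt (fF hF) (uu e s) (vv e' s) T := by
  obtain ⟨C, hC0, hC⟩ := near_int hF
  set S1 : ℝ := Real.sqrt S with hS1
  have hS10 : 0 ≤ S1 := Real.sqrt_nonneg _
  have hσ0 : ∀ j, 0 ≤ Real.sqrt (s j) := fun j => Real.sqrt_nonneg _
  have hσ2 : ∀ j, Real.sqrt (s j) ^ 2 = s j := fun j => Real.sq_sqrt (hs0 j)
  have hσS : ∀ j, Real.sqrt (s j) ≤ S1 := by
    intro j
    refine Real.sqrt_le_sqrt ((hs j).trans ?_)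
    have h1 : (1 / 2 : ℝ) ^ κ j ≤ 1 := pow_le_one₀ (by norm_num) (by norm_num)
    nlinarith
  have hun : ∀ j, ‖uu e s j‖ = Real.sqrt (s j) := by
    intro j
    unfold uu
    rw [norm_smul, Complex.norm_real, Real.norm_of_nonneg (hσ0 j), he.1 j, mul_one]
  have hvn : ∀ j, ‖vv e' s j‖ = Real.sqrt (s j) := by
    intro j
    unfold vv
    rw [norm_smul, Complex.norm_real, Real.norm_of_nonneg (hσ0 j), innerSL_apply_norm, he'.1 j,
      mul_one]
  have hfm : ∀ l y x, Measurable fun z => far hF l y x z := fun l y x =>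
    (far_cont hF l y x).measurable
  have hnm : ∀ l y x, Measurable fun z => fF hF y x z - far hF l y x z := fun l y x =>
    (fF_meas hF y x).sub (hfm l y x)
  -- the sums over the vectors
  have hb := grp_tails he hκ
    (a := fun (y : H →L[ℂ] ℂ) z j => far hF (κ j) y (uu e s j) z)
    (b := fun (y : H →L[ℂ] ℂ) z j => fF hF y (uu e s j) z - far hF (κ j) y (uu e s j) z)
    (fun y j => hfm _ _ _) (fun y j => hnm _ _ _) (w := fun y => ‖y‖) (fun y => norm_nonneg _)
    (P := fun y l z => ContinuousLinearMap.adjoint (Φ (kz K l z))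
      ((InnerProductSpace.toDual ℂ H).symm y))
    (fun y l => far_cont'' l hF _) (S := S) (D := C * S1) hS.le (by positivity)
    (fun R => by
      obtain ⟨A, hA, h⟩ := far_int' hF hst R
      refine ⟨A, hA, fun y l => ?_⟩
      have := h l ((InnerProductSpace.toDual ℂ H).symm y)
      rwa [LinearIsometryEquiv.norm_map] at this)
    (fun y z j => by
      set w0 := (InnerProductSpace.toDual ℂ H).symm y with hw0
      have h1 : far hF (κ j) y (uu e s j) z =
          ((Real.sqrt (s j) : ℝ) : ℂ) * ⟪ContinuousLinearMap.adjoint (Φ (kz K (κ j) z)) w0, e j⟫_ℂ := by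
        unfold far
        rw [Lf_apply, uu, map_smul, map_smul, smul_eq_mul, ContinuousLinearMap.adjoint_inner_left,
          hw0, InnerProductSpace.toDual_symm_apply]
      rw [h1, norm_mul, mul_pow, Complex.norm_real, Real.norm_of_nonneg (hσ0 j), hσ2,
        norm_inner_symm, ← mul_assoc]
      exact mul_le_mul_of_nonneg_right (hs j) (by positivity))
    (fun y R j => by
      refine (hC (κ j) y (uu e s j) R).trans (ENNReal.ofReal_le_ofReal ?_)
      rw [hun]
      calc C * rl (κ j) * (‖y‖ * Real.sqrt (s j)) ≤ C * wt κ j * (‖y‖ * S1) := by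
            have := rl_wt κ j
            have := rl_pos (κ j)
            have := wt_nonneg κ j
            gcongr
            exact hσS j
        _ = C * S1 * ‖y‖ * wt κ j := by ring)
  have hc := grp_tails he' hκ
    (a := fun (x : H) z j => far hF (κ j) (vv e' s j) x z)
    (b := fun (x : H) z j => fF hF (vv e' s j) x z - far hF (κ j) (vv e' s j) x z)
    (fun y j => hfm _ _ _) (fun y j => hnm _ _ _) (w := fun y => ‖y‖) (fun y => norm_nonneg _)
    (P := fun x l z => Φ (kz K l z) x)
    (fun y l => far_cont' l hF _) (S := S) (D := C * S1) hS.le (by positivity)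
    (fun R => by
      obtain ⟨A, hA, h⟩ := far_int hF hst R
      exact ⟨A, hA, fun x l => h l x⟩)
    (fun x z j => by
      have h1 : far hF (κ j) (vv e' s j) x z =
          ((Real.sqrt (s j) : ℝ) : ℂ) * ⟪e' j, Φ (kz K (κ j) z) x⟫_ℂ := rfl
      rw [h1, norm_mul, mul_pow, Complex.norm_real, Real.norm_of_nonneg (hσ0 j), hσ2, ← mul_assoc]
      exact mul_le_mul_of_nonneg_right (hs j) (by positivity))
    (fun x R j => by
      refine (hC (κ j) (vv e' s j) x R).trans (ENNReal.ofReal_le_ofReal ?_)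
      rw [hvn]
      calc C * rl (κ j) * (Real.sqrt (s j) * ‖x‖) ≤ C * wt κ j * (S1 * ‖x‖) := by
            have := rl_wt κ j
            have := rl_pos (κ j)
            have := wt_nonneg κ j
            gcongr
            exact hσS j
        _ = C * S1 * ‖x‖ * wt κ j := by ring)
  simp only [add_sub_cancel] at hb hc
  refine ⟨fun x => ?_, fun y => ?_, fun R => ?_, hb.1, hb.2, hc.1, hc.2⟩
  · have h1 := hT.mapL (ContinuousLinearMap.apply ℂ H x)
    exact h1.tendsto_sum_nat
  · have h1 := hT.mapL ((ContinuousLinearMap.compL ℂ H H ℂ) y)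
    have h2 := h1.tendsto_sum_nat
    refine h2.congr fun n => Finset.sum_congr rfl fun j _ => ?_
    ext x
    simp [mul_comm]
  · -- the matrix
    obtain ⟨A, hA, hAi⟩ := far_int hF hst R
    obtain ⟨A', hA', hAi'⟩ := far_int' hF hst R
    set G1 : ℕ → ℂ → ℝ≥0∞ := fun j z => ∑' i, (if κ j ≤ κ i then ENNReal.ofReal
      ((1 / 2 : ℝ) ^ κ i * ‖⟪e' i, Φ (kz K (κ i) z) (e j)⟫_ℂ‖ ^ 2) else 0) with hG1
    set G2 : ℕ → ℂ → ℝ≥0∞ := fun i z => ∑' j, (if κ i ≤ κ j then ENNReal.ofReal
      ((1 / 2 : ℝ) ^ κ j * ‖⟪e j, ContinuousLinearMap.adjoint (Φ (kz K (κ j) z)) (e' i)⟫_ℂ‖ ^ 2)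
      else 0) with hG2
    have hG1m : ∀ j, Measurable (G1 j) := by
      intro j
      refine Measurable.tsum fun i => ?_
      split_ifs
      · refine Measurable.ennreal_ofReal (Continuous.measurable ?_)
        exact continuous_const.mul ((continuous_const.inner (far_cont' (κ i) hF (e j))).norm.pow 2)
      · exact measurable_const
    have hG2m : ∀ i, Measurable (G2 i) := by
      intro i
      refine Measurable.tsum fun j => ?_
      split_ifs
      · refine Measurable.ennreal_ofReal (Continuous.measurable ?_)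
        exact continuous_const.mul ((continuous_const.inner (far_cont'' (κ j) hF (e' i))).norm.pow 2)
      · exact measurable_const
    have hG1i : ∀ j, ∫⁻ z in ball (0:ℂ) R, G1 j z ≤ ENNReal.ofReal (A * c0 * gk (κ j)) := by
      intro j
      refine bessel_group he' κ (P := fun l z => Φ (kz K l z) (e j))
        (fun l => far_cont' l hF _) hA (fun l => ?_) (κ j)
      have := hAi l (e j)
      rwa [he.1 j, one_pow, mul_one] at this
    have hG2i : ∀ i, ∫⁻ z in ball (0:ℂ) R, G2 i z ≤ ENNReal.ofReal (A' * c0 * gk (κ i)) := by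
      intro i
      refine bessel_group he κ
        (P := fun l z => ContinuousLinearMap.adjoint (Φ (kz K l z)) (e' i))
        (fun l => far_cont'' l hF _) hA' (fun l => ?_) (κ i)
      have := hAi' l (e' i)
      rwa [he'.1 i, one_pow, mul_one] at this
    have hm1 : ∀ i j, Measurable fun z => ENNReal.ofReal (4 *
        ‖fF hF (vv e' s i) (uu e s j) z -
          far hF (max (κ i) (κ j)) (vv e' s i) (uu e s j) z‖) := fun i j =>
      ((hnm _ _ _).norm.const_mul 4).ennreal_ofReal
    -- the pointwise bound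
    have hpt : ∀ z i j, ENNReal.ofReal (ps ‖fF hF (vv e' s i) (uu e s j) z‖) ≤
        (ENNReal.ofReal (4 * S ^ 2 * (1 / 2 : ℝ) ^ κ j) * (if κ j ≤ κ i then ENNReal.ofReal
          ((1 / 2 : ℝ) ^ κ i * ‖⟪e' i, Φ (kz K (κ i) z) (e j)⟫_ℂ‖ ^ 2) else 0) +
        ENNReal.ofReal (4 * S ^ 2 * (1 / 2 : ℝ) ^ κ i) * (if κ i ≤ κ j then ENNReal.ofReal
          ((1 / 2 : ℝ) ^ κ j *
            ‖⟪e j, ContinuousLinearMap.adjoint (Φ (kz K (κ j) z)) (e' i)⟫_ℂ‖ ^ 2) else 0)) +
        ENNReal.ofReal (4 * ‖fF hF (vv e' s i) (uu e s j) z -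
          far hF (max (κ i) (κ j)) (vv e' s i) (uu e s j) z‖) := by
      intro z i j
      set f1 := far hF (max (κ i) (κ j)) (vv e' s i) (uu e s j) z with hf1
      have h1 := ps_split f1 (fF hF (vv e' s i) (uu e s j) z - f1)
      rw [add_sub_cancel] at h1
      refine (ENNReal.ofReal_le_ofReal h1).trans ?_
      rw [ENNReal.ofReal_add (by positivity) (by positivity)]
      refine add_le_add ?_ le_rfl
      have hsij : s i * s j ≤ S ^ 2 * ((1 / 2 : ℝ) ^ κ i * (1 / 2 : ℝ) ^ κ j) := by
        calc s i * s j ≤ (S * (1 / 2 : ℝ) ^ κ i) * (S * (1 / 2 : ℝ) ^ κ j) :=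
              mul_le_mul (hs i) (hs j) (hs0 j) (by positivity)
          _ = _ := by ring
      have hf2 : ‖f1‖ ^ 2 = s i * s j *
          ‖⟪e' i, Φ (kz K (max (κ i) (κ j)) z) (e j)⟫_ℂ‖ ^ 2 := by
        have h2 : f1 = ((Real.sqrt (s i) : ℝ) : ℂ) * (((Real.sqrt (s j) : ℝ) : ℂ) *
            ⟪e' i, Φ (kz K (max (κ i) (κ j)) z) (e j)⟫_ℂ) := by
          rw [hf1]
          unfold far
          rw [Lf_apply, uu, map_smul, map_smul, smul_eq_mul, vv, smul_apply, smul_eq_mul,
            innerSL_apply_apply]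
          ring
        rw [h2, norm_mul, norm_mul, Complex.norm_real, Complex.norm_real,
          Real.norm_of_nonneg (hσ0 i), Real.norm_of_nonneg (hσ0 j), mul_pow, mul_pow, hσ2, hσ2,
          mul_assoc]
      rcases le_total (κ j) (κ i) with hij | hij
      · refine le_trans ?_ le_self_add
        rw [if_pos hij, ← ENNReal.ofReal_mul (by positivity)]
        refine ENNReal.ofReal_le_ofReal ?_
        rw [hf2, max_eq_left hij]
        have h3 := mul_le_mul_of_nonneg_right hsij
          (sq_nonneg ‖⟪e' i, Φ (kz K (κ i) z) (e j)⟫_ℂ‖)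
        nlinarith
      · refine le_trans ?_ le_add_self
        rw [if_pos hij, ← ENNReal.ofReal_mul (by positivity)]
        refine ENNReal.ofReal_le_ofReal ?_
        rw [hf2, max_eq_right hij]
        have h4 : ‖⟪e j, ContinuousLinearMap.adjoint (Φ (kz K (κ j) z)) (e' i)⟫_ℂ‖ =
            ‖⟪e' i, Φ (kz K (κ j) z) (e j)⟫_ℂ‖ := by
          rw [norm_inner_symm, ContinuousLinearMap.adjoint_inner_left]
        rw [h4]
        have h3 := mul_le_mul_of_nonneg_right hsij
          (sq_nonneg ‖⟪e' i, Φ (kz K (κ j) z) (e j)⟫_ℂ‖)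
        nlinarith
    have hsumwt : ∀ a : ℝ, 0 ≤ a → ∑' j, ENNReal.ofReal (a * wt κ j) < ⊤ := by
      intro a ha
      rw [← ENNReal.ofReal_tsum_of_nonneg (fun j => mul_nonneg ha (wt_nonneg κ j))
        (hκ.mul_left a)]
      exact ENNReal.ofReal_lt_top
    have hgk : ∀ j, (1 / 2 : ℝ) ^ κ j * gk (κ j) = wt κ j := by
      intro j
      unfold gk wt
      rw [← mul_assoc, ← mul_pow]
      norm_num
    unfold Xi
    calc ∫⁻ z in ball (0:ℂ) R, ∑' j, ∑' i, ENNReal.ofReal (ps ‖fF hF (vv e' s i) (uu e s j) z‖)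
        ≤ ∫⁻ z in ball (0:ℂ) R,
            ((∑' j, ENNReal.ofReal (4 * S ^ 2 * (1 / 2 : ℝ) ^ κ j) * G1 j z +
            ∑' i, ENNReal.ofReal (4 * S ^ 2 * (1 / 2 : ℝ) ^ κ i) * G2 i z) +
            ∑' j, ∑' i, ENNReal.ofReal (4 * ‖fF hF (vv e' s i) (uu e s j) z -
              far hF (max (κ i) (κ j)) (vv e' s i) (uu e s j) z‖)) := by
          refine lintegral_mono fun z => ?_
          refine (ENNReal.tsum_le_tsum fun j => ENNReal.tsum_le_tsum fun i => hpt z i j).trans ?_
          simp_rw [ENNReal.tsum_add]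
          refine add_le_add (add_le_add ?_ ?_) le_rfl
          · refine ENNReal.tsum_le_tsum fun j => ?_
            rw [ENNReal.tsum_mul_left]
          · rw [ENNReal.tsum_comm]
            refine ENNReal.tsum_le_tsum fun i => ?_
            rw [ENNReal.tsum_mul_left]
      _ = ((∑' j, ∫⁻ z in ball (0:ℂ) R, ENNReal.ofReal (4 * S ^ 2 * (1 / 2 : ℝ) ^ κ j) * G1 j z) +
            ∑' i, ∫⁻ z in ball (0:ℂ) R,
              ENNReal.ofReal (4 * S ^ 2 * (1 / 2 : ℝ) ^ κ i) * G2 i z) +
            ∑' j, ∑' i, ∫⁻ z in ball (0:ℂ) R,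
              ENNReal.ofReal (4 * ‖fF hF (vv e' s i) (uu e s j) z -
              far hF (max (κ i) (κ j)) (vv e' s i) (uu e s j) z‖) := by
          have q1 : Measurable fun z => ∑' j, ENNReal.ofReal (4 * S ^ 2 * (1 / 2 : ℝ) ^ κ j) *
              G1 j z := Measurable.tsum fun j => (hG1m j).const_mul _
          have q2 : Measurable fun z => ∑' i, ENNReal.ofReal (4 * S ^ 2 * (1 / 2 : ℝ) ^ κ i) *
              G2 i z := Measurable.tsum fun j => (hG2m j).const_mul _
          have q12 : Measurable fun z => (∑' j, ENNReal.ofReal (4 * S ^ 2 * (1 / 2 : ℝ) ^ κ j) *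
              G1 j z) + (∑' i, ENNReal.ofReal (4 * S ^ 2 * (1 / 2 : ℝ) ^ κ i) * G2 i z) :=
            q1.add q2
          rw [lintegral_add_left q12, lintegral_add_left q1,
            lintegral_tsum fun j => ((hG1m j).const_mul _).aemeasurable,
            lintegral_tsum fun j => ((hG2m j).const_mul _).aemeasurable,
            lintegral_tsum fun j => (Measurable.tsum fun i => hm1 i j).aemeasurable]
          congr 1
          exact tsum_congr fun j => lintegral_tsum fun i => (hm1 i j).aemeasurable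
      _ ≤ ((∑' j, ENNReal.ofReal (4 * S ^ 2 * (A * c0) * wt κ j)) +
            ∑' i, ENNReal.ofReal (4 * S ^ 2 * (A' * c0) * wt κ i)) +
            ∑' j, ∑' i, ENNReal.ofReal (4 * (C * (S1 * S1))) *
              (ENNReal.ofReal (wt κ i) * ENNReal.ofReal (wt κ j)) := by
          have hc0 := c0_nonneg
          refine add_le_add (add_le_add (ENNReal.tsum_le_tsum fun j => ?_)
            (ENNReal.tsum_le_tsum fun i => ?_))
            (ENNReal.tsum_le_tsum fun j => ENNReal.tsum_le_tsum fun i => ?_)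
          · rw [lintegral_const_mul' _ _ ENNReal.ofReal_ne_top]
            refine (mul_le_mul' le_rfl (hG1i j)).trans (le_of_eq ?_)
            rw [← ENNReal.ofReal_mul (by positivity), ← hgk j]
            congr 1
            ring
          · rw [lintegral_const_mul' _ _ ENNReal.ofReal_ne_top]
            refine (mul_le_mul' le_rfl (hG2i i)).trans (le_of_eq ?_)
            rw [← ENNReal.ofReal_mul (by positivity), ← hgk i]
            congr 1
            ring
          · have h5 : ∀ z, ENNReal.ofReal (4 * ‖fF hF (vv e' s i) (uu e s j) z -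
              far hF (max (κ i) (κ j)) (vv e' s i) (uu e s j) z‖) = ENNReal.ofReal 4 *
                ENNReal.ofReal (‖fF hF (vv e' s i) (uu e s j) z -
              far hF (max (κ i) (κ j)) (vv e' s i) (uu e s j) z‖) := fun z =>
              ENNReal.ofReal_mul (by norm_num)
            simp_rw [h5]
            rw [lintegral_const_mul' _ _ ENNReal.ofReal_ne_top]
            refine (mul_le_mul' le_rfl (hC (max (κ i) (κ j)) (vv e' s i) (uu e s j) R)).trans ?_
            rw [← ENNReal.ofReal_mul (by norm_num), ← ENNReal.ofReal_mul (wt_nonneg κ i),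
              ← ENNReal.ofReal_mul (by positivity)]
            refine ENNReal.ofReal_le_ofReal ?_
            rw [hun, hvn]
            have h6 := rl_max κ i j
            have h7 := rl_pos (max (κ i) (κ j))
            calc 4 * (C * rl (max (κ i) (κ j)) * (Real.sqrt (s i) * Real.sqrt (s j)))
                ≤ 4 * (C * (wt κ i * wt κ j) * (S1 * S1)) := by
                  have := wt_nonneg κ i
                  have := wt_nonneg κ j
                  gcongr
                  · exact hσS i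
                  · exact hσS j
              _ = _ := by ring
      _ < ⊤ := by
          have hc0 := c0_nonneg
          refine ENNReal.add_lt_top.2 ⟨ENNReal.add_lt_top.2 ⟨hsumwt _ (by positivity),
            hsumwt _ (by positivity)⟩, ?_⟩
          have h7 : ∑' i, ENNReal.ofReal (wt κ i) < ⊤ := by
            have := hsumwt 1 zero_le_one
            simpa using this
          have h8 : ∑' j, ∑' i, ENNReal.ofReal (4 * (C * (S1 * S1))) *
              (ENNReal.ofReal (wt κ i) * ENNReal.ofReal (wt κ j)) =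
              ENNReal.ofReal (4 * (C * (S1 * S1))) *
                ((∑' i, ENNReal.ofReal (wt κ i)) * ∑' j, ENNReal.ofReal (wt κ j)) := by
            simp_rw [ENNReal.tsum_mul_left, ENNReal.tsum_mul_right, ENNReal.tsum_mul_left]
          rw [h8]
          exact ENNReal.mul_lt_top ENNReal.ofReal_lt_top (ENNReal.mul_lt_top h7 h7)

end Pool.Agent.N812.IS
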