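import Pool.Agent.N812.IS.Hb

/-!
# Normal operators: the Bessel inequality on dyadic blocks
-/

set_option autoImplicit false

namespace Pool.Agent.N812.IS

open MeasureTheory Set Metric Filter Topology
open Pool.Agent.R276.CP
open Pool.Agent.Y271.RO (Bd ht)
open Pool.Agent.R277.SP
open scoped InnerProductSpace ENNReal NNReal ComplexConjugate

/-- a constant -/
noncomputable def c0 : ℝ := ∑' m : ℕ, (1 / 2 : ℝ) ^ m * (1 + m)

lemma c0_summable : Summable fun m : ℕ => (1 / 2 : ℝ) ^ m * (1 + (m : ℝ)) := by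
  have h1 : Summable fun j : ℕ => (1 / 2 : ℝ) ^ j := summable_geometric_of_lt_one (by norm_num)
    (by norm_num)
  have h2 : Summable fun j : ℕ => (j : ℝ) * (1 / 2 : ℝ) ^ j := by
    have := summable_pow_mul_geometric_of_norm_lt_one 1 (r := (1 / 2 : ℝ)) (by norm_num)
    simpa using this
  refine (h1.add h2).congr fun j => ?_
  ring

lemma c0_nonneg : 0 ≤ c0 := tsum_nonneg fun m => by positivity

/-- the tail sums -/
noncomputable def gk (k : ℕ) : ℝ := (1 / 2 : ℝ) ^ k * (1 + k)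

lemma gk_nonneg (k : ℕ) : 0 ≤ gk k := by unfold gk; positivity

lemma gk_lim : Tendsto gk atTop (𝓝 0) := c0_summable.tendsto_atTop_zero

lemma geo_tail (k : ℕ) {A : ℝ} (hA : 0 ≤ A) :
    ∑' l : ℕ, (if k ≤ l then ENNReal.ofReal ((1 / 2 : ℝ) ^ l * (A * (1 + l))) else 0) ≤
      ENNReal.ofReal (A * c0 * gk k) := by
  rw [← Summable.sum_add_tsum_nat_add' (k := k) ENNReal.summable,
    Finset.sum_eq_zero fun j hj => if_neg (by
      have := Finset.mem_range.1 hj
      omega), zero_add]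
  calc ∑' m : ℕ, (if k ≤ m + k then
        ENNReal.ofReal ((1 / 2 : ℝ) ^ (m + k) * (A * (1 + ((m + k : ℕ) : ℝ)))) else 0)
      ≤ ∑' m : ℕ, ENNReal.ofReal (A * gk k) * ENNReal.ofReal ((1 / 2 : ℝ) ^ m * (1 + m)) := by
        refine ENNReal.tsum_le_tsum fun m => ?_
        rw [if_pos (Nat.le_add_left k m), ← ENNReal.ofReal_mul (mul_nonneg hA (gk_nonneg k))]
        refine ENNReal.ofReal_le_ofReal ?_
        unfold gk
        push_cast
        rw [pow_add]
        have h1 : (0 : ℝ) ≤ A * ((1 / 2 : ℝ) ^ m * (1 / 2 : ℝ) ^ k) := by positivity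
        have h2 : (0 : ℝ) ≤ (m : ℝ) * k := by positivity
        have h3 := mul_nonneg h1 h2
        have h4 : A * ((1 / 2 : ℝ) ^ k * (1 + (k : ℝ))) * ((1 / 2 : ℝ) ^ m * (1 + (m : ℝ))) =
          (1 / 2 : ℝ) ^ m * (1 / 2 : ℝ) ^ k * (A * (1 + ((m : ℝ) + k))) +
            A * ((1 / 2 : ℝ) ^ m * (1 / 2 : ℝ) ^ k) * ((m : ℝ) * k) := by ring
        linarith
    _ = ENNReal.ofReal (A * c0 * gk k) := by
        rw [ENNReal.tsum_mul_left, ← ENNReal.ofReal_tsum_of_nonneg (fun m => by positivity)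
          c0_summable, ← ENNReal.ofReal_mul (mul_nonneg hA (gk_nonneg k))]
        congr 1
        unfold c0
        ring

section

variable {H : Type} [NormedAddCommGroup H] [InnerProductSpace ℂ H]

lemma bessel_tsum {e : ℕ → H} (he : Orthonormal ℂ e) (x : H) :
    ∑' i, ENNReal.ofReal (‖⟪e i, x⟫_ℂ‖ ^ 2) ≤ ENNReal.ofReal (‖x‖ ^ 2) := by
  rw [← ENNReal.ofReal_tsum_of_nonneg (fun i => by positivity) (he.inner_products_summable x)]
  exact ENNReal.ofReal_le_ofReal (he.tsum_inner_products_le x)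

/-- Bessel's inequality on the blocks -/
theorem bessel_group {e : ℕ → H} (he : Orthonormal ℂ e) (κ : ℕ → ℕ) {P : ℕ → ℂ → H}
    (hP : ∀ l, Continuous (P l)) {R A : ℝ} (hA : 0 ≤ A)
    (hPA : ∀ l, ∫⁻ z in ball (0:ℂ) R, ENNReal.ofReal (‖P l z‖ ^ 2) ≤
      ENNReal.ofReal (A * (1 + l))) (k : ℕ) :
    ∫⁻ z in ball (0:ℂ) R, ∑' i, (if k ≤ κ i then
      ENNReal.ofReal ((1 / 2 : ℝ) ^ κ i * ‖⟪e i, P (κ i) z⟫_ℂ‖ ^ 2) else 0) ≤
      ENNReal.ofReal (A * c0 * gk k) := by
  have hpt : ∀ z, ∑' i, (if k ≤ κ i then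
      ENNReal.ofReal ((1 / 2 : ℝ) ^ κ i * ‖⟪e i, P (κ i) z⟫_ℂ‖ ^ 2) else 0) ≤
      ∑' l : ℕ, (if k ≤ l then ENNReal.ofReal ((1 / 2 : ℝ) ^ l) *
        ENNReal.ofReal (‖P l z‖ ^ 2) else 0) := by
    intro z
    calc ∑' i, (if k ≤ κ i then
          ENNReal.ofReal ((1 / 2 : ℝ) ^ κ i * ‖⟪e i, P (κ i) z⟫_ℂ‖ ^ 2) else 0)
        = ∑' i, ∑' l, (if l = κ i then (if k ≤ l then
          ENNReal.ofReal ((1 / 2 : ℝ) ^ l * ‖⟪e i, P l z⟫_ℂ‖ ^ 2) else 0) else 0) := by
          refine tsum_congr fun i => ?_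
          rw [tsum_ite_eq]
      _ = ∑' l, ∑' i, (if l = κ i then (if k ≤ l then
          ENNReal.ofReal ((1 / 2 : ℝ) ^ l * ‖⟪e i, P l z⟫_ℂ‖ ^ 2) else 0) else 0) :=
          ENNReal.tsum_comm
      _ ≤ _ := by
          refine ENNReal.tsum_le_tsum fun l => ?_
          by_cases hl : k ≤ l
          · simp only [if_pos hl]
            calc ∑' i, (if l = κ i then
                  ENNReal.ofReal ((1 / 2 : ℝ) ^ l * ‖⟪e i, P l z⟫_ℂ‖ ^ 2) else 0)
                ≤ ∑' i, ENNReal.ofReal ((1 / 2 : ℝ) ^ l) *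
                    ENNReal.ofReal (‖⟪e i, P l z⟫_ℂ‖ ^ 2) := by
                  refine ENNReal.tsum_le_tsum fun i => ?_
                  split_ifs
                  · rw [ENNReal.ofReal_mul (by positivity)]
                  · exact bot_le
              _ = ENNReal.ofReal ((1 / 2 : ℝ) ^ l) *
                    ∑' i, ENNReal.ofReal (‖⟪e i, P l z⟫_ℂ‖ ^ 2) := ENNReal.tsum_mul_left
              _ ≤ _ := mul_le_mul' le_rfl (bessel_tsum he _)
          · simp only [if_neg hl, ite_self, tsum_zero]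
            exact le_rfl
  have hm : ∀ l : ℕ, Measurable fun z => (if k ≤ l then ENNReal.ofReal ((1 / 2 : ℝ) ^ l) *
        ENNReal.ofReal (‖P l z‖ ^ 2) else 0) := by
    intro l
    split_ifs
    · exact (((hP l).norm.pow 2).measurable.ennreal_ofReal).const_mul _
    · exact measurable_const
  calc _ ≤ ∫⁻ z in ball (0:ℂ) R, ∑' l : ℕ, (if k ≤ l then ENNReal.ofReal ((1 / 2 : ℝ) ^ l) *
        ENNReal.ofReal (‖P l z‖ ^ 2) else 0) := lintegral_mono hpt
    _ = ∑' l : ℕ, ∫⁻ z in ball (0:ℂ) R, (if k ≤ l then ENNReal.ofReal ((1 / 2 : ℝ) ^ l) *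
        ENNReal.ofReal (‖P l z‖ ^ 2) else 0) := lintegral_tsum fun l => (hm l).aemeasurable
    _ ≤ ∑' l : ℕ, (if k ≤ l then ENNReal.ofReal ((1 / 2 : ℝ) ^ l * (A * (1 + l))) else 0) := by
        refine ENNReal.tsum_le_tsum fun l => ?_
        by_cases hl : k ≤ l
        · simp only [if_pos hl]
          rw [lintegral_const_mul' _ _ ENNReal.ofReal_ne_top, ENNReal.ofReal_mul (by positivity)]
          exact mul_le_mul' le_rfl (hPA l)
        · simp only [if_neg hl, lintegral_zero]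
          exact le_rfl
    _ ≤ _ := geo_tail k hA

end

/-! ### uniform tails -/

/-- homogeneous form -/
theorem nn_hom2 {a : ℂ → ℕ → ℂ} (ha : ∀ j, Measurable fun z => a z j) {R w l T : ℝ}
    (hl : 0 < l) (hl1 : l ≤ 1) (hT : 0 ≤ T) (n : ℕ)
    (h : ∀ c : ℝ, 0 < c → c * w ≤ 1 →
      ∫⁻ z in ball (0:ℂ) R, ∑' j, ENNReal.ofReal (ps ‖tl n (fun j => (c : ℂ) * a z j) j‖) ≤
        ENNReal.ofReal T) (hw : 0 ≤ w) :
    ∫⁻ z in ball 0 R, nn (tl n (a z)) ≤
      ENNReal.ofReal (w * (l * vb R + 2 * l⁻¹ * T)) := by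
  set Q : ℝ := l * vb R + 2 * l⁻¹ * T with hQ
  have hv := vb_nonneg R
  have key : ∀ w' : ℝ, 0 < w' → w ≤ w' → ∫⁻ z in ball 0 R, nn (tl n (a z)) ≤
      ENNReal.ofReal (w' * Q) := by
    intro w' hw' hww
    set b : ℂ → ℕ → ℂ := fun z j => ((w'⁻¹ : ℝ) : ℂ) * a z j with hb
    have hbm : ∀ j, Measurable fun z => b z j := fun j => (ha j).const_mul _
    have h0 := h w'⁻¹ (by positivity) (by
      rw [inv_mul_le_iff₀ hw', mul_one]
      exact hww)
    have hm : ∀ j, Measurable fun z => ENNReal.ofReal (ps ‖tl n (b z) j‖) := fun j =>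
      (ps_meas.comp (tl_meas hbm n j).norm).ennreal_ofReal
    have h1 : ∫⁻ z in ball 0 R, nn (tl n (b z)) ≤ ENNReal.ofReal Q := by
      calc ∫⁻ z in ball 0 R, nn (tl n (b z))
          ≤ ∫⁻ z in ball 0 R, (ENNReal.ofReal l + ENNReal.ofReal (2 * l⁻¹) *
              ∑' j, ENNReal.ofReal (ps ‖tl n (b z) j‖)) :=
            lintegral_mono fun z => nn_le_ps _ hl hl1
        _ = ENNReal.ofReal l * ENNReal.ofReal (vb R) + ENNReal.ofReal (2 * l⁻¹) *
              ∫⁻ z in ball 0 R, ∑' j, ENNReal.ofReal (ps ‖tl n (b z) j‖) := by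
            rw [lintegral_add_left measurable_const, lintegral_const,
              Measure.restrict_apply_univ, vb_eq, lintegral_const_mul _ (Measurable.tsum hm)]
        _ ≤ ENNReal.ofReal l * ENNReal.ofReal (vb R) + ENNReal.ofReal (2 * l⁻¹) *
              ENNReal.ofReal T := add_le_add le_rfl (mul_le_mul' le_rfl h0)
        _ = ENNReal.ofReal Q := by
            have e2 : ENNReal.ofReal (2 * l⁻¹ * T) =
                ENNReal.ofReal (2 * l⁻¹) * ENNReal.ofReal T := ENNReal.ofReal_mul (by positivity)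
            rw [hQ, ENNReal.ofReal_add (by positivity) (by positivity),
              ENNReal.ofReal_mul hl.le, e2]
    have h2 : ∀ z, nn (tl n (a z)) = ENNReal.ofReal w' * nn (tl n (b z)) := by
      intro z
      have e : tl n (a z) = fun j => (w' : ℂ) * tl n (b z) j := by
        funext j
        simp only [tl, hb]
        split_ifs
        · rw [mul_zero]
        · have : (w' : ℂ) ≠ 0 := by exact_mod_cast hw'.ne'
          push_cast
          rw [← mul_assoc, mul_inv_cancel₀ this, one_mul]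
      rw [e, nn_smul, Complex.norm_real, Real.norm_of_nonneg hw'.le]
    simp_rw [h2]
    rw [lintegral_const_mul' _ _ ENNReal.ofReal_ne_top, ENNReal.ofReal_mul hw'.le]
    exact mul_le_mul' le_rfl h1
  have hlim : Tendsto (fun n : ℕ => ENNReal.ofReal ((w + 1 / ((n : ℝ) + 1)) * Q)) atTop
      (𝓝 (ENNReal.ofReal (w * Q))) := by
    refine ENNReal.tendsto_ofReal ?_
    have h1 : Tendsto (fun n : ℕ => w + 1 / ((n : ℝ) + 1)) atTop (𝓝 (w + 0)) :=
      tendsto_one_div_add_atTop_nhds_zero_nat.const_add w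
    rw [add_zero] at h1
    exact h1.mul_const Q
  exact ge_of_tendsto' hlim fun k => key _ (by positivity) (by
    have : (0 : ℝ) ≤ 1 / ((k : ℝ) + 1) := by positivity
    linarith)

theorem tails2 {ι : Type} {a : ι → ℂ → ℕ → ℂ} (ha : ∀ i j, Measurable fun z => a i z j)
    {w : ι → ℝ} (hw : ∀ i, 0 ≤ w i)
    (h0 : ∀ R : ℝ, ∃ T : ℝ, 0 ≤ T ∧ ∀ i, ∀ c : ℝ, 0 < c → c * w i ≤ 1 →
      ∫⁻ z in ball (0:ℂ) R, ∑' j, ENNReal.ofReal (ps ‖tl 0 (fun j => (c : ℂ) * a i z j) j‖) ≤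
        ENNReal.ofReal T)
    (h1 : ∀ R ε : ℝ, 0 < ε → ∃ n : ℕ, ∀ i, ∀ c : ℝ, 0 < c → c * w i ≤ 1 →
      ∫⁻ z in ball (0:ℂ) R, ∑' j, ENNReal.ofReal (ps ‖tl n (fun j => (c : ℂ) * a i z j) j‖) ≤
        ENNReal.ofReal ε) :
    (∀ R : ℝ, ∃ C : ℝ, 0 ≤ C ∧ ∀ i, ∫⁻ z in ball (0:ℂ) R, nn (a i z) ≤
      ENNReal.ofReal (C * w i)) ∧
    (∀ R ε : ℝ, 0 < ε → ∃ n : ℕ, ∀ i,
      ∫⁻ z in ball (0:ℂ) R, nn (tl n (a i z)) ≤ ENNReal.ofReal (ε * w i)) := by
  refine ⟨fun R => ?_, fun R ε hε => ?_⟩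
  · have hv := vb_nonneg R
    obtain ⟨T, hT, hTi⟩ := h0 R
    refine ⟨1 * vb R + 2 * 1⁻¹ * T, by positivity, fun i => ?_⟩
    have h2 := nn_hom2 (ha i) one_pos le_rfl hT 0 (hTi i) (hw i)
    simp only [tl_zero] at h2
    rw [mul_comm]
    exact h2
  · have hv := vb_nonneg R
    set l : ℝ := min 1 (ε / (2 * (vb R + 1))) with hl
    have hl0 : 0 < l := lt_min one_pos (by positivity)
    have hl1 : l ≤ 1 := min_le_left _ _
    have hlv : l * vb R ≤ ε / 2 := by
      calc l * vb R ≤ ε / (2 * (vb R + 1)) * vb R :=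
            mul_le_mul_of_nonneg_right (min_le_right _ _) hv
        _ = ε / 2 * (vb R / (vb R + 1)) := by field_simp
        _ ≤ ε / 2 * 1 := by
            gcongr
            rw [div_le_one (by positivity)]
            linarith
        _ = ε / 2 := mul_one _
    obtain ⟨n, hn⟩ := h1 R (l * ε / 4) (by positivity)
    refine ⟨n, fun i => ?_⟩
    refine (nn_hom2 (ha i) hl0 hl1 (by positivity) n (hn i) (hw i)).trans
      (ENNReal.ofReal_le_ofReal ?_)
    rw [mul_comm ε]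
    refine mul_le_mul_of_nonneg_left ?_ (hw i)
    have : 2 * l⁻¹ * (l * ε / 4) = ε / 2 := by field_simp; norm_num
    linarith

lemma ps_split (a b : ℂ) : ps ‖a + b‖ ≤ 4 * ‖a‖ ^ 2 + 4 * ‖b‖ := by
  refine (ps_mono (norm_nonneg _) (norm_add_le a b)).trans ?_
  refine (ps_add (norm_nonneg _) (norm_nonneg _)).trans ?_
  have h1 : ps ‖a‖ ≤ ‖a‖ ^ 2 := min_le_right _ _
  have h2 : ps ‖b‖ ≤ ‖b‖ := min_le_left _ _
  linarith

lemma kap_top {κ : ℕ → ℕ} (hκ : Summable (wt κ)) (k : ℕ) : ∃ n, ∀ j, n ≤ j → k ≤ κ j := by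
  have h1 := hκ.tendsto_atTop_zero
  have h2 := h1.eventually_lt_const (show (0 : ℝ) < (1 / 4 : ℝ) ^ k by positivity)
  obtain ⟨n, hn⟩ := eventually_atTop.1 h2
  refine ⟨n, fun j hj => ?_⟩
  by_contra hcon
  push Not at hcon
  have h3 := hn j hj
  have h4 : (1 / 4 : ℝ) ^ k ≤ (1 / 4 : ℝ) ^ κ j :=
    pow_le_pow_of_le_one (by norm_num) (by norm_num) hcon.le
  have h5 : (1 / 4 : ℝ) ^ κ j ≤ wt κ j := by
    unfold wt
    have : (0 : ℝ) ≤ (1 / 4 : ℝ) ^ κ j * κ j := by positivity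
    nlinarith
  linarith

section

variable {H : Type} [NormedAddCommGroup H] [InnerProductSpace ℂ H]

/-- tails of sequences with a far and a near part -/
theorem grp_tails {ι : Type} {e : ℕ → H} (he : Orthonormal ℂ e) {κ : ℕ → ℕ} (hκ : Summable (wt κ))
    {a b : ι → ℂ → ℕ → ℂ} (ha : ∀ i j, Measurable fun z => a i z j)
    (hb : ∀ i j, Measurable fun z => b i z j)
    {w : ι → ℝ} (hw : ∀ i, 0 ≤ w i) {P : ι → ℕ → ℂ → H} (hP : ∀ i l, Continuous (P i l)) {S D : ℝ}
    (hS : 0 ≤ S) (hD : 0 ≤ D)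
    (hPA : ∀ R : ℝ, ∃ A : ℝ, 0 ≤ A ∧ ∀ i l, ∫⁻ z in ball (0:ℂ) R, ENNReal.ofReal (‖P i l z‖ ^ 2) ≤
      ENNReal.ofReal (A * w i ^ 2 * (1 + l)))
    (hfar : ∀ i z j, ‖a i z j‖ ^ 2 ≤ S * ((1 / 2 : ℝ) ^ κ j * ‖⟪e j, P i (κ j) z⟫_ℂ‖ ^ 2))
    (hnear : ∀ i (R : ℝ) j, ∫⁻ z in ball (0:ℂ) R, ENNReal.ofReal ‖b i z j‖ ≤
      ENNReal.ofReal (D * w i * wt κ j)) :
    (∀ R : ℝ, ∃ C : ℝ, 0 ≤ C ∧ ∀ i, ∫⁻ z in ball (0:ℂ) R, nn (fun j => a i z j + b i z j) ≤
      ENNReal.ofReal (C * w i)) ∧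
    (∀ R ε : ℝ, 0 < ε → ∃ n : ℕ, ∀ i,
      ∫⁻ z in ball (0:ℂ) R, nn (tl n (fun j => a i z j + b i z j)) ≤
        ENNReal.ofReal (ε * w i)) := by
  have key : ∀ (R : ℝ), ∃ A : ℝ, 0 ≤ A ∧ ∀ (n k : ℕ), (∀ j, n ≤ j → k ≤ κ j) →
      ∀ i, ∀ c : ℝ, 0 < c → c * w i ≤ 1 →
      ∫⁻ z in ball (0:ℂ) R, ∑' j, ENNReal.ofReal
        (ps ‖tl n (fun j => (c : ℂ) * (a i z j + b i z j)) j‖) ≤
        ENNReal.ofReal (4 * S * (A * c0 * gk k) + 4 * D * ∑' j, wt κ (j + n)) := by
    intro R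
    obtain ⟨A, hA, hAi⟩ := hPA R
    refine ⟨A, hA, fun n k hnk i c hc hcw => ?_⟩
    have hpt : ∀ z, ∑' j, ENNReal.ofReal (ps ‖tl n (fun j => (c : ℂ) * (a i z j + b i z j)) j‖) ≤
        ENNReal.ofReal (4 * S) * (∑' j, (if k ≤ κ j then
          ENNReal.ofReal ((1 / 2 : ℝ) ^ κ j * ‖⟪e j, (c : ℂ) • P i (κ j) z⟫_ℂ‖ ^ 2) else 0)) +
        ∑' j, (if j < n then 0 else ENNReal.ofReal (4 * c) * ENNReal.ofReal ‖b i z j‖) := by
      intro z
      rw [← ENNReal.tsum_mul_left, ← ENNReal.tsum_add]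
      refine ENNReal.tsum_le_tsum fun j => ?_
      by_cases hj : j < n
      · simp [tl, hj, ps_zero]
      · have hkj : k ≤ κ j := hnk j (not_lt.1 hj)
        simp only [tl, hj, if_false, hkj, if_true]
        rw [← ENNReal.ofReal_mul (by positivity), ← ENNReal.ofReal_mul (by positivity),
          ← ENNReal.ofReal_add (by positivity) (by positivity)]
        refine ENNReal.ofReal_le_ofReal ?_
        rw [mul_add]
        refine (ps_split _ _).trans ?_
        rw [norm_mul, norm_mul, Complex.norm_real, Real.norm_of_nonneg hc.le, mul_pow,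
          inner_smul_right, norm_mul, Complex.norm_real, Real.norm_of_nonneg hc.le, mul_pow]
        have h1 := mul_le_mul_of_nonneg_left (hfar i z j) (sq_nonneg c)
        nlinarith
    have hm1 : Measurable fun z => ∑' j, (if k ≤ κ j then
          ENNReal.ofReal ((1 / 2 : ℝ) ^ κ j * ‖⟪e j, (c : ℂ) • P i (κ j) z⟫_ℂ‖ ^ 2) else 0) := by
      refine Measurable.tsum fun j => ?_
      split_ifs
      · refine Measurable.ennreal_ofReal (Continuous.measurable ?_)
        exact continuous_const.mul ((continuous_const.inner ((hP i (κ j)).const_smul _)).norm.pow 2)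
      · exact measurable_const
    have hm2 : ∀ j, Measurable fun z =>
        (if j < n then 0 else ENNReal.ofReal (4 * c) * ENNReal.ofReal ‖b i z j‖) := by
      intro j
      split_ifs
      · exact measurable_const
      · exact ((hb i j).norm.ennreal_ofReal).const_mul _
    have hbes := bessel_group he κ (P := fun l z => (c : ℂ) • P i l z)
      (fun l => (hP i l).const_smul _) (R := R) hA (fun l => by
        have h1 : ∀ z, ENNReal.ofReal (‖(c : ℂ) • P i l z‖ ^ 2) =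
            ENNReal.ofReal (c ^ 2) * ENNReal.ofReal (‖P i l z‖ ^ 2) := by
          intro z
          rw [norm_smul, Complex.norm_real, Real.norm_of_nonneg hc.le, mul_pow,
            ENNReal.ofReal_mul (by positivity)]
        simp_rw [h1]
        rw [lintegral_const_mul' _ _ ENNReal.ofReal_ne_top]
        refine (mul_le_mul' le_rfl (hAi i l)).trans ?_
        rw [← ENNReal.ofReal_mul (by positivity)]
        refine ENNReal.ofReal_le_ofReal ?_
        have h2 : (c * w i) ^ 2 ≤ 1 := by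
          have h3 : 0 ≤ c * w i := mul_nonneg hc.le (hw i)
          nlinarith
        have h3 : 0 ≤ A * (1 + (l : ℝ)) := by positivity
        calc c ^ 2 * (A * w i ^ 2 * (1 + l)) = (c * w i) ^ 2 * (A * (1 + l)) := by ring
          _ ≤ 1 * (A * (1 + l)) := mul_le_mul_of_nonneg_right h2 h3
          _ = _ := one_mul _) k
    calc ∫⁻ z in ball (0:ℂ) R, ∑' j,
            ENNReal.ofReal (ps ‖tl n (fun j => (c : ℂ) * (a i z j + b i z j)) j‖)
        ≤ ∫⁻ z in ball (0:ℂ) R, (ENNReal.ofReal (4 * S) * (∑' j, (if k ≤ κ j then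
          ENNReal.ofReal ((1 / 2 : ℝ) ^ κ j * ‖⟪e j, (c : ℂ) • P i (κ j) z⟫_ℂ‖ ^ 2) else 0)) +
          ∑' j, (if j < n then 0 else ENNReal.ofReal (4 * c) * ENNReal.ofReal ‖b i z j‖)) :=
          lintegral_mono hpt
      _ = ENNReal.ofReal (4 * S) * (∫⁻ z in ball (0:ℂ) R, ∑' j, (if k ≤ κ j then
          ENNReal.ofReal ((1 / 2 : ℝ) ^ κ j * ‖⟪e j, (c : ℂ) • P i (κ j) z⟫_ℂ‖ ^ 2) else 0)) +
          ∑' j, ∫⁻ z in ball (0:ℂ) R,
            (if j < n then 0 else ENNReal.ofReal (4 * c) * ENNReal.ofReal ‖b i z j‖) := by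
          rw [lintegral_add_left (hm1.const_mul _), lintegral_const_mul _ hm1,
            lintegral_tsum fun j => (hm2 j).aemeasurable]
      _ ≤ ENNReal.ofReal (4 * S) * ENNReal.ofReal (A * c0 * gk k) +
          ∑' j, (if j < n then 0 else ENNReal.ofReal (4 * D * wt κ j)) := by
          refine add_le_add (mul_le_mul' le_rfl hbes) (ENNReal.tsum_le_tsum fun j => ?_)
          by_cases hj : j < n
          · simp [hj]
          · simp only [hj, if_false]
            rw [lintegral_const_mul' _ _ ENNReal.ofReal_ne_top]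
            refine (mul_le_mul' le_rfl (hnear i R j)).trans ?_
            rw [← ENNReal.ofReal_mul (by positivity)]
            refine ENNReal.ofReal_le_ofReal ?_
            have h1 : 0 ≤ 4 * D * wt κ j := mul_nonneg (by positivity) (wt_nonneg κ j)
            calc 4 * c * (D * w i * wt κ j) = (c * w i) * (4 * D * wt κ j) := by ring
              _ ≤ 1 * (4 * D * wt κ j) := mul_le_mul_of_nonneg_right hcw h1
              _ = _ := one_mul _
      _ = ENNReal.ofReal (4 * S * (A * c0 * gk k)) +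
          ENNReal.ofReal (4 * D * ∑' j, wt κ (j + n)) := by
          congr 1
          · exact (ENNReal.ofReal_mul (by positivity)).symm
          · rw [← tsum_mul_left, ENNReal.ofReal_tsum_of_nonneg
              (fun j => mul_nonneg (by positivity) (wt_nonneg κ _))
              (((summable_nat_add_iff n).2 hκ).mul_left _),
              ← Summable.sum_add_tsum_nat_add' (k := n)
                (f := fun j => if j < n then 0 else ENNReal.ofReal (4 * D * wt κ j))
                ENNReal.summable]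
            rw [Finset.sum_eq_zero fun j hj => if_pos (Finset.mem_range.1 hj), zero_add]
            refine tsum_congr fun j => ?_
            rw [if_neg (by omega)]
      _ = _ := by
          rw [ENNReal.ofReal_add]
          · have := c0_nonneg
            have := gk_nonneg k
            positivity
          · have : 0 ≤ ∑' j, wt κ (j + n) := tsum_nonneg fun j => wt_nonneg κ _
            positivity
  refine tails2 (fun i j => (ha i j).add (hb i j)) hw (fun R => ?_) (fun R ε hε => ?_)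
  · obtain ⟨A, hA, h⟩ := key R
    refine ⟨4 * S * (A * c0 * gk 0) + 4 * D * ∑' j, wt κ (j + 0), ?_, fun i c hc hcw =>
      h 0 0 (fun j _ => Nat.zero_le _) i c hc hcw⟩
    have := c0_nonneg
    have := gk_nonneg 0
    have : 0 ≤ ∑' j, wt κ (j + 0) := tsum_nonneg fun j => wt_nonneg κ _
    positivity
  · obtain ⟨A, hA, h⟩ := key R
    have hlim1 : Tendsto (fun k => 4 * S * (A * c0 * gk k)) atTop (𝓝 (4 * S * (A * c0 * 0))) :=
      (gk_lim.const_mul _).const_mul _
    rw [mul_zero, mul_zero] at hlim1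
    obtain ⟨k, hk⟩ := (hlim1.eventually_lt_const (show (0 : ℝ) < ε / 2 by positivity)).exists
    have hlim2 : Tendsto (fun n => 4 * D * ∑' j, wt κ (j + n)) atTop (𝓝 (4 * D * 0)) :=
      (tendsto_sum_nat_add (wt κ)).const_mul _
    rw [mul_zero] at hlim2
    obtain ⟨n₀, hn₀⟩ := kap_top hκ k
    obtain ⟨n, hn1, hn2⟩ := ((hlim2.eventually_lt_const (show (0 : ℝ) < ε / 2 by positivity)).and
      (eventually_ge_atTop n₀)).exists
    refine ⟨n, fun i c hc hcw => ?_⟩
    refine (h n k (fun j hj => hn₀ j (hn2.trans hj)) i c hc hcw).trans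
      (ENNReal.ofReal_le_ofReal (by linarith))

end

end Pool.Agent.N812.IS
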