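import Mathlib

/-!
# Functionals on `L¹` of a finite measure, annihilators of subspaces
-/

set_option autoImplicit false

namespace Pool.Agent.N812.IS

open MeasureTheory Set Metric Filter Topology
open scoped ENNReal NNReal ComplexConjugate InnerProductSpace

/-- a functional which vanishes on a closed subspace but not at a given point outside -/
theorem exists_functional {X : Type*} [NormedAddCommGroup X] [NormedSpace ℂ X] (R : Submodule ℂ X)
    (hRc : IsClosed (R : Set X)) {x₀ : X} (hx₀ : x₀ ∉ R) :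
    ∃ f : X →L[ℂ] ℂ, f x₀ ≠ 0 ∧ ∀ y ∈ R, f y = 0 := by
  obtain ⟨f, b, h3, h4⟩ := RCLike.geometric_hahn_banach_point_closed (𝕜 := ℂ)
    (t := (R : Set X)) ((R.restrictScalars ℝ).convex) hRc hx₀
  have h5 : b < 0 := by
    have := h4 0 R.zero_mem
    simpa using this
  refine ⟨f, fun h0 => ?_, fun y hy => ?_⟩
  · rw [h0] at h3
    simp only [map_zero] at h3
    linarith
  · by_contra h0
    have h6 := h4 ((((b - 1 : ℝ) : ℂ) / f y) • y) (R.smul_mem _ hy)
    rw [map_smul, smul_eq_mul, div_mul_cancel₀ _ h0] at h6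
    simp only [RCLike.re_eq_complex_re, Complex.ofReal_re] at h6
    linarith

section

variable {S : Type} [MeasurableSpace S] {μ : Measure S} [IsFiniteMeasure μ]

/-- functionals on `L¹` are represented by bounded functions (on bounded functions) -/
theorem l1_rep (ℓ : Lp ℂ 1 μ →L[ℂ] ℂ) : ∃ G : S → ℂ, Measurable G ∧ (∀ s, ‖G s‖ ≤ ‖ℓ‖) ∧
    ∀ (f : S → ℂ) (h1 : MemLp f 1 μ), MemLp f 2 μ → ℓ (h1.toLp f) = ∫ s, f s * G s ∂μ := by
  classical
  -- the inclusion of L² into L¹
  let i : Lp ℂ 2 μ →ₗ[ℂ] ℂ :=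
    { toFun := fun f => ℓ (((Lp.memLp f).mono_exponent (p := 1) (by norm_num)).toLp f)
      map_add' := fun f g => by
        rw [← map_add]
        congr 1
        apply Lp.ext
        filter_upwards [((Lp.memLp (f + g)).mono_exponent (p := 1) (by norm_num)).coeFn_toLp,
          ((Lp.memLp f).mono_exponent (p := 1) (by norm_num)).coeFn_toLp,
          ((Lp.memLp g).mono_exponent (p := 1) (by norm_num)).coeFn_toLp,
          Lp.coeFn_add (((Lp.memLp f).mono_exponent (p := 1) (by norm_num)).toLp f)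
            (((Lp.memLp g).mono_exponent (p := 1) (by norm_num)).toLp g),
          Lp.coeFn_add f g] with s h1 h2 h3 h4 h5
        rw [h1, h4, h5, Pi.add_apply, Pi.add_apply, h2, h3]
      map_smul' := fun c f => by
        rw [RingHom.id_apply, ← map_smul]
        congr 1
        apply Lp.ext
        filter_upwards [((Lp.memLp (c • f)).mono_exponent (p := 1) (by norm_num)).coeFn_toLp,
          ((Lp.memLp f).mono_exponent (p := 1) (by norm_num)).coeFn_toLp,
          Lp.coeFn_smul c (((Lp.memLp f).mono_exponent (p := 1) (by norm_num)).toLp f),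
          Lp.coeFn_smul c f] with s h1 h2 h3 h4
        rw [h1, h3, h4, Pi.smul_apply, Pi.smul_apply, h2] }
  obtain ⟨K, hK⟩ : ∃ K : ℝ, ∀ f : Lp ℂ 2 μ, ‖i f‖ ≤ K * ‖f‖ := by
    refine ⟨‖ℓ‖ * (μ univ ^ ((1:ℝ≥0∞).toReal⁻¹ - (2:ℝ≥0∞).toReal⁻¹)).toReal, fun f => ?_⟩
    refine (ℓ.le_opNorm _).trans ?_
    rw [mul_assoc]
    refine mul_le_mul_of_nonneg_left ?_ (norm_nonneg _)
    rw [Lp.norm_toLp, Lp.norm_def, ← ENNReal.toReal_mul]
    have h1 := eLpNorm_le_eLpNorm_mul_rpow_measure_univ (μ := μ) (p := 1) (q := 2) (by norm_num)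
      (Lp.aestronglyMeasurable f)
    have hfin : μ univ ^ ((1:ℝ≥0∞).toReal⁻¹ - (2:ℝ≥0∞).toReal⁻¹) * eLpNorm f 2 μ ≠ ⊤ := by
      refine ENNReal.mul_ne_top ?_ (Lp.memLp f).2.ne
      exact ENNReal.rpow_ne_top_of_nonneg (by norm_num) (measure_ne_top _ _)
    refine ENNReal.toReal_mono hfin ?_
    rw [mul_comm]
    simpa using h1
  let L : Lp ℂ 2 μ →L[ℂ] ℂ := i.mkContinuous K hK
  set d : Lp ℂ 2 μ := (InnerProductSpace.toDual ℂ (Lp ℂ 2 μ)).symm L with hd
  have hL : ∀ f : Lp ℂ 2 μ, L f = ∫ s, f s * conj (d s) ∂μ := by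
    intro f
    have h1 : ⟪d, f⟫_ℂ = L f := by
      rw [hd, InnerProductSpace.toDual_symm_apply]
    rw [← h1, L2.inner_def]
    refine integral_congr_ae (Eventually.of_forall fun s => ?_)
    simp
  have hrep : ∀ (f : S → ℂ) (h1 : MemLp f 1 μ), MemLp f 2 μ →
      ℓ (h1.toLp f) = ∫ s, f s * conj (d s) ∂μ := by
    intro f h1 h2
    have e1 : ∫ s, f s * conj (d s) ∂μ = L (h2.toLp f) := by
      rw [hL]
      refine integral_congr_ae ?_
      filter_upwards [h2.coeFn_toLp] with s hs
      rw [hs]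
    rw [e1]
    show _ = ℓ _
    congr 1
    apply Lp.ext
    filter_upwards [h1.coeFn_toLp, h2.coeFn_toLp,
      ((Lp.memLp (h2.toLp f)).mono_exponent (p := 1) (by norm_num)).coeFn_toLp] with s a b c
    rw [a, c, b]
  -- the bound
  obtain ⟨d', hd', hdd'⟩ := (Lp.stronglyMeasurable d).measurable.aemeasurable (μ := μ)
  have hbd : ∀ᵐ s ∂μ, ‖d s‖ ≤ ‖ℓ‖ := by
    set A : Set S := {s | ‖ℓ‖ < ‖d s‖} with hA
    have hdm : Measurable (d : S → ℂ) := (Lp.stronglyMeasurable d).measurable
    have hAm : MeasurableSet A := measurableSet_lt measurable_const hdm.norm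
    set f : S → ℂ := A.indicator (fun s => d s / ‖d s‖) with hf
    have hfm : Measurable f := by
      refine Measurable.indicator ?_ hAm
      exact hdm.div (Complex.measurable_ofReal.comp hdm.norm)
    have hf1 : ∀ s, ‖f s‖ ≤ 1 := by
      intro s
      rw [hf, indicator_apply]
      split_ifs
      · rw [norm_div, Complex.norm_real, norm_norm]
        exact div_self_le_one _
      · simp
    have hfL : ∀ q : ℝ≥0∞, MemLp f q μ := fun q =>
      (memLp_const (1 : ℝ)).mono' hfm.aestronglyMeasurable (Eventually.of_forall hf1)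
    have h1 := hrep f (hfL 1) (hfL 2)
    have h2 : ∫ s, f s * conj (d s) ∂μ = ((∫ s in A, ‖d s‖ ∂μ : ℝ) : ℂ) := by
      rw [← integral_indicator hAm, ← integral_complex_ofReal]
      refine integral_congr_ae (Eventually.of_forall fun s => ?_)
      simp only [hf, indicator_apply]
      split_ifs with hs
      · have hpos : 0 < ‖d s‖ := lt_of_le_of_lt (norm_nonneg _) hs
        have hne : ((‖d s‖ : ℝ) : ℂ) ≠ 0 := by exact_mod_cast hpos.ne'
        rw [div_mul_eq_mul_div, Complex.mul_conj, Complex.normSq_eq_norm_sq, Complex.ofReal_pow,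
          sq, mul_div_assoc, div_self hne, mul_one]
      · simp
    have h3 : ‖(hfL 1).toLp f‖ ≤ μ.real A := by
      rw [Lp.norm_toLp, eLpNorm_one_eq_lintegral_enorm]
      have : ∫⁻ s, ‖f s‖ₑ ∂μ ≤ μ A := by
        rw [← lintegral_indicator_one hAm]
        refine lintegral_mono fun s => ?_
        rw [hf]
        simp only [indicator_apply]
        split_ifs with hs
        · have := hf1 s
          rw [hf, indicator_of_mem hs] at this
          rw [← ofReal_norm]
          simpa using ENNReal.ofReal_le_ofReal this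
        · simp
      exact ENNReal.toReal_mono (measure_ne_top _ _) this
    have h4 : ‖ℓ ((hfL 1).toLp f)‖ ≤ ‖ℓ‖ * μ.real A :=
      (ℓ.le_opNorm _).trans (mul_le_mul_of_nonneg_left h3 (norm_nonneg _))
    have hdi : Integrable (fun s => ‖d s‖) μ :=
      (memLp_one_iff_integrable.1 ((Lp.memLp d).mono_exponent (p := 1) (by norm_num))).norm
    rw [h1, h2, Complex.norm_real, Real.norm_of_nonneg (integral_nonneg fun s => norm_nonneg _)] at h4
    have h5 : ∫ s in A, (‖d s‖ - ‖ℓ‖) ∂μ ≤ 0 := by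
      rw [integral_sub hdi.integrableOn (integrable_const _), setIntegral_const, smul_eq_mul,
        mul_comm (μ.real A)]
      linarith
    have h6 : (fun s => ‖d s‖ - ‖ℓ‖) =ᵐ[μ.restrict A] 0 := by
      have h7 : 0 ≤ᵐ[μ.restrict A] fun s => ‖d s‖ - ‖ℓ‖ := by
        filter_upwards [ae_restrict_mem hAm] with s hs
        exact sub_nonneg.2 (le_of_lt hs)
      rw [← setIntegral_eq_zero_iff_of_nonneg_ae h7]
      · exact le_antisymm h5 (setIntegral_nonneg hAm fun s hs => sub_nonneg.2 (le_of_lt hs))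
      · exact (hdi.sub (integrable_const _)).integrableOn
    rw [ae_iff]
    have h8 : {s | ¬ ‖d s‖ ≤ ‖ℓ‖} = A := by
      ext s
      simp [hA]
    rw [h8]
    by_contra h0
    have h9 : (ae (μ.restrict A)).NeBot := by
      rw [ae_neBot]
      intro h
      apply h0
      have := Measure.restrict_apply_self μ A
      rw [h] at this
      simpa using this.symm
    obtain ⟨s, hs1, hs2⟩ := (h6.and (ae_restrict_mem hAm)).exists
    have : ‖d s‖ - ‖ℓ‖ = 0 := hs1
    have h10 : ‖ℓ‖ < ‖d s‖ := hs2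
    linarith
  have hdm : Measurable (d : S → ℂ) := (Lp.stronglyMeasurable d).measurable
  refine ⟨fun s => if ‖d s‖ ≤ ‖ℓ‖ then conj (d s) else 0, ?_, fun s => ?_, fun f h1 h2 => ?_⟩
  · exact Measurable.ite (measurableSet_le hdm.norm measurable_const)
      (Complex.continuous_conj.measurable.comp hdm) measurable_const
  · show ‖(if ‖d s‖ ≤ ‖ℓ‖ then conj (d s) else 0)‖ ≤ ‖ℓ‖
    split_ifs with h
    · simpa using h
    · simp
  · rw [hrep f h1 h2]
    refine integral_congr_ae ?_
    filter_upwards [hbd] with s hs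
    simp only [if_pos hs]

end

end Pool.Agent.N812.IS
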