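import Pool.Agent.N812.IS.Ca

/-!
# Perturbations `N + κ K`: vectors with small local spectra
-/

set_option autoImplicit false

namespace Pool.Agent.N812.IS

open MeasureTheory Set Metric Filter Topology
open Pool.Agent.R276.CP
open Pool.Agent.Y271.RO (Bd)
open Pool.Agent.R277.SP (LocV pow_of_rec)
open scoped InnerProductSpace ENNReal NNReal

variable {E ι : Type} [NormedAddCommGroup E] [NormedSpace ℂ E] [CompleteSpace E] {N : E →L[ℂ] E}
    {R : (ℂ → ℂ) → (E →L[ℂ] E)} {φ : ι → (E →L[ℂ] ℂ)} {f : ι → E → ℂ → ℂ} {u : ℕ → E} {v : ℕ → ι}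
    {K : E →L[ℂ] E}

omit [CompleteSpace E] in
lemma locv_eigen {T : E →L[ℂ] E} {c : ℂ} {x : E} (hx : T x = c • x) {ε : ℝ} (hε : 0 < ε) (n : ℕ) :
    ‖((T - c • (1 : E →L[ℂ] E)) ^ n) x‖ ≤ ‖x‖ * ε ^ n := by
  have h5 : (T - c • (1 : E →L[ℂ] E)) x = 0 := by
    show T x - c • x = 0
    rw [hx, sub_self]
  cases n with
  | zero => simp
  | succ n =>
    have h6 : ((T - c • (1 : E →L[ℂ] E)) ^ (n + 1)) x = 0 := by
      rw [pow_succ]
      show ((T - c • (1 : E →L[ℂ] E)) ^ n) ((T - c • (1 : E →L[ℂ] E)) x) = 0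
      rw [h5, map_zero]
    rw [h6, norm_zero]
    positivity

theorem locv (hC : Cal N R φ f) (hP : Pert φ f u v K) {κ : ℂ}
    (hG : Good (fun i j z => f (v i) (u j) z) κ) : LocV (N + κ • K) := by
  intro p hp ε hε
  set T : E →L[ℂ] E := N + κ • K with hT
  by_cases hsur : ∀ x, ∃ w, T w - p • w = x
  · -- surjective, hence not injective
    have hninj : ¬ ∀ x, T x - p • x = 0 → x = 0 := by
      intro hinj
      apply hp
      rw [spectrum.mem_resolventSet_iff, ContinuousLinearMap.isUnit_iff_bijective]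
      constructor
      · intro x y hxy
        rw [← sub_eq_zero]
        apply hinj
        have h1 : p • x - T x = p • y - T y := by
          rw [Algebra.algebraMap_eq_smul_one] at hxy
          exact hxy
        rw [map_sub, smul_sub]
        have : T x - T y - (p • x - p • y) = (p • y - T y) - (p • x - T x) := by abel
        rw [this, h1, sub_self]
      · intro y
        obtain ⟨w, hw⟩ := hsur (-y)
        refine ⟨w, ?_⟩
        rw [Algebra.algebraMap_eq_smul_one]
        show p • w - T w = y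
        rw [← neg_sub, hw, neg_neg]
    push Not at hninj
    obtain ⟨x, hx1, hx2⟩ := hninj
    exact ⟨x, ‖x‖, hx2, fun n => locv_eigen (sub_eq_zero.1 hx1) hε n⟩
  · push Not at hsur
    obtain ⟨x, hx⟩ := hsur
    have hFm : ∀ i j, Measurable ((fun i j z => f (v i) (u j) z) i j) := fun i j => hC.meas _ _
    obtain ⟨c, hc, hce, hcl⟩ := good_c hFm hP.b1 hG (b := fun z i => f (v i) x z)
      (fun i => hC.meas _ _) (fun r => hP.b2 x r)
    have hce' : ∀ᵐ z : ℂ, ∀ i, ∃ s : ℂ, HasSum (fun j => f (v i) (u j) z * (c z : ℕ → ℂ) j) s ∧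
        (c z : ℕ → ℂ) i = f (v i) x z + κ * s :=
      hce.mono fun z hz i => ⟨_, hz i⟩
    have hlogW : ∫⁻ z in closedBall p ε, ENNReal.ofReal (Real.log (1 + ‖c z‖)) ≠ ⊤ := by
      refine ne_top_of_le_ne_top (hcl (‖p‖ + 2 * ε)).ne (lintegral_mono_set ?_)
      exact (closedBall_subset_ball (by linarith)).trans (ball_sub p (2 * ε))
    obtain ⟨g, hg1, hg2, hg3, hg4, hg5⟩ := exists_mult (fun z => 1 + ‖c z‖) p ε hε
      (hc.norm.measurable.const_add 1) (fun z => by linarith [norm_nonneg (c z)]) hlogW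
    have hMu : ∀ k : ℕ, Mu c (fun z => (z - p) ^ k * g z) p (2 * ε) (ε ^ k) := by
      intro k
      refine ⟨((measurable_id.sub_const p).pow_const k).mul hg1, by positivity, fun z => ?_,
        fun z hz => ?_⟩
      · by_cases hz : z ∈ An p ε
        · rw [norm_mul, norm_pow, mul_assoc]
          calc ‖z - p‖ ^ k * (‖g z‖ * (1 + ‖c z‖)) ≤ ε ^ k * 1 := by
                refine mul_le_mul (pow_le_pow_left₀ (norm_nonneg _) hz.2 k) (hg2 z) ?_ (by positivity)
                positivity
            _ = ε ^ k := mul_one _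
        · rw [hg3 z hz, mul_zero, norm_zero, zero_mul]
          positivity
      · rw [hg3 z, mul_zero]
        intro hzA
        apply hz
        rw [mem_ball, dist_eq_norm]
        linarith [hzA.2]
    have hMu' : Mu c (fun z => (z - p)⁻¹ * g z) p (2 * ε) ((ε / 2)⁻¹) := by
      refine ⟨(measurable_id.sub_const p).inv.mul hg1, by positivity, fun z => ?_,
        fun z hz => ?_⟩
      · by_cases hz : z ∈ An p ε
        · rw [norm_mul, norm_inv, mul_assoc]
          calc ‖z - p‖⁻¹ * (‖g z‖ * (1 + ‖c z‖)) ≤ (ε / 2)⁻¹ * 1 := by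
                refine mul_le_mul (inv_anti₀ (by positivity) hz.1.le) (hg2 z) ?_ (by positivity)
                positivity
            _ = _ := mul_one _
        · rw [hg3 z hz, mul_zero, norm_zero, zero_mul]
          positivity
      · rw [hg3 z, mul_zero]
        intro hzA
        apply hz
        rw [mem_ball, dist_eq_norm]
        linarith [hzA.2]
    set X : ℕ → E := fun k => Yv R u c κ x (fun z => (z - p) ^ k * g z) with hX
    have hstep : ∀ k, T (X k) - p • X k = X (k + 1) := by
      intro k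
      have h1 := Yv_step hC hP hc κ x hce' (hMu k) p
      rw [hg4 k, zero_smul, sub_zero] at h1
      simp only [hX, hT]
      rw [h1]
      congr 1
      funext z
      ring
    obtain ⟨C1, hC1, hC1'⟩ := hC.bdd (2 * ε) (by positivity)
    obtain ⟨C2, hC2, hC2'⟩ := Zl_bound hC hP hc p (2 * ε)
    have hbound : ∀ k, ‖X k‖ ≤ (C1 * ‖x‖ + ‖κ‖ * C2) * ε ^ k := by
      intro k
      have h1 : ‖R (fun z => (z - p) ^ k * g z) x‖ ≤ C1 * ε ^ k * ‖x‖ :=
        (ContinuousLinearMap.le_opNorm _ _).trans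
          (mul_le_mul_of_nonneg_right (hC1' _ _ _ (hMu k).toBd) (norm_nonneg _))
      have h2 : ‖Zl R u c (fun z => (z - p) ^ k * g z)‖ ≤ C2 * ε ^ k :=
        le_of_tendsto' (Zl_tendsto hC hP hc (hMu k)).norm (hC2' _ _ (hMu k))
      calc ‖X k‖ ≤ ‖R (fun z => (z - p) ^ k * g z) x‖ +
            ‖κ • Zl R u c (fun z => (z - p) ^ k * g z)‖ := norm_add_le _ _
        _ ≤ C1 * ε ^ k * ‖x‖ + ‖κ‖ * (C2 * ε ^ k) := by
            rw [norm_smul]
            gcongr
        _ = _ := by ring
    refine ⟨X 0, C1 * ‖x‖ + ‖κ‖ * C2, ?_, fun n => ?_⟩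
    · intro h0
      have h1 := Yv_step hC hP hc κ x hce' hMu' p
      have h2 : (fun z => (z - p) * ((z - p)⁻¹ * g z)) = fun z => (z - p) ^ 0 * g z := by
        funext z
        by_cases hz : z - p = 0
        · have hzA : z ∉ An p ε := by
            intro hzA
            have := hzA.1
            rw [hz, norm_zero] at this
            linarith
          rw [hg3 z hzA]
          ring
        · field_simp
      rw [h2] at h1
      have h3 : Yv R u c κ x (fun z => (z - p) ^ 0 * g z) = 0 := h0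
      rw [h3, zero_sub] at h1
      set I : ℂ := ∫ z, (z - p)⁻¹ * g z with hI
      apply hx (-(I⁻¹ • Yv R u c κ x (fun z => (z - p)⁻¹ * g z)))
      have h4 : T (-(I⁻¹ • Yv R u c κ x (fun z => (z - p)⁻¹ * g z))) -
          p • -(I⁻¹ • Yv R u c κ x (fun z => (z - p)⁻¹ * g z)) =
          -(I⁻¹ • (T (Yv R u c κ x (fun z => (z - p)⁻¹ * g z)) -
            p • Yv R u c κ x (fun z => (z - p)⁻¹ * g z))) := by
        rw [map_neg, map_smul, smul_sub, smul_neg, smul_comm p]
        abel
      rw [h4, h1, smul_neg, neg_neg, smul_smul, inv_mul_cancel₀ hg5, one_smul]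
    · rw [pow_of_rec hstep]
      exact hbound n

end Pool.Agent.N812.IS
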