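import Pool.Agent.N812.IS.Op

/-!
# The theorem for operators with a weakly locally integrable resolvent
-/

set_option autoImplicit false

namespace Pool.Agent.N812.IS

open MeasureTheory Set Metric Filter Topology
open Pool.Agent.R276.CP
open Pool.Agent.Y271.RO (Bd)
open Pool.Agent.R277.SP (LocV ad ad_apply ad_apply2 ev ev_apply ad_norm)
open Pool.Agent.Y283.NK (HasHyp)
open scoped InnerProductSpace ENNReal NNReal

/-- the operators `R g = ∫ g(z) (z - N)⁻¹ dA` exist, `f y x z = y ((z - N)⁻¹ x)` -/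
structure RC {X : Type} [NormedAddCommGroup X] [NormedSpace ℂ X] (N : X →L[ℂ] X)
    (R : (ℂ → ℂ) → (X →L[ℂ] X)) (f : (X →L[ℂ] ℂ) → X → ℂ → ℂ) : Prop where
  comm : ∀ (a : ℂ) (r B : ℝ) (g : ℂ → ℂ), Bd g a r B → N * R g = R g * N
  step : ∀ (a c : ℂ) (r B : ℝ) (g : ℂ → ℂ) (x : X), Bd g c r B →
    N (R g x) - a • R g x = R (fun z => (z - a) * g z) x - (∫ z, g z) • x
  bdd : ∀ r : ℝ, 0 < r → ∃ C : ℝ, 0 ≤ C ∧ ∀ (a : ℂ) (B : ℝ) (g : ℂ → ℂ), Bd g a r B → ‖R g‖ ≤ C * B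
  small : ∀ ε : ℝ, 0 < ε → ∃ r : ℝ, 0 < r ∧ ∀ (a : ℂ) (B : ℝ) (g : ℂ → ℂ), Bd g a r B →
    ‖R g‖ ≤ ε * B
  meas : ∀ y x, Measurable (f y x)
  rep : ∀ (y : X →L[ℂ] ℂ) (x : X) (a : ℂ) (r B : ℝ) (g : ℂ → ℂ), Bd g a r B →
    Integrable (fun z => g z * f y x z) ∧ y (R g x) = ∫ z, g z * f y x z

/-- the perturbation `K = ∑ v j ⊗ u j` -/
structure Pt {X : Type} [NormedAddCommGroup X] [NormedSpace ℂ X]
    (f : (X →L[ℂ] ℂ) → X → ℂ → ℂ) (u : ℕ → X) (v : ℕ → (X →L[ℂ] ℂ)) (K : X →L[ℂ] X) : Prop where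
  sum : ∀ x, Tendsto (fun n => ∑ j ∈ Finset.range n, v j x • u j) atTop (𝓝 (K x))
  sum' : ∀ y : X →L[ℂ] ℂ, Tendsto (fun n => ∑ j ∈ Finset.range n, y (u j) • v j) atTop
    (𝓝 (y.comp K))
  b1 : ∀ R : ℝ, ∫⁻ z in ball (0:ℂ) R, Xi (fun i j z => f (v i) (u j) z) z < ⊤
  b3 : ∀ R : ℝ, ∃ C : ℝ, 0 ≤ C ∧ ∀ y, ∫⁻ z in ball (0:ℂ) R, nn (fun j => f y (u j) z) ≤
    ENNReal.ofReal (C * ‖y‖)
  b4 : ∀ R ε : ℝ, 0 < ε → ∃ n : ℕ, ∀ y,
    ∫⁻ z in ball (0:ℂ) R, nn (tl n (fun j => f y (u j) z)) ≤ ENNReal.ofReal (ε * ‖y‖)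
  c3 : ∀ R : ℝ, ∃ C : ℝ, 0 ≤ C ∧ ∀ x, ∫⁻ z in ball (0:ℂ) R, nn (fun j => f (v j) x z) ≤
    ENNReal.ofReal (C * ‖x‖)
  c4 : ∀ R ε : ℝ, 0 < ε → ∃ n : ℕ, ∀ x,
    ∫⁻ z in ball (0:ℂ) R, nn (tl n (fun j => f (v j) x z)) ≤ ENNReal.ofReal (ε * ‖x‖)

section

variable {X : Type} [NormedAddCommGroup X] [NormedSpace ℂ X] {N : X →L[ℂ] X}
    {R : (ℂ → ℂ) → (X →L[ℂ] X)} {f : (X →L[ℂ] ℂ) → X → ℂ → ℂ} {u : ℕ → X} {v : ℕ → (X →L[ℂ] ℂ)}
    {K : X →L[ℂ] X}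

lemma ev_norm (x : X) : ‖ev x‖ ≤ ‖x‖ := by
  refine ContinuousLinearMap.opNorm_le_bound _ (norm_nonneg _) fun y => ?_
  rw [ev_apply, mul_comm]
  exact y.le_opNorm x

lemma ev_norm' (x : X) : ‖x‖ ≤ ‖ev x‖ := by
  refine NormedSpace.norm_le_dual_bound ℂ x (norm_nonneg (ev x)) fun y => ?_
  have := (ev x).le_opNorm y
  rwa [ev_apply] at this

lemma RC.cal (h : RC N R f) : Cal N R (fun y : X →L[ℂ] ℂ => y) f := by
  refine ⟨fun x B hB hx => ?_, h.step, h.bdd, h.meas, h.rep⟩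
  exact NormedSpace.norm_le_dual_bound ℂ x hB fun y => hx y

lemma RC.dual (h : RC N R f) : Cal (ad N) (fun g => ad (R g)) (fun x : X => ev x)
    (fun x y => f y x) := by
  refine ⟨fun y B hB hy => ?_, fun a c r B g y hg => ?_, fun r hr => ?_, fun x y => h.meas y x,
    fun x y a r B g hg => h.rep y x a r B g hg⟩
  · refine ContinuousLinearMap.opNorm_le_bound _ hB fun x => ?_
    refine (hy x).trans ?_
    exact mul_le_mul_of_nonneg_left (ev_norm x) hB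
  · ext x
    show y (R g (N x)) - a • y (R g x) = y (R (fun z => (z - a) * g z) x) - (∫ z, g z) • y x
    have h1 : R g (N x) = N (R g x) := by
      have := congrArg (fun A : X →L[ℂ] X => A x) (h.comm c r B g hg)
      exact this.symm
    rw [h1, ← map_smul y a, ← map_sub, h.step a c r B g x hg, map_sub, map_smul]
  · obtain ⟨C, hC0, hC⟩ := h.bdd r hr
    exact ⟨C, hC0, fun a B g hg => (ad_norm _).trans (hC a B g hg)⟩

lemma Pt.primal (hP : Pt f u v K) : Pert (fun y : X →L[ℂ] ℂ => y) f u v K := by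
  refine ⟨hP.sum, hP.b1, fun x R => ?_, hP.b3, hP.b4⟩
  obtain ⟨C, -, h⟩ := hP.c3 R
  exact (h x).trans_lt ENNReal.ofReal_lt_top

lemma Xi_swap (F : ℕ → ℕ → ℂ → ℂ) (z : ℂ) : Xi (fun i j z => F j i z) z = Xi F z := by
  unfold Xi
  exact ENNReal.tsum_comm

lemma Pt.dual (hP : Pt f u v K) : Pert (fun x : X => ev x) (fun x y => f y x) v u (ad K) := by
  refine ⟨hP.sum', fun R => ?_, fun y R => ?_, fun R => ?_, fun R ε hε => ?_⟩
  · have := hP.b1 R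
    refine lt_of_le_of_lt (le_of_eq ?_) this
    refine lintegral_congr fun z => ?_
    exact Xi_swap (fun i j z => f (v i) (u j) z) z
  · obtain ⟨C, -, h⟩ := hP.b3 R
    exact (h y).trans_lt ENNReal.ofReal_lt_top
  · obtain ⟨C, hC, h⟩ := hP.c3 R
    refine ⟨C, hC, fun x => (h x).trans (ENNReal.ofReal_le_ofReal ?_)⟩
    exact mul_le_mul_of_nonneg_left (ev_norm' x) hC
  · obtain ⟨n, h⟩ := hP.c4 R ε hε
    refine ⟨n, fun x => (h x).trans (ENNReal.ofReal_le_ofReal ?_)⟩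
    exact mul_le_mul_of_nonneg_left (ev_norm' x) hε.le

theorem main [CompleteSpace X] (h : RC N R f) (hP : Pt f u v K) (hK : IsCompactOperator K)
    {m : Measure ℂ} (hm : LogBd m) : ∀ᵐ κ ∂m,
    ((∃ c : ℂ, N + κ • K = c • 1) ∨ HasHyp (N + κ • K)) ∧ LocV (N + κ • K) ∧
      LocV (ad (N + κ • K)) := by
  have g1 := generic (F := fun i j z => f (v i) (u j) z) (fun i j => h.meas _ _) hP.b1 hm
  have g2 := generic (F := fun i j z => f (v j) (u i) z) (fun i j => h.meas _ _)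
    (fun R => by
      refine lt_of_le_of_lt (le_of_eq ?_) (hP.b1 R)
      refine lintegral_congr fun z => ?_
      exact Xi_swap (fun i j z => f (v i) (u j) z) z) hm
  filter_upwards [g1, g2] with κ hG1 hG2
  have hL1 : LocV (N + κ • K) := locv h.cal hP.primal hG1
  have had : ad (N + κ • K) = ad N + κ • ad K := by
    ext y x
    show y (N x + κ • K x) = y (N x) + κ • y (K x)
    rw [map_add, map_smul]
  have hL2 : LocV (ad (N + κ • K)) := by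
    rw [had]
    exact locv h.dual hP.dual hG2
  refine ⟨?_, hL1, hL2⟩
  set T : X →L[ℂ] X := N + κ • K with hT
  by_cases hsc : ∃ c : ℂ, T = c • 1
  · exact Or.inl hsc
  right
  have hnt : Nontrivial X := by
    by_contra h
    rw [not_nontrivial_iff_subsingleton] at h
    apply hsc
    refine ⟨0, ?_⟩
    ext1 f
    exact Subsingleton.elim _ _
  obtain ⟨c₁, hc₁⟩ := spectrum.nonempty T
  by_cases hone : ∀ z ∈ spectrum ℂ T, z = c₁
  · have h3 := one_pt h.cal h.small (hK.smul κ) hone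
    refine Pool.Agent.R277.SP.hyp_shift c₁ (Pool.Agent.W577.HI.G1.main _ _ h3 ?_)
    rintro ⟨c, hc⟩
    apply hsc
    refine ⟨c + c₁, ?_⟩
    rw [add_smul, ← hc]
    abel
  · push Not at hone
    obtain ⟨c₂, hc₂, hne⟩ := hone
    exact Pool.Agent.R277.SP.hyp_of_locv hL1 hL2 hc₁ hc₂ (Ne.symm hne)

end

end Pool.Agent.N812.IS
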