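import Pool.Agent.N812.IS.Gen3

/-!
# The norm of a sequence, tails, the solution of `c - κ F c = b`
-/

set_option autoImplicit false

namespace Pool.Agent.N812.IS

open MeasureTheory Set Metric Filter Topology
open Pool.Agent.R276.CP Pool.Agent.R276.CP.Fat
open scoped InnerProductSpace ENNReal NNReal

/-- the norm in `ℓ²`, with values in `[0, ∞]` -/
noncomputable def nn (a : ℕ → ℂ) : ℝ≥0∞ := (∑' j, ENNReal.ofReal (‖a j‖ ^ 2)) ^ (1 / 2 : ℝ)

/-- the tail -/
def tl (n : ℕ) (a : ℕ → ℂ) : ℕ → ℂ := fun j => if j < n then 0 else a j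

lemma tl_zero (a : ℕ → ℂ) : tl 0 a = a := by
  funext j
  simp [tl]

lemma nn_meas {a : ℂ → ℕ → ℂ} (ha : ∀ j, Measurable fun z => a z j) :
    Measurable fun z => nn (a z) := by
  unfold nn
  exact (Measurable.tsum fun j => ((ha j).norm.pow_const 2).ennreal_ofReal).pow_const _

lemma tl_meas {a : ℂ → ℕ → ℂ} (ha : ∀ j, Measurable fun z => a z j) (n j : ℕ) :
    Measurable fun z => tl n (a z) j := by
  unfold tl
  split_ifs
  · exact measurable_const
  · exact ha j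

lemma nn_summable {a : ℕ → ℂ} (h : nn a ≠ ⊤) : Summable fun j => ‖a j‖ ^ 2 := by
  have h1 : ∑' j, ENNReal.ofReal (‖a j‖ ^ 2) ≠ ⊤ := by
    intro h0
    apply h
    unfold nn
    rw [h0, ENNReal.top_rpow_of_pos (by norm_num)]
  refine (ENNReal.summable_toReal h1).congr fun j => ?_
  rw [ENNReal.toReal_ofReal (by positivity)]

lemma nn_eq {a : ℕ → ℂ} (h : Summable fun j => ‖a j‖ ^ 2) : nn a = ENNReal.ofReal ‖vec a‖ := by
  unfold nn
  rw [← ENNReal.ofReal_tsum_of_nonneg (fun j => by positivity) h,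
    ENNReal.ofReal_rpow_of_nonneg (tsum_nonneg fun j => by positivity) (by norm_num)]
  congr 1
  have h1 : ‖vec a‖ ^ 2 = ∑' j, ‖a j‖ ^ 2 := by
    rw [norm_sq_l2]
    exact tsum_congr fun i => by rw [vec_apply h]
  rw [← h1, ← Real.sqrt_eq_rpow, Real.sqrt_sq (norm_nonneg _)]

lemma nn_mono {a b : ℕ → ℂ} (h : ∀ j, ‖a j‖ ≤ ‖b j‖) : nn a ≤ nn b := by
  unfold nn
  refine ENNReal.rpow_le_rpow ?_ (by norm_num)
  exact ENNReal.tsum_le_tsum fun j => ENNReal.ofReal_le_ofReal (by gcongr; exact h j)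

lemma tl_le (n : ℕ) (a : ℕ → ℂ) (j : ℕ) : ‖tl n a j‖ ≤ ‖a j‖ := by
  unfold tl
  split_ifs <;> simp

lemma nn_tl_le (n : ℕ) (a : ℕ → ℂ) : nn (tl n a) ≤ nn a := nn_mono (tl_le n a)

/-- Cauchy-Schwarz -/
lemma sum_le_nn (c : l2) (a : ℕ → ℂ) (s : Finset ℕ) :
    ENNReal.ofReal ‖∑ j ∈ s, (c : ℕ → ℂ) j * a j‖ ≤ ENNReal.ofReal ‖c‖ * nn a := by
  have h1 : ‖∑ j ∈ s, (c : ℕ → ℂ) j * a j‖ ≤ ‖c‖ * Real.sqrt (∑ j ∈ s, ‖a j‖ ^ 2) := by
    calc ‖∑ j ∈ s, (c : ℕ → ℂ) j * a j‖ ≤ ∑ j ∈ s, ‖(c : ℕ → ℂ) j‖ * ‖a j‖ := by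
          refine (norm_sum_le _ _).trans (Finset.sum_le_sum fun j _ => ?_)
          rw [norm_mul]
      _ ≤ Real.sqrt (∑ j ∈ s, ‖(c : ℕ → ℂ) j‖ ^ 2) * Real.sqrt (∑ j ∈ s, ‖a j‖ ^ 2) :=
          Real.sum_mul_le_sqrt_mul_sqrt _ _ _
      _ ≤ ‖c‖ * Real.sqrt (∑ j ∈ s, ‖a j‖ ^ 2) := by
          refine mul_le_mul_of_nonneg_right ?_ (Real.sqrt_nonneg _)
          refine Real.sqrt_le_iff.2 ⟨norm_nonneg _, ?_⟩
          rw [norm_sq_l2]
          exact (summable_l2 c).sum_le_tsum _ fun i _ => by positivity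
  refine (ENNReal.ofReal_le_ofReal h1).trans ?_
  rw [ENNReal.ofReal_mul (norm_nonneg _)]
  refine mul_le_mul' le_rfl ?_
  unfold nn
  rw [Real.sqrt_eq_rpow, ← ENNReal.ofReal_rpow_of_nonneg
    (Finset.sum_nonneg fun j _ => by positivity) (by norm_num)]
  refine ENNReal.rpow_le_rpow ?_ (by norm_num)
  rw [ENNReal.ofReal_sum_of_nonneg fun j _ => by positivity]
  exact ENNReal.sum_le_tsum _

lemma sum_le_tl (c : l2) (a : ℕ → ℂ) {s : Finset ℕ} {n : ℕ} (hs : ∀ j ∈ s, n ≤ j) :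
    ENNReal.ofReal ‖∑ j ∈ s, (c : ℕ → ℂ) j * a j‖ ≤ ENNReal.ofReal ‖c‖ * nn (tl n a) := by
  have : ∑ j ∈ s, (c : ℕ → ℂ) j * a j = ∑ j ∈ s, (c : ℕ → ℂ) j * tl n a j := by
    refine Finset.sum_congr rfl fun j hj => ?_
    unfold tl
    rw [if_neg (not_lt.2 (hs j hj))]
  rw [this]
  exact sum_le_nn c _ s

lemma coord_le (c : l2) (j : ℕ) : ‖(c : ℕ → ℂ) j‖ ≤ ‖c‖ := by
  exact lp.norm_apply_le_norm (by norm_num) c j

lemma coord_meas {c : ℂ → l2} (hc : StronglyMeasurable c) (j : ℕ) :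
    Measurable fun z => (c z : ℕ → ℂ) j := by
  have h1 : Continuous fun x : l2 => (x : ℕ → ℂ) j := by
    have : (fun x : l2 => (x : ℕ → ℂ) j) = fun x => innerSL ℂ (ee j) x := by
      funext x
      rw [innerSL_apply_apply, inner_ee]
    rw [this]
    exact (innerSL ℂ (ee j)).continuous
  exact (h1.comp_stronglyMeasurable hc).measurable

lemma log_bound {L b c : ℝ} (hb : 0 ≤ b) (hL : 0 ≤ L) (h : c ≤ L * b) (hc : 0 ≤ c) :
    Real.log (1 + c) ≤ 1 + Real.posLog L + b := by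
  have h1 : L ≤ Real.exp (Real.posLog L) := le_exp_posLog L
  have h2 : (1 : ℝ) ≤ Real.exp (Real.posLog L) := Real.one_le_exp Real.posLog_nonneg
  have h3 : 1 + c ≤ Real.exp (1 + Real.posLog L + b) := by
    calc 1 + c ≤ Real.exp (Real.posLog L) + Real.exp (Real.posLog L) * b := by
          refine add_le_add h2 (h.trans ?_)
          exact mul_le_mul_of_nonneg_right h1 hb
      _ = Real.exp (Real.posLog L) * (1 + b) := by ring
      _ ≤ Real.exp (Real.posLog L) * Real.exp b := by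
          gcongr
          linarith [Real.add_one_le_exp b]
      _ ≤ Real.exp (1 + Real.posLog L + b) := by
          rw [← Real.exp_add]
          exact Real.exp_le_exp.2 (by linarith)
  rw [Real.log_le_iff_le_exp (by linarith)]
  exact h3

/-- the solution of `c - κ F c = b` -/
theorem good_c {F : ℕ → ℕ → ℂ → ℂ} (hF : ∀ i j, Measurable (F i j))
    (hX : ∀ R : ℝ, ∫⁻ z in ball (0:ℂ) R, Xi F z < ⊤) {κ : ℂ} (hG : Good F κ) {b : ℂ → ℕ → ℂ}
    (hb : ∀ j, Measurable fun z => b z j) (hbi : ∀ R : ℝ, ∫⁻ z in ball (0:ℂ) R, nn (b z) < ⊤) :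
    ∃ c : ℂ → l2, StronglyMeasurable c ∧
      (∀ᵐ z : ℂ, ∀ i, HasSum (fun j => F i j z * (c z : ℕ → ℂ) j) ((Top F z (c z) : ℕ → ℂ) i) ∧
        (c z : ℕ → ℂ) i = b z i + κ * (Top F z (c z) : ℕ → ℂ) i) ∧
      ∀ R : ℝ, ∫⁻ z in ball (0:ℂ) R, ENNReal.ofReal (Real.log (1 + ‖c z‖)) < ⊤ := by
  classical
  set S : Set ℂ := {z | Xi F z ≠ ⊤} with hS
  have hSm : MeasurableSet S := (measurableSet_eq_fun (Xi_meas hF) measurable_const).compl
  set G : ℂ → (l2 →L[ℂ] l2) := S.indicator (Top F) with hGd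
  have hGm : StronglyMeasurable G := by
    refine stronglyMeasurable_of_tendsto atTop (f := fun n => S.indicator (Tn F n))
      (fun n => (Tn_meas hF n).indicator hSm) (tendsto_pi_nhds.2 fun z => ?_)
    by_cases hz : z ∈ S
    · simp only [indicator_of_mem hz, hGd]
      exact Tn_tendsto hz
    · simp only [indicator_of_notMem hz, hGd]
      exact tendsto_const_nhds
  have hXa : ∀ᵐ z : ℂ, Xi F z ≠ ⊤ := by
    refine ae_of_balls fun k => ?_
    exact (ae_lt_top (Xi_meas hF) (hX _).ne).mono fun z hz => hz.ne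
  have hba : ∀ᵐ z : ℂ, nn (b z) ≠ ⊤ := by
    refine ae_of_balls fun k => ?_
    exact (ae_lt_top (nn_meas hb) (hbi _).ne).mono fun z hz => hz.ne
  set c : ℂ → l2 := fun z => Ring.inverse (1 - κ • G z) (vec (b z)) with hc
  have hcm : StronglyMeasurable c := by
    have h1 : StronglyMeasurable fun z => Ring.inverse (1 - κ • G z) :=
      inverse_meas (stronglyMeasurable_const.sub (hGm.const_smul κ))
    have h2 : StronglyMeasurable fun z => (Ring.inverse (1 - κ • G z), vec (b z)) :=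
      h1.prodMk (vec_meas hb)
    exact (isBoundedBilinearMap_apply (𝕜 := ℂ) (E := l2) (F := l2)).continuous.comp_stronglyMeasurable
      h2
  refine ⟨c, hcm, ?_, fun R => ?_⟩
  · filter_upwards [hXa, hba, hG.res] with z h1 h2 h3 i
    refine ⟨Top_apply h1 _ _, ?_⟩
    have h4 : G z = Top F z := indicator_of_mem h1 _
    have h5 : IsUnit (1 - κ • Top F z) := by
      have := spectrum.mem_resolventSet_iff.1 h3
      rwa [map_one] at this
    have h6 : (1 - κ • Top F z) (c z) = vec (b z) := by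
      simp only [hc, h4]
      have := congrArg (fun A : l2 →L[ℂ] l2 => A (vec (b z))) (Ring.mul_inverse_cancel _ h5)
      exact this
    have h7 := congrArg (fun x : l2 => (x : ℕ → ℂ) i) h6
    simp only at h7
    rw [vec_apply (nn_summable h2)] at h7
    rw [← h7]
    show _ = (c z : ℕ → ℂ) i - κ * (Top F z (c z) : ℕ → ℂ) i + _
    ring
  · have hfin : ∫⁻ z in ball (0:ℂ) R, (1 + (ENNReal.ofReal (Real.posLog
        ‖resolvent (κ • Top F z) (1 : ℂ)‖) + nn (b z))) < ⊤ := by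
      rw [lintegral_add_left measurable_const, lintegral_one, Measure.restrict_apply_univ,
        lintegral_add_right _ (nn_meas hb)]
      exact ENNReal.add_lt_top.2 ⟨measure_ball_lt_top, ENNReal.add_lt_top.2 ⟨hG.log R, hbi R⟩⟩
    refine lt_of_le_of_lt (lintegral_mono_ae ?_) hfin
    refine ae_restrict_of_ae ?_
    filter_upwards [hXa, hba] with z h1 h2
    have h4 : G z = Top F z := indicator_of_mem h1 _
    have h5 : ‖c z‖ ≤ ‖resolvent (κ • Top F z) (1 : ℂ)‖ * ‖vec (b z)‖ := by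
      simp only [hc, h4]
      rw [res_eq]
      exact ContinuousLinearMap.le_opNorm _ _
    have h6 := log_bound (norm_nonneg _) (norm_nonneg _) h5 (norm_nonneg _)
    rw [nn_eq (nn_summable h2), ← ENNReal.ofReal_one,
      ← ENNReal.ofReal_add Real.posLog_nonneg (norm_nonneg _),
      ← ENNReal.ofReal_add zero_le_one (add_nonneg Real.posLog_nonneg (norm_nonneg _))]
    exact ENNReal.ofReal_le_ofReal (by linarith)

end Pool.Agent.N812.IS
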