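import Pool.Agent.N812.IS.Bn

/-!
# Nuclear perturbations
-/

set_option autoImplicit false

namespace Pool.Agent.N812.IS

open MeasureTheory Set Metric Filter Topology
open Pool.Agent.R276.CP
open Pool.Agent.Y271.RO (Bd ht)
open Pool.Agent.R277.SP
open Pool.Agent.Y283.NK (HasHyp)
open scoped InnerProductSpace ENNReal NNReal

/-- summation of weak type bounds -/
theorem tails {ι : Type} {a : ι → ℂ → ℕ → ℂ} (ha : ∀ i j, Measurable fun z => a i z j) {w : ι → ℝ}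
    (hw : ∀ i, 0 ≤ w i) {κ : ℕ → ℕ} (hκ : Summable (wt κ)) {D : ℝ} (hD : 0 ≤ D)
    (h : ∀ i R j, Wk (fun z => a i z j) R (w i * (D * (1 / 2 : ℝ) ^ κ j))) :
    (∀ R : ℝ, ∃ C : ℝ, 0 ≤ C ∧ ∀ i, ∫⁻ z in ball (0:ℂ) R, nn (a i z) ≤
      ENNReal.ofReal (C * w i)) ∧
    (∀ R ε : ℝ, 0 < ε → ∃ n : ℕ, ∀ i,
      ∫⁻ z in ball (0:ℂ) R, nn (tl n (a i z)) ≤ ENNReal.ofReal (ε * w i)) := by
  refine ⟨fun R => ?_, fun R ε hε => ?_⟩
  · have hv := vb_nonneg R
    have h0 : 0 ≤ ∑' j, wt κ (j + 0) := tsum_nonneg fun j => wt_nonneg κ _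
    refine ⟨1 * vb R + 2 * 1⁻¹ * ((4 * D ^ 2 + vb R) * ∑' j, wt κ (j + 0)), by positivity,
      fun i => ?_⟩
    have h1 := nn_hom (ha i) hκ hD (hw i) one_pos le_rfl (h i R) 0
    simp only [tl_zero] at h1
    rw [mul_comm]
    exact h1
  · have hv := vb_nonneg R
    set l : ℝ := min 1 (ε / (2 * (vb R + 1))) with hl
    have hl0 : 0 < l := lt_min one_pos (by positivity)
    have hl1 : l ≤ 1 := min_le_left _ _
    have hlv : l * vb R ≤ ε / 2 := by
      calc l * vb R ≤ ε / (2 * (vb R + 1)) * vb R :=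
            mul_le_mul_of_nonneg_right (min_le_right _ _) hv
        _ = ε / 2 * (vb R / (vb R + 1)) := by field_simp
        _ ≤ ε / 2 * 1 := by
            gcongr
            rw [div_le_one (by positivity)]
            linarith
        _ = ε / 2 := mul_one _
    have hlim : Tendsto (fun n : ℕ => 2 * l⁻¹ * ((4 * D ^ 2 + vb R) * ∑' j, wt κ (j + n))) atTop
        (𝓝 (2 * l⁻¹ * ((4 * D ^ 2 + vb R) * 0))) :=
      ((tendsto_sum_nat_add (wt κ)).const_mul _).const_mul _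
    rw [mul_zero, mul_zero] at hlim
    obtain ⟨n, hn⟩ := (hlim.eventually_lt_const (show (0 : ℝ) < ε / 2 by positivity)).exists
    refine ⟨n, fun i => ?_⟩
    refine (nn_hom (ha i) hκ hD (hw i) hl0 hl1 (h i R) n).trans (ENNReal.ofReal_le_ofReal ?_)
    rw [mul_comm ε]
    exact mul_le_mul_of_nonneg_left (by linarith) (hw i)

section

variable {X : Type} [NormedAddCommGroup X] [NormedSpace ℂ X] {N : X →L[ℂ] X}
    {R : (ℂ → ℂ) → (X →L[ℂ] X)} {f : (X →L[ℂ] ℂ) → X → ℂ → ℂ}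

/-- the class of nuclear operators -/
theorem pt_of_nuc (hC : RC N R f) {C : ℝ} (hC0 : 0 ≤ C)
    (hW : ∀ y x R, Wk (f y x) R (‖y‖ * (C * ‖x‖))) {u : ℕ → X} {v : ℕ → (X →L[ℂ] ℂ)} {S : ℝ}
    {κ : ℕ → ℕ} (hS : 0 < S) (hu : ∀ j, ‖u j‖ ≤ S * (1 / 2 : ℝ) ^ κ j)
    (hv : ∀ j, ‖v j‖ ≤ S * (1 / 2 : ℝ) ^ κ j) (hκ : Summable (wt κ)) {K : X →L[ℂ] X}
    (hK : HasSum (fun j => (v j).smulRight (u j)) K) : Pt f u v K := by
  have hb := tails (a := fun (y : X →L[ℂ] ℂ) z j => f y (u j) z) (fun y j => hC.meas _ _)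
    (w := fun y => ‖y‖) (fun y => norm_nonneg _) hκ (D := C * S) (by positivity)
    (fun y R j => (hW y (u j) R).mono (by
      refine mul_le_mul_of_nonneg_left ?_ (norm_nonneg _)
      rw [mul_assoc]
      exact mul_le_mul_of_nonneg_left (hu j) hC0))
  have hc := tails (a := fun (x : X) z j => f (v j) x z) (fun y j => hC.meas _ _)
    (w := fun y => ‖y‖) (fun y => norm_nonneg _) hκ (D := C * S) (by positivity)
    (fun x R j => (hW (v j) x R).mono (by
      calc ‖v j‖ * (C * ‖x‖) = ‖x‖ * (C * ‖v j‖) := by ring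
        _ ≤ ‖x‖ * (C * (S * (1 / 2 : ℝ) ^ κ j)) := by
            gcongr
            exact hv j
        _ = _ := by ring))
  refine ⟨fun x => ?_, fun y => ?_, fun R => ?_, hb.1, hb.2, hc.1, hc.2⟩
  · have h1 := hK.mapL (ContinuousLinearMap.apply ℂ X x)
    exact h1.tendsto_sum_nat
  · have h1 := hK.mapL ((ContinuousLinearMap.compL ℂ X X ℂ) y)
    have h2 := h1.tendsto_sum_nat
    refine h2.congr fun n => Finset.sum_congr rfl fun j _ => ?_
    ext x
    simp [mul_comm]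
  · -- the matrix
    set D : ℝ := C * (S * S) with hD
    have hD0 : 0 ≤ D := by positivity
    have hv' := vb_nonneg R
    have h1 : ∀ i j, ∫⁻ z in ball (0:ℂ) R, ENNReal.ofReal (ps ‖f (v i) (u j) z‖) ≤
        ENNReal.ofReal ((4 * D ^ 2 + vb R) * (wt κ i * wt κ j)) := by
      intro i j
      have h2 : Wk (f (v i) (u j)) R (D * (1 / 2 : ℝ) ^ (κ i + κ j)) := by
        refine (hW (v i) (u j) R).mono ?_
        calc ‖v i‖ * (C * ‖u j‖) ≤ (S * (1 / 2 : ℝ) ^ κ i) * (C * (S * (1 / 2 : ℝ) ^ κ j)) := by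
              gcongr
              · exact hv i
              · exact hu j
          _ = D * (1 / 2 : ℝ) ^ (κ i + κ j) := by
              rw [hD, pow_add]
              ring
      refine (psi_int (hC.meas _ _) hD0 h2).trans (ENNReal.ofReal_le_ofReal ?_)
      refine mul_le_mul_of_nonneg_left ?_ (by positivity)
      unfold wt
      rw [pow_add]
      push_cast
      have h3 : (0 : ℝ) ≤ (1 / 4 : ℝ) ^ κ i * (1 / 4 : ℝ) ^ κ j := by positivity
      have h4 : (0 : ℝ) ≤ (κ i : ℝ) * κ j := by positivity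
      have h5 : (1 / 4 : ℝ) ^ κ i * (1 + (κ i : ℝ)) * ((1 / 4 : ℝ) ^ κ j * (1 + κ j)) =
        (1 / 4 : ℝ) ^ κ i * (1 / 4 : ℝ) ^ κ j * (1 + (κ i + κ j)) +
          (1 / 4 : ℝ) ^ κ i * (1 / 4 : ℝ) ^ κ j * (κ i * κ j) := by ring
      have h6 := mul_nonneg h3 h4
      linarith
    have hm : ∀ i j, Measurable fun z => ENNReal.ofReal (ps ‖f (v i) (u j) z‖) := fun i j =>
      (ps_meas.comp (hC.meas _ _).norm).ennreal_ofReal
    unfold Xi
    rw [lintegral_tsum fun j => (Measurable.tsum fun i => hm i j).aemeasurable]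
    calc ∑' j, ∫⁻ z in ball (0:ℂ) R, ∑' i, ENNReal.ofReal (ps ‖f (v i) (u j) z‖)
        = ∑' j, ∑' i, ∫⁻ z in ball (0:ℂ) R, ENNReal.ofReal (ps ‖f (v i) (u j) z‖) :=
          tsum_congr fun j => lintegral_tsum fun i => (hm i j).aemeasurable
      _ ≤ ∑' j, ∑' i, ENNReal.ofReal (4 * D ^ 2 + vb R) *
            (ENNReal.ofReal (wt κ i) * ENNReal.ofReal (wt κ j)) := by
          refine ENNReal.tsum_le_tsum fun j => ENNReal.tsum_le_tsum fun i => ?_
          refine (h1 i j).trans (le_of_eq ?_)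
          rw [ENNReal.ofReal_mul (by positivity), ENNReal.ofReal_mul (wt_nonneg κ i)]
      _ = ENNReal.ofReal (4 * D ^ 2 + vb R) *
            ((∑' i, ENNReal.ofReal (wt κ i)) * ∑' j, ENNReal.ofReal (wt κ j)) := by
          simp_rw [ENNReal.tsum_mul_left, ENNReal.tsum_mul_right, ENNReal.tsum_mul_left]
      _ < ⊤ := by
          have h7 : ∑' i, ENNReal.ofReal (wt κ i) < ⊤ := by
            rw [← ENNReal.ofReal_tsum_of_nonneg (wt_nonneg κ) hκ]
            exact ENNReal.ofReal_lt_top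
          exact ENNReal.mul_lt_top ENNReal.ofReal_lt_top (ENNReal.mul_lt_top h7 h7)

/-- the class of nuclear operators of the theorem: `∑ s (1 + |log s|) < ∞`, `s = ‖v‖ ‖u‖` -/
def NucLog (K : X →L[ℂ] X) : Prop :=
  ∃ (u : ℕ → X) (v : ℕ → (X →L[ℂ] ℂ)),
    (Summable fun j => ‖v j‖ * ‖u j‖ * (1 + |Real.log (‖v j‖ * ‖u j‖)|)) ∧
    ∀ x, HasSum (fun j => v j x • u j) (K x)

/-- balanced representations -/
theorem NucLog.bal [CompleteSpace X] {K : X →L[ℂ] X} (h : NucLog K) :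
    ∃ (u : ℕ → X) (v : ℕ → (X →L[ℂ] ℂ)) (S : ℝ) (κ : ℕ → ℕ), 0 < S ∧
      (∀ j, ‖u j‖ ≤ S * (1 / 2 : ℝ) ^ κ j) ∧ (∀ j, ‖v j‖ ≤ S * (1 / 2 : ℝ) ^ κ j) ∧
      Summable (wt κ) ∧ HasSum (fun j => (v j).smulRight (u j)) K := by
  obtain ⟨u, v, h1, h2⟩ := h
  set t : ℕ → ℝ := fun j => Real.sqrt (‖v j‖ * ‖u j‖) with ht
  have ht0 : ∀ j, 0 ≤ t j := fun j => Real.sqrt_nonneg _
  have hs0 : ∀ j, 0 ≤ ‖v j‖ * ‖u j‖ := fun j => by positivity
  have ht2 : ∀ j, t j ^ 2 = ‖v j‖ * ‖u j‖ := fun j => Real.sq_sqrt (hs0 j)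
  have hts : Summable fun j => t j ^ 2 * (1 + |Real.log (t j)|) := by
    refine Summable.of_nonneg_of_le (fun j => by positivity) (fun j => ?_) h1
    rw [ht2]
    refine mul_le_mul_of_nonneg_left ?_ (hs0 j)
    rw [ht, Real.log_sqrt (hs0 j), abs_div]
    have := abs_nonneg (Real.log (‖v j‖ * ‖u j‖))
    rw [abs_two]
    linarith
  obtain ⟨S, κ, hS, hκ1, hκ2⟩ := kap ht0 hts
  -- the balanced vectors
  have hbal : ∀ j, ∃ (u' : X) (v' : X →L[ℂ] ℂ), ‖u'‖ ≤ t j ∧ ‖v'‖ ≤ t j ∧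
      v'.smulRight u' = (v j).smulRight (u j) := by
    intro j
    by_cases h0 : ‖v j‖ * ‖u j‖ = 0
    · refine ⟨0, 0, by rw [norm_zero]; exact ht0 j, by rw [norm_zero]; exact ht0 j, ?_⟩
      rcases mul_eq_zero.1 h0 with h3 | h3
      · rw [norm_eq_zero.1 h3]
        ext x
        simp
      · rw [norm_eq_zero.1 h3]
        ext x
        simp
    · have hvn : 0 < ‖v j‖ := (norm_nonneg _).lt_of_ne fun h => h0 (by rw [← h, zero_mul])
      have hun : 0 < ‖u j‖ := (norm_nonneg _).lt_of_ne fun h => h0 (by rw [← h, mul_zero])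
      have htp : 0 < t j := Real.sqrt_pos.2 (by positivity)
      set α : ℝ := t j / ‖u j‖ with hα
      have hα0 : 0 < α := by positivity
      refine ⟨(α : ℂ) • u j, ((α : ℂ)⁻¹) • v j, ?_, ?_, ?_⟩
      · rw [norm_smul, Complex.norm_real, Real.norm_of_nonneg hα0.le, hα,
          div_mul_cancel₀ _ hun.ne']
      · rw [norm_smul, norm_inv, Complex.norm_real, Real.norm_of_nonneg hα0.le, hα, inv_div,
          div_mul_eq_mul_div, div_le_iff₀ htp, mul_comm, ← ht2 j, sq]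
      · ext x
        have : (α : ℂ) ≠ 0 := by exact_mod_cast hα0.ne'
        simp only [ContinuousLinearMap.smulRight_apply, smul_apply, smul_smul, smul_eq_mul]
        congr 1
        field_simp
  choose u' v' hu' hv' huv using hbal
  refine ⟨u', v', S, κ, hS, fun j => (hu' j).trans (hκ1 j), fun j => (hv' j).trans (hκ1 j), hκ2, ?_⟩
  have hsum : Summable fun j => (v' j).smulRight (u' j) := by
    have h3 : Summable fun j => ‖v j‖ * ‖u j‖ := by
      refine Summable.of_nonneg_of_le hs0 (fun j => ?_) h1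
      have := abs_nonneg (Real.log (‖v j‖ * ‖u j‖))
      nlinarith [hs0 j]
    refine Summable.of_norm_bounded h3 fun j => ?_
    rw [huv j, ContinuousLinearMap.norm_smulRight_apply]
  have h4 : ∑' j, (v' j).smulRight (u' j) = K := by
    ext x
    have h5 := hsum.hasSum.mapL (ContinuousLinearMap.apply ℂ X x)
    refine (h5.unique ?_)
    refine (h2 x).congr_fun fun j => ?_
    rw [ContinuousLinearMap.apply_apply, huv j]
    rfl
  rw [← h4]
  exact hsum.hasSum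

lemma compact_of_sum [CompleteSpace X] {u : ℕ → X} {v : ℕ → (X →L[ℂ] ℂ)} {K : X →L[ℂ] X}
    (hK : HasSum (fun j => (v j).smulRight (u j)) K) : IsCompactOperator K := by
  refine isCompactOperator_of_tendsto hK.tendsto_sum_nat (Eventually.of_forall fun n => ?_)
  induction n with
  | zero =>
    simp only [Finset.range_zero, Finset.sum_empty]
    exact isCompactOperator_zero
  | succ n ih =>
    rw [Finset.sum_range_succ]
    exact ih.add (compact_of_rank (u n) fun x => ⟨v n x, rfl⟩)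

theorem nuclear [CompleteSpace X] (hC : RC N R f) {C : ℝ} (hC0 : 0 ≤ C)
    (hW : ∀ y x R, Wk (f y x) R (‖y‖ * (C * ‖x‖))) {K : X →L[ℂ] X} (hK : NucLog K)
    {m : Measure ℂ} (hm : LogBd m) : ∀ᵐ κ ∂m,
    ((∃ c : ℂ, N + κ • K = c • 1) ∨ HasHyp (N + κ • K)) ∧ LocV (N + κ • K) ∧
      LocV (ad (N + κ • K)) := by
  obtain ⟨u, v, S, κ, hS, hu, hv, hκ, hsum⟩ := hK.bal
  exact main hC (pt_of_nuc hC hC0 hW hS hu hv hκ hsum) (compact_of_sum hsum) hm

theorem scalar [CompleteSpace X] {σ : Set ℂ} [CompactSpace σ] {Φ : C(σ, ℂ) →ₐ[ℂ] (X →L[ℂ] X)}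
    {M : ℝ} (hF : FC Φ N M) {K : X →L[ℂ] X} (hK : NucLog K)
    {m : Measure ℂ} (hm : LogBd m) : ∀ᵐ κ ∂m,
    ((∃ c : ℂ, N + κ • K = c • 1) ∨ HasHyp (N + κ • K)) ∧ LocV (N + κ • K) ∧
      LocV (ad (N + κ • K)) := by
  obtain ⟨C, hC0, hW⟩ := fF_wk hF
  exact nuclear (FC_rc hF) hC0 hW hK hm

end

end Pool.Agent.N812.IS
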