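import Pool.Agent.N812.IS.Lo

/-!
# Perturbations `N + K` by compact operators, whose spectrum is one point
-/

set_option autoImplicit false

namespace Pool.Agent.N812.IS

open MeasureTheory Set Metric Filter Topology
open Pool.Agent.Y271.RO (Bd)
open scoped InnerProductSpace ENNReal NNReal

/-! ### integrals over annuli -/

lemma int_rot (G : ℂ → ℂ) (a : Circle) : ∫ z, G (a * z) = ∫ z, G z := by
  have h := (rotation a).measurePreserving.integral_comp
    (rotation a).toHomeomorph.measurableEmbedding G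
  simpa [rotation_apply] using h

/-- the integral of a power over an annulus vanishes -/
lemma int_zpow {m : ℤ} (hm : m ≠ 0) (p : ℂ) (δ : ℝ) :
    ∫ z, (An p δ).indicator (fun z => (z - p) ^ m) z = 0 := by
  set G : ℂ → ℂ := (An 0 δ).indicator fun z => z ^ m with hG
  have h1 : ∀ z, (An p δ).indicator (fun z => (z - p) ^ m) z = G (z - p) := by
    intro z
    simp only [hG, indicator_apply, An, mem_setOf_eq, sub_zero]
  simp_rw [h1]
  rw [integral_sub_right_eq_self G p]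
  -- rotation
  obtain ⟨a, ha⟩ : ∃ a : Circle, (a : ℂ) ^ m ≠ 1 := by
    refine ⟨Circle.exp (Real.pi / m), ?_⟩
    rw [Circle.coe_exp, ← Complex.exp_int_mul]
    have e : (m : ℂ) * (((Real.pi / m : ℝ) : ℂ) * Complex.I) = Real.pi * Complex.I := by
      have : (m : ℂ) ≠ 0 := by exact_mod_cast hm
      push_cast
      field_simp
    rw [e, Complex.exp_pi_mul_I]
    norm_num
  have h2 : ∀ z, G (a * z) = (a : ℂ) ^ m * G z := by
    intro z
    simp only [hG, indicator_apply, An, mem_setOf_eq, sub_zero, norm_mul, Circle.norm_coe, one_mul,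
      mul_zpow, mul_ite, mul_zero]
  have h3 := int_rot G a
  simp_rw [h2] at h3
  rw [integral_const_mul] at h3
  have h4 : ((a : ℂ) ^ m - 1) * ∫ z, G z = 0 := by
    rw [sub_mul, h3, one_mul, sub_self]
  rcases mul_eq_zero.1 h4 with h5 | h5
  · exact absurd (sub_eq_zero.1 h5) ha
  · exact h5

/-- the area of the annulus -/
noncomputable def ar (δ : ℝ) : ℝ := (volume (An 0 δ)).toReal

lemma An_vol (p : ℂ) (δ : ℝ) : volume (An p δ) = volume (An 0 δ) := by
  have h : An p δ = (fun z => z - p) ⁻¹' (An 0 δ) := by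
    ext z
    simp [An]
  rw [h]
  exact (measurePreserving_sub_right volume p).measure_preimage (An_meas 0 δ).nullMeasurableSet

lemma An_fin (p : ℂ) (δ : ℝ) : volume (An p δ) < ⊤ :=
  lt_of_le_of_lt (measure_mono (An_sub p δ)) measure_closedBall_lt_top

lemma ar_lower {δ : ℝ} (hδ : 0 < δ) : Real.pi * (δ / 4) ^ 2 ≤ ar δ := by
  have h1 : ball ((3 * δ / 4 : ℝ) : ℂ) (δ / 4) ⊆ An 0 δ := by
    intro z hz
    rw [mem_ball, dist_eq_norm] at hz
    have h2 : ‖((3 * δ / 4 : ℝ) : ℂ)‖ = 3 * δ / 4 := by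
      rw [Complex.norm_real, Real.norm_of_nonneg (by positivity)]
    have h3 := norm_sub_norm_le z ((3 * δ / 4 : ℝ) : ℂ)
    have h4 := norm_sub_norm_le ((3 * δ / 4 : ℝ) : ℂ) z
    rw [norm_sub_rev] at h4
    rw [h2] at h3 h4
    refine ⟨?_, ?_⟩
    · rw [sub_zero]; linarith
    · rw [sub_zero]; linarith
  have h2 := measure_mono (μ := (volume : Measure ℂ)) h1
  rw [Complex.volume_ball] at h2
  have h3 := ENNReal.toReal_mono (An_fin 0 δ).ne h2
  unfold ar
  refine le_trans (le_of_eq ?_) h3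
  rw [ENNReal.toReal_mul, ENNReal.toReal_pow, ENNReal.toReal_ofReal (by positivity)]
  simp [mul_comm]

/-- the normalised function `(z - p) ^ m` on the annulus -/
noncomputable def gz (p : ℂ) (δ : ℝ) (m : ℤ) (z : ℂ) : ℂ :=
  (An p δ).indicator (fun z => ((ar δ : ℂ)⁻¹) * (z - p) ^ m) z

lemma gz_int (p : ℂ) (δ : ℝ) {m : ℤ} (hm : m ≠ 0) : ∫ z, gz p δ m z = 0 := by
  have h1 : ∀ z, gz p δ m z = (ar δ : ℂ)⁻¹ * (An p δ).indicator (fun z => (z - p) ^ m) z := by
    intro z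
    unfold gz
    by_cases hz : z ∈ An p δ
    · rw [indicator_of_mem hz, indicator_of_mem hz]
    · rw [indicator_of_notMem hz, indicator_of_notMem hz, mul_zero]
  simp_rw [h1]
  rw [integral_const_mul, int_zpow hm, mul_zero]

lemma gz_int0 (p : ℂ) {δ : ℝ} (hδ : 0 < δ) : ∫ z, gz p δ 0 z = 1 := by
  have har : 0 < ar δ := lt_of_lt_of_le (by positivity) (ar_lower hδ)
  unfold gz
  simp only [zpow_zero, mul_one]
  rw [integral_indicator (An_meas p δ), integral_const, measureReal_restrict_apply_univ]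
  have : (volume : Measure ℂ).real (An p δ) = ar δ := by
    rw [Measure.real, An_vol]
    rfl
  rw [this, Complex.real_smul, mul_inv_cancel₀]
  exact_mod_cast har.ne'

lemma gz_succ (p : ℂ) {δ : ℝ} (hδ : 0 < δ) (m : ℤ) (z : ℂ) :
    (z - p) * gz p δ m z = gz p δ (m + 1) z := by
  unfold gz
  by_cases hz : z ∈ An p δ
  · rw [indicator_of_mem hz, indicator_of_mem hz]
    have h0 : z - p ≠ 0 := by
      intro h0
      have := hz.1
      rw [h0, norm_zero] at this
      linarith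
    rw [zpow_add₀ h0, zpow_one]
    ring
  · rw [indicator_of_notMem hz, indicator_of_notMem hz, mul_zero]

lemma gz_meas (p : ℂ) (δ : ℝ) (m : ℤ) : Measurable (gz p δ m) := by
  unfold gz
  exact ((measurable_const).mul ((measurable_id.sub_const p).pow_const m)).indicator (An_meas p δ)

lemma gz_bd (p : ℂ) {δ : ℝ} (hδ : 0 < δ) (m : ℤ) {B : ℝ} (hB : 0 ≤ B)
    (h : ∀ z ∈ An p δ, (ar δ)⁻¹ * ‖z - p‖ ^ m ≤ B) : Bd (gz p δ m) p (2 * δ) B := by
  have har : 0 < ar δ := lt_of_lt_of_le (by positivity) (ar_lower hδ)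
  refine ⟨gz_meas p δ m, hB, fun z => ?_, fun z hz => ?_⟩
  · unfold gz
    by_cases hz : z ∈ An p δ
    · rw [indicator_of_mem hz, norm_mul, norm_inv, Complex.norm_real,
        Real.norm_of_nonneg har.le, norm_zpow]
      exact h z hz
    · rw [indicator_of_notMem hz, norm_zero]
      exact hB
  · unfold gz
    rw [indicator_of_notMem]
    intro hzA
    apply hz
    rw [mem_ball, dist_eq_norm]
    linarith [hzA.2]

lemma gz_bd2 (p : ℂ) {δ : ℝ} (hδ : 0 < δ) : Bd (gz p δ 2) p (2 * δ) 16 := by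
  have har := ar_lower hδ
  refine gz_bd p hδ 2 (by norm_num) fun z hz => ?_
  have h1 : 0 < Real.pi * (δ / 4) ^ 2 := by positivity
  have h2 : ‖z - p‖ ^ (2 : ℤ) ≤ δ ^ 2 := by
    rw [zpow_ofNat]
    exact pow_le_pow_left₀ (norm_nonneg _) hz.2 2
  calc (ar δ)⁻¹ * ‖z - p‖ ^ (2 : ℤ) ≤ (Real.pi * (δ / 4) ^ 2)⁻¹ * δ ^ 2 := by gcongr
    _ = 16 / Real.pi := by field_simp; ring
    _ ≤ 16 := by
        rw [div_le_iff₀ Real.pi_pos]
        nlinarith [Real.pi_gt_three]

lemma gz_bdk (p : ℂ) {δ : ℝ} (hδ : 0 < δ) (k : ℕ) :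
    Bd (gz p δ (2 - (k : ℤ))) p (2 * δ) (16 * (2 / δ) ^ k) := by
  have har := ar_lower hδ
  refine gz_bd p hδ _ (by positivity) fun z hz => ?_
  have hz0 : 0 < ‖z - p‖ := lt_trans (by positivity) hz.1
  have h1 : ‖z - p‖ ^ (2 - (k : ℤ)) = ‖z - p‖ ^ (2 : ℤ) * (‖z - p‖⁻¹) ^ k := by
    rw [zpow_sub₀ hz0.ne', zpow_natCast, inv_pow]
    rfl
  have h2 := (gz_bd2 p hδ).bd z
  have har' : 0 < ar δ := lt_of_lt_of_le (by positivity) har
  unfold gz at h2
  rw [indicator_of_mem hz, norm_mul, norm_inv, Complex.norm_real, Real.norm_of_nonneg har'.le,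
    norm_zpow] at h2
  rw [h1, ← mul_assoc]
  refine mul_le_mul h2 (pow_le_pow_left₀ (by positivity) ?_ k) (by positivity) (by norm_num)
  rw [inv_le_comm₀ hz0 (by positivity), inv_div]
  exact hz.1.le

/-! ### the theorem -/

lemma quasi {A : Type} [NormedRing A] [NormedAlgebra ℂ A] [CompleteSpace A] {Q : A}
    (h : ∀ z ∈ spectrum ℂ Q, z = 0) {η : ℝ} (hη : 0 < η) : ∀ᶠ n : ℕ in atTop, ‖Q ^ n‖ ≤ η ^ n := by
  have hrad : spectralRadius ℂ Q = 0 := by
    unfold spectralRadius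
    refine le_antisymm (iSup₂_le fun z hz => ?_) bot_le
    rw [h z hz]
    simp
  have hlim := spectrum.pow_norm_pow_one_div_tendsto_nhds_spectralRadius Q
  rw [hrad] at hlim
  have h2 : (0 : ENNReal) < ENNReal.ofReal η := ENNReal.ofReal_pos.2 hη
  filter_upwards [hlim.eventually_lt_const h2, eventually_gt_atTop 0] with n hn hn0
  have h3 : ‖Q ^ n‖ ^ (1 / n : ℝ) < η := (ENNReal.ofReal_lt_ofReal_iff hη).1 hn
  have h4 : (‖Q ^ n‖ ^ (1 / n : ℝ)) ^ n ≤ η ^ n :=
    pow_le_pow_left₀ (by positivity) h3.le n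
  rwa [one_div, Real.rpow_inv_natCast_pow (norm_nonneg _) hn0.ne'] at h4

section

variable {E ι : Type} [NormedAddCommGroup E] [NormedSpace ℂ E] {N : E →L[ℂ] E}
    {R : (ℂ → ℂ) → (E →L[ℂ] E)} {φ : ι → (E →L[ℂ] ℂ)} {f : ι → E → ℂ → ℂ}

/-- the recursion modulo compact operators -/
lemma rec_compact (hC : Cal N R φ f) {S : E →L[ℂ] E} (hS : IsCompactOperator S) (p : ℂ) {δ : ℝ}
    (hδ : 0 < δ) (k : ℕ) :
    IsCompactOperator (R (gz p δ 2) - (N + S - p • (1 : E →L[ℂ] E)) ^ (k + 2) *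
      R (gz p δ (2 - ((k + 2 : ℕ) : ℤ))) - (N + S - p • (1 : E →L[ℂ] E)) : E →L[ℂ] E) := by
  set Q : E →L[ℂ] E := N + S - p • (1 : E →L[ℂ] E) with hQ
  have hstep : ∀ m : ℤ, (∃ B, Bd (gz p δ m) p (2 * δ) B) →
      R (gz p δ (m + 1)) = Q * R (gz p δ m) - S * R (gz p δ m) +
        (∫ z, gz p δ m z) • (1 : E →L[ℂ] E) := by
    rintro m ⟨B, hB⟩
    ext x
    have h1 := hC.step p p (2 * δ) B (gz p δ m) x hB
    have h2 : (fun z => (z - p) * gz p δ m z) = gz p δ (m + 1) := by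
      funext z
      exact gz_succ p hδ m z
    rw [h2] at h1
    have h3 : R (gz p δ (m + 1)) x = N (R (gz p δ m) x) - p • R (gz p δ m) x +
        (∫ z, gz p δ m z) • x := by
      rw [h1]
      abel
    rw [h3]
    show _ = (N (R (gz p δ m) x) + S (R (gz p δ m) x) - p • R (gz p δ m) x) -
      S (R (gz p δ m) x) + (∫ z, gz p δ m z) • x
    abel
  have hbd : ∀ k : ℕ, ∃ B, Bd (gz p δ (2 - (k : ℤ))) p (2 * δ) B := fun k => ⟨_, gz_bdk p hδ k⟩
  induction k with
  | zero =>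
    have e1 : R (gz p δ 2) = Q * R (gz p δ 1) - S * R (gz p δ 1) := by
      have h := hstep 1 (by simpa using hbd 1)
      rw [gz_int p δ one_ne_zero, zero_smul, add_zero] at h
      exact h
    have e2 : R (gz p δ 1) = Q * R (gz p δ 0) - S * R (gz p δ 0) + 1 := by
      have h := hstep 0 (by simpa using hbd 2)
      rw [gz_int0 p hδ, one_smul, zero_add] at h
      exact h
    have e3 : R (gz p δ 2) - Q ^ (0 + 2) * R (gz p δ (2 - ((0 + 2 : ℕ) : ℤ))) - Q =
        -(Q * (S * R (gz p δ 0))) - S * R (gz p δ 1) := by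
      have : (2 - ((0 + 2 : ℕ) : ℤ)) = 0 := by norm_num
      rw [this, e1]
      conv_lhs => rw [e2]
      rw [e2]
      noncomm_ring
    rw [e3]
    refine IsCompactOperator.sub (IsCompactOperator.neg ?_) (hS.comp_clm _)
    exact (hS.comp_clm (R (gz p δ 0))).clm_comp Q
  | succ k ih =>
    have h := hstep (2 - ((k + 1 + 2 : ℕ) : ℤ)) (hbd _)
    have e1 : (2 - ((k + 1 + 2 : ℕ) : ℤ)) + 1 = 2 - ((k + 2 : ℕ) : ℤ) := by push_cast; ring
    rw [e1, gz_int p δ (by push_cast; omega), zero_smul, add_zero] at h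
    have e2 : R (gz p δ 2) - Q ^ (k + 1 + 2) * R (gz p δ (2 - ((k + 1 + 2 : ℕ) : ℤ))) - Q =
        (R (gz p δ 2) - Q ^ (k + 2) * R (gz p δ (2 - ((k + 2 : ℕ) : ℤ))) - Q) -
          Q ^ (k + 2) * (S * R (gz p δ (2 - ((k + 1 + 2 : ℕ) : ℤ)))) := by
      rw [h, show k + 1 + 2 = (k + 2) + 1 by ring, pow_succ]
      noncomm_ring
    rw [e2]
    exact ih.sub ((hS.comp_clm _).clm_comp (Q ^ (k + 2)))

theorem one_pt [CompleteSpace E] (hC : Cal N R φ f)
    (hs : ∀ ε : ℝ, 0 < ε → ∃ r : ℝ, 0 < r ∧ ∀ (a : ℂ) (B : ℝ) (g : ℂ → ℂ), Bd g a r B →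
      ‖R g‖ ≤ ε * B)
    {S : E →L[ℂ] E} (hS : IsCompactOperator S) {p : ℂ} (hp : ∀ z ∈ spectrum ℂ (N + S), z = p) :
    IsCompactOperator (N + S - p • (1 : E →L[ℂ] E)) := by
  set Q : E →L[ℂ] E := N + S - p • (1 : E →L[ℂ] E) with hQ
  have hq : ∀ z ∈ spectrum ℂ Q, z = 0 := by
    intro z hz
    have h1 : z + p ∈ spectrum ℂ (N + S) := by
      rw [spectrum.mem_iff] at hz ⊢
      have : algebraMap ℂ (E →L[ℂ] E) (z + p) - (N + S) = algebraMap ℂ (E →L[ℂ] E) z - Q := by
        rw [hQ, map_add, Algebra.algebraMap_eq_smul_one, Algebra.algebraMap_eq_smul_one]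
        abel
      rw [this]
      exact hz
    have := hp _ h1
    simpa using this
  have hclosed : IsClosed {f : E →L[ℂ] E | IsCompactOperator f} :=
    isClosed_setOfPred_isCompactOperator
  -- the differences are compact
  have hcomp : ∀ δ : ℝ, 0 < δ → IsCompactOperator (R (gz p δ 2) - Q : E →L[ℂ] E) := by
    intro δ hδ
    have hmem : (R (gz p δ 2) - Q : E →L[ℂ] E) ∈ closure {f : E →L[ℂ] E | IsCompactOperator f} := by
      rw [Metric.mem_closure_iff]
      intro η hη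
      obtain ⟨C, hC0, hCb⟩ := hC.bdd (2 * δ) (by positivity)
      have h1 := quasi hq (η := δ / 4) (by positivity)
      have h2 : Tendsto (fun n : ℕ => (C * 16) * (1 / 2 : ℝ) ^ n) atTop (𝓝 0) := by
        have := (tendsto_pow_atTop_nhds_zero_of_lt_one (r := (1 / 2 : ℝ)) (by norm_num)
          (by norm_num)).const_mul (C * 16)
        simpa using this
      obtain ⟨n, ⟨hn1, hn2⟩, hn3⟩ := ((h1.and (h2.eventually_lt_const hη)).and
        (eventually_ge_atTop 2)).exists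
      obtain ⟨k, rfl⟩ := Nat.exists_eq_add_of_le' hn3
      refine ⟨_, rec_compact hC hS p hδ k, ?_⟩
      rw [dist_eq_norm]
      have e : (R (gz p δ 2) - Q) - (R (gz p δ 2) - Q ^ (k + 2) *
          R (gz p δ (2 - ((k + 2 : ℕ) : ℤ))) - Q) =
          Q ^ (k + 2) * R (gz p δ (2 - ((k + 2 : ℕ) : ℤ))) := by abel
      rw [e]
      calc ‖Q ^ (k + 2) * R (gz p δ (2 - ((k + 2 : ℕ) : ℤ)))‖
          ≤ ‖Q ^ (k + 2)‖ * ‖R (gz p δ (2 - ((k + 2 : ℕ) : ℤ)))‖ := norm_mul_le _ _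
        _ ≤ (δ / 4) ^ (k + 2) * (C * (16 * (2 / δ) ^ (k + 2))) := by
            gcongr
            exact hCb _ _ _ (gz_bdk p hδ (k + 2))
        _ = (C * 16) * ((δ / 4) * (2 / δ)) ^ (k + 2) := by
            rw [mul_pow]
            ring
        _ = (C * 16) * (1 / 2 : ℝ) ^ (k + 2) := by
            congr 2
            field_simp
            norm_num
        _ < η := hn2
    rw [hclosed.closure_eq] at hmem
    exact hmem
  have hmem : Q ∈ closure {f : E →L[ℂ] E | IsCompactOperator f} := by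
    rw [Metric.mem_closure_iff]
    intro η hη
    obtain ⟨r, hr, hrb⟩ := hs (η / 32) (by positivity)
    refine ⟨-(R (gz p (r / 2) 2) - Q), (hcomp (r / 2) (by positivity)).neg, ?_⟩
    rw [dist_eq_norm]
    have e : Q - -(R (gz p (r / 2) 2) - Q) = R (gz p (r / 2) 2) := by abel
    rw [e]
    have h1 := gz_bd2 p (δ := r / 2) (by positivity)
    rw [mul_div_cancel₀ r (two_ne_zero)] at h1
    refine (hrb _ _ _ h1).trans_lt ?_
    linarith
  rw [hclosed.closure_eq] at hmem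
  exact hmem

end

end Pool.Agent.N812.IS
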