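import Pool.Agent.N812.IS.Mn

/-!
# Functions of weak type and the sums of `min (x, x²)`
-/

set_option autoImplicit false

namespace Pool.Agent.N812.IS

open MeasureTheory Set Metric Filter Topology
open scoped InnerProductSpace ENNReal NNReal

/-- `F` is in weak `L²` on the disc, with constant `w` -/
def Wk (F : ℂ → ℂ) (R w : ℝ) : Prop :=
  ∀ A : Set ℂ, MeasurableSet A → A ⊆ ball 0 R →
    ∫⁻ z in A, ENNReal.ofReal ‖F z‖ ≤ ENNReal.ofReal (w * Real.sqrt (volume A).toReal)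

lemma Wk.mono {F : ℂ → ℂ} {R w w' : ℝ} (h : Wk F R w) (hw : w ≤ w') : Wk F R w' := by
  intro A hA hAB
  refine (h A hA hAB).trans (ENNReal.ofReal_le_ofReal ?_)
  exact mul_le_mul_of_nonneg_right hw (Real.sqrt_nonneg _)

lemma Wk.smul {F : ℂ → ℂ} {R w : ℝ} (h : Wk F R w) (c : ℂ) :
    Wk (fun z => c * F z) R (‖c‖ * w) := by
  intro A hA hAB
  have h1 : ∀ z, ENNReal.ofReal ‖c * F z‖ = ENNReal.ofReal ‖c‖ * ENNReal.ofReal ‖F z‖ := by
    intro z
    rw [norm_mul, ENNReal.ofReal_mul (norm_nonneg _)]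
  simp_rw [h1]
  rw [lintegral_const_mul' _ _ ENNReal.ofReal_ne_top, mul_assoc, ENNReal.ofReal_mul (norm_nonneg _)]
  exact mul_le_mul' le_rfl (h A hA hAB)

/-- the integral over the set where `F` is large -/
lemma Wk.level {F : ℂ → ℂ} (hF : Measurable F) {R w l : ℝ} (hw : 0 ≤ w) (h : Wk F R w)
    (hl : 0 < l) : ∫⁻ z in ball 0 R ∩ {z | l < ‖F z‖}, ENNReal.ofReal ‖F z‖ ≤
      ENNReal.ofReal (w ^ 2 / l) := by
  set A : Set ℂ := ball 0 R ∩ {z | l < ‖F z‖} with hA
  have hAm : MeasurableSet A := measurableSet_ball.inter (measurableSet_lt measurable_const hF.norm)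
  have hAf : volume A < ⊤ := lt_of_le_of_lt (measure_mono inter_subset_left) measure_ball_lt_top
  have h1 := h A hAm inter_subset_left
  set a : ℝ := (volume A).toReal with ha
  have ha0 : 0 ≤ a := ENNReal.toReal_nonneg
  have h2 : ENNReal.ofReal (l * a) ≤ ∫⁻ z in A, ENNReal.ofReal ‖F z‖ := by
    rw [ENNReal.ofReal_mul hl.le, ha, ENNReal.ofReal_toReal hAf.ne, ← setLIntegral_const]
    refine setLIntegral_mono' hAm fun z hz => ENNReal.ofReal_le_ofReal ?_
    exact le_of_lt hz.2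
  have h3 : l * a ≤ w * Real.sqrt a := by
    have h4 := h2.trans h1
    exact (ENNReal.ofReal_le_ofReal_iff (by positivity)).1 h4
  have h4 : Real.sqrt a ≤ w / l := by
    rw [le_div_iff₀ hl]
    by_cases h0 : Real.sqrt a = 0
    · rw [h0, zero_mul]
      exact hw
    · have h5 : 0 < Real.sqrt a := lt_of_le_of_ne (Real.sqrt_nonneg _) (Ne.symm h0)
      have h6 : (Real.sqrt a * l) * Real.sqrt a ≤ w * Real.sqrt a := by
        calc (Real.sqrt a * l) * Real.sqrt a = l * (Real.sqrt a * Real.sqrt a) := by ring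
          _ = l * a := by rw [Real.mul_self_sqrt ha0]
          _ ≤ _ := h3
      exact le_of_mul_le_mul_right h6 h5
  refine h1.trans (ENNReal.ofReal_le_ofReal ?_)
  calc w * Real.sqrt a ≤ w * (w / l) := mul_le_mul_of_nonneg_left h4 hw
    _ = w ^ 2 / l := by ring

lemma ps_dyadic {x : ℝ} (hx : 0 ≤ x) (k : ℕ) :
    ps x ≤ (if 1 < x then x else 0) +
      ∑ l ∈ Finset.range k, 2 * (1 / 2 : ℝ) ^ l * (if (1 / 2 : ℝ) ^ (l + 1) < x then x else 0) +
      (1 / 4 : ℝ) ^ k := by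
  have hsum : ∀ k : ℕ, 0 ≤ ∑ l ∈ Finset.range k,
      2 * (1 / 2 : ℝ) ^ l * (if (1 / 2 : ℝ) ^ (l + 1) < x then x else 0) := by
    intro k
    refine Finset.sum_nonneg fun l _ => ?_
    split_ifs <;> positivity
  rcases lt_or_ge 1 x with h | h
  · rw [if_pos h, ps_of_ge h.le]
    have := hsum k
    have : (0 : ℝ) ≤ (1 / 4 : ℝ) ^ k := by positivity
    linarith [hsum k]
  · rw [if_neg (not_lt.2 h), ps_of_le hx h, zero_add]
    induction k with
    | zero =>
      simp only [Finset.range_zero, Finset.sum_empty, pow_zero, zero_add]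
      nlinarith
    | succ k ih =>
      rw [Finset.sum_range_succ]
      have h14 : (1 / 4 : ℝ) ^ k = (1 / 2 : ℝ) ^ k * (1 / 2 : ℝ) ^ k := by
        rw [← mul_pow]; norm_num
      rcases le_or_gt x ((1 / 2 : ℝ) ^ (k + 1)) with h2 | h2
      · rw [if_neg (not_lt.2 h2), mul_zero, add_zero]
        have h3 : x ^ 2 ≤ (1 / 4 : ℝ) ^ (k + 1) := by
          calc x ^ 2 ≤ ((1 / 2 : ℝ) ^ (k + 1)) ^ 2 := pow_le_pow_left₀ hx h2 2
            _ = (1 / 4 : ℝ) ^ (k + 1) := by
              rw [← pow_mul, mul_comm, pow_mul]; norm_num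
        linarith [hsum k]
      · rw [if_pos h2]
        have h5 : (0 : ℝ) ≤ (1 / 4 : ℝ) ^ (k + 1) := by positivity
        have h6 : (1 / 4 : ℝ) ^ k ≤ 2 * (1 / 2 : ℝ) ^ k * x := by
          rw [h14]
          have : (1 / 2 : ℝ) ^ (k + 1) = (1 / 2 : ℝ) ^ k * (1 / 2) := pow_succ _ _
          rw [this] at h2
          have h7 : (0 : ℝ) < (1 / 2 : ℝ) ^ k := by positivity
          nlinarith
        linarith

/-- the constant -/
noncomputable def vb (R : ℝ) : ℝ := (volume (ball (0:ℂ) R)).toReal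

lemma vb_nonneg (R : ℝ) : 0 ≤ vb R := ENNReal.toReal_nonneg

lemma vb_eq (R : ℝ) : volume (ball (0:ℂ) R) = ENNReal.ofReal (vb R) := by
  unfold vb
  rw [ENNReal.ofReal_toReal measure_ball_lt_top.ne]

theorem psi_int {F : ℂ → ℂ} (hF : Measurable F) {R D : ℝ} (hD : 0 ≤ D) {k : ℕ}
    (h : Wk F R (D * (1 / 2 : ℝ) ^ k)) :
    ∫⁻ z in ball 0 R, ENNReal.ofReal (ps ‖F z‖) ≤
      ENNReal.ofReal ((4 * D ^ 2 + vb R) * ((1 / 4 : ℝ) ^ k * (1 + k))) := by
  classical
  set w : ℝ := D * (1 / 2 : ℝ) ^ k with hw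
  have hw0 : 0 ≤ w := by positivity
  have hw2 : w ^ 2 = D ^ 2 * (1 / 4 : ℝ) ^ k := by
    rw [hw, mul_pow, ← pow_mul, mul_comm k 2, pow_mul]
    norm_num
  -- the truncated functions
  set T : ℝ → ℂ → ℝ≥0∞ := fun l z => ENNReal.ofReal (if l < ‖F z‖ then ‖F z‖ else 0) with hT
  have hTm : ∀ l, Measurable (T l) := by
    intro l
    refine Measurable.ennreal_ofReal ?_
    exact Measurable.ite (measurableSet_lt measurable_const hF.norm) hF.norm measurable_const
  have hTi : ∀ l : ℝ, 0 < l → ∫⁻ z in ball 0 R, T l z ≤ ENNReal.ofReal (w ^ 2 / l) := by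
    intro l hl
    have h1 : ∫⁻ z in ball 0 R, T l z =
        ∫⁻ z in ball 0 R ∩ {z | l < ‖F z‖}, ENNReal.ofReal ‖F z‖ := by
      have h2 : ∀ z, T l z = {z | l < ‖F z‖}.indicator (fun z => ENNReal.ofReal ‖F z‖) z := by
        intro z
        simp only [hT]
        by_cases hz : l < ‖F z‖
        · rw [if_pos hz, indicator_of_mem (by exact hz)]
        · rw [if_neg hz, indicator_of_notMem (by exact hz), ENNReal.ofReal_zero]
      simp_rw [h2]
      rw [setLIntegral_indicator (measurableSet_lt measurable_const hF.norm), inter_comm]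
    rw [h1]
    exact h.level hF hw0 hl
  have hpt : ∀ z, ENNReal.ofReal (ps ‖F z‖) ≤ T 1 z + (∑ l ∈ Finset.range k,
      ENNReal.ofReal (2 * (1 / 2 : ℝ) ^ l) * T ((1 / 2 : ℝ) ^ (l + 1)) z +
      ENNReal.ofReal ((1 / 4 : ℝ) ^ k)) := by
    intro z
    refine (ENNReal.ofReal_le_ofReal (ps_dyadic (norm_nonneg (F z)) k)).trans ?_
    have e0 : ∀ l : ℝ, 0 ≤ (if l < ‖F z‖ then ‖F z‖ else 0) := by
      intro l
      split_ifs <;> positivity
    rw [ENNReal.ofReal_add (add_nonneg (e0 1) (Finset.sum_nonneg fun l _ =>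
      mul_nonneg (by positivity) (e0 _))) (by positivity),
      ENNReal.ofReal_add (e0 1) (Finset.sum_nonneg fun l _ => mul_nonneg (by positivity) (e0 _)),
      ENNReal.ofReal_sum_of_nonneg fun l _ => mul_nonneg (by positivity) (e0 _), add_assoc]
    refine add_le_add le_rfl (add_le_add (Finset.sum_le_sum fun l _ => ?_) le_rfl)
    rw [ENNReal.ofReal_mul (by positivity)]
  calc ∫⁻ z in ball 0 R, ENNReal.ofReal (ps ‖F z‖)
      ≤ ∫⁻ z in ball 0 R, (T 1 z + (∑ l ∈ Finset.range k,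
          ENNReal.ofReal (2 * (1 / 2 : ℝ) ^ l) * T ((1 / 2 : ℝ) ^ (l + 1)) z +
          ENNReal.ofReal ((1 / 4 : ℝ) ^ k))) := lintegral_mono hpt
    _ = (∫⁻ z in ball 0 R, T 1 z) + ((∑ l ∈ Finset.range k,
          ENNReal.ofReal (2 * (1 / 2 : ℝ) ^ l) * (∫⁻ z in ball 0 R, T ((1 / 2 : ℝ) ^ (l + 1)) z)) +
          ENNReal.ofReal ((1 / 4 : ℝ) ^ k) * ENNReal.ofReal (vb R)) := by
        rw [lintegral_add_left (hTm 1), lintegral_add_right _ measurable_const,
          lintegral_finsetSum _ (fun l _ => (hTm _).const_mul _), lintegral_const,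
          Measure.restrict_apply_univ, vb_eq]
        congr 2
        refine Finset.sum_congr rfl fun l _ => ?_
        rw [lintegral_const_mul _ (hTm _)]
    _ ≤ ENNReal.ofReal (w ^ 2) + ((∑ _l ∈ Finset.range k, ENNReal.ofReal (4 * w ^ 2)) +
          ENNReal.ofReal ((1 / 4 : ℝ) ^ k) * ENNReal.ofReal (vb R)) := by
        refine add_le_add ?_ (add_le_add (Finset.sum_le_sum fun l _ => ?_) le_rfl)
        · have := hTi 1 one_pos
          rwa [div_one] at this
        · refine (mul_le_mul' le_rfl (hTi _ (by positivity))).trans ?_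
          rw [← ENNReal.ofReal_mul (by positivity)]
          refine ENNReal.ofReal_le_ofReal (le_of_eq ?_)
          rw [pow_succ]
          have : (1 / 2 : ℝ) ^ l ≠ 0 := by positivity
          field_simp
          ring
    _ = ENNReal.ofReal (w ^ 2 + (k * (4 * w ^ 2) + (1 / 4 : ℝ) ^ k * vb R)) := by
        have hv := vb_nonneg R
        have e1 : ENNReal.ofReal (k * (4 * w ^ 2)) = (k : ℝ≥0∞) * ENNReal.ofReal (4 * w ^ 2) := by
          rw [ENNReal.ofReal_mul (Nat.cast_nonneg k), ENNReal.ofReal_natCast]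
        have e2 : ENNReal.ofReal ((1 / 4 : ℝ) ^ k * vb R) =
            ENNReal.ofReal ((1 / 4 : ℝ) ^ k) * ENNReal.ofReal (vb R) :=
          ENNReal.ofReal_mul (by positivity)
        rw [Finset.sum_const, Finset.card_range, nsmul_eq_mul, ENNReal.ofReal_add (by positivity)
          (by positivity), ENNReal.ofReal_add (by positivity) (by positivity), e1, e2]
    _ ≤ _ := by
        refine ENNReal.ofReal_le_ofReal ?_
        rw [hw2]
        have hv := vb_nonneg R
        have h4 : (0 : ℝ) ≤ (1 / 4 : ℝ) ^ k := by positivity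
        have hk : (0 : ℝ) ≤ k := Nat.cast_nonneg k
        have h5 : 0 ≤ D ^ 2 * (1 / 4 : ℝ) ^ k := by positivity
        have h6 : 0 ≤ vb R * ((1 / 4 : ℝ) ^ k * k) := by positivity
        have h7 : (4 * D ^ 2 + vb R) * ((1 / 4 : ℝ) ^ k * (1 + k)) -
            (D ^ 2 * (1 / 4 : ℝ) ^ k + (k * (4 * (D ^ 2 * (1 / 4 : ℝ) ^ k)) +
              (1 / 4 : ℝ) ^ k * vb R)) = 3 * (D ^ 2 * (1 / 4 : ℝ) ^ k) +
              vb R * ((1 / 4 : ℝ) ^ k * k) := by ring
        linarith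

lemma le_ps {x l : ℝ} (hx : 0 ≤ x) (hl : 0 < l) (hl1 : l ≤ 1) : x ≤ l + l⁻¹ * ps x := by
  have hli : 1 ≤ l⁻¹ := one_le_inv_iff₀.2 ⟨hl, hl1⟩
  rcases le_total x l with h | h
  · have := mul_nonneg (inv_nonneg.2 hl.le) (ps_nonneg hx)
    linarith
  · rcases le_total x 1 with h1 | h1
    · rw [ps_of_le hx h1]
      have : x ≤ l⁻¹ * x ^ 2 := by
        rw [inv_mul_eq_div, le_div_iff₀ hl]
        nlinarith
      linarith
    · rw [ps_of_ge h1]
      nlinarith

/-- the norm of a sequence is controlled by the sum of `ps` -/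
lemma nn_le_ps (a : ℕ → ℂ) {l : ℝ} (hl : 0 < l) (hl1 : l ≤ 1) :
    nn a ≤ ENNReal.ofReal l + ENNReal.ofReal (2 * l⁻¹) * ∑' j, ENNReal.ofReal (ps ‖a j‖) := by
  by_cases h : ∑' j, ENNReal.ofReal (ps ‖a j‖) = ⊤
  · rw [h, ENNReal.mul_top (by
      rw [Ne, ENNReal.ofReal_eq_zero, not_le]; positivity)]
    simp
  · obtain ⟨h1, h2⟩ := ps_seq h
    rw [nn_eq h1]
    have h3 := le_ps (norm_nonneg (vec a)) hl hl1
    refine (ENNReal.ofReal_le_ofReal h3).trans ?_
    rw [ENNReal.ofReal_add hl.le (mul_nonneg (inv_nonneg.2 hl.le) (ps_nonneg (norm_nonneg _))),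
      ENNReal.ofReal_mul (inv_nonneg.2 hl.le), mul_comm 2, ENNReal.ofReal_mul (inv_nonneg.2 hl.le),
      mul_assoc]
    refine add_le_add le_rfl (mul_le_mul' le_rfl ?_)
    simpa using h2

lemma ps_zero : ps 0 = 0 := by simp [ps]

/-- summation of the bounds: tails -/
lemma nn_tail {a : ℂ → ℕ → ℂ} (ha : ∀ j, Measurable fun z => a z j) {R l : ℝ} (hl : 0 < l)
    (hl1 : l ≤ 1) {τ : ℕ → ℝ} (hτ0 : ∀ j, 0 ≤ τ j) (hτ : Summable τ)
    (h : ∀ j, ∫⁻ z in ball 0 R, ENNReal.ofReal (ps ‖a z j‖) ≤ ENNReal.ofReal (τ j)) (n : ℕ) :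
    ∫⁻ z in ball 0 R, nn (tl n (a z)) ≤
      ENNReal.ofReal (l * vb R + 2 * l⁻¹ * ∑' j, τ (j + n)) := by
  have hm : ∀ j, Measurable fun z => ENNReal.ofReal (ps ‖tl n (a z) j‖) := fun j =>
    (ps_meas.comp (tl_meas ha n j).norm).ennreal_ofReal
  calc ∫⁻ z in ball 0 R, nn (tl n (a z))
      ≤ ∫⁻ z in ball 0 R, (ENNReal.ofReal l + ENNReal.ofReal (2 * l⁻¹) *
          ∑' j, ENNReal.ofReal (ps ‖tl n (a z) j‖)) := lintegral_mono fun z => nn_le_ps _ hl hl1
    _ = ENNReal.ofReal l * ENNReal.ofReal (vb R) + ENNReal.ofReal (2 * l⁻¹) *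
          ∑' j, ∫⁻ z in ball 0 R, ENNReal.ofReal (ps ‖tl n (a z) j‖) := by
        rw [lintegral_add_left measurable_const, lintegral_const, Measure.restrict_apply_univ,
          vb_eq, lintegral_const_mul _ (Measurable.tsum hm),
          lintegral_tsum fun j => (hm j).aemeasurable]
    _ ≤ ENNReal.ofReal l * ENNReal.ofReal (vb R) + ENNReal.ofReal (2 * l⁻¹) *
          ∑' j, (if j < n then 0 else ENNReal.ofReal (τ j)) := by
        refine add_le_add le_rfl (mul_le_mul' le_rfl (ENNReal.tsum_le_tsum fun j => ?_))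
        by_cases hj : j < n
        · simp [tl, hj, ps_zero]
        · simp only [tl, hj, if_false]
          exact h j
    _ = ENNReal.ofReal l * ENNReal.ofReal (vb R) + ENNReal.ofReal (2 * l⁻¹) *
          ENNReal.ofReal (∑' j, τ (j + n)) := by
        congr 2
        rw [ENNReal.ofReal_tsum_of_nonneg (fun j => hτ0 _) ((summable_nat_add_iff n).2 hτ),
          ← Summable.sum_add_tsum_nat_add' (k := n)
            (f := fun j => if j < n then 0 else ENNReal.ofReal (τ j)) ENNReal.summable]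
        rw [Finset.sum_eq_zero fun j hj => if_pos (Finset.mem_range.1 hj), zero_add]
        refine tsum_congr fun j => ?_
        rw [if_neg (by omega)]
    _ = _ := by
        have h0 : 0 ≤ ∑' j, τ (j + n) := tsum_nonneg fun j => hτ0 _
        have hv := vb_nonneg R
        have e2 : ENNReal.ofReal (2 * l⁻¹ * ∑' j, τ (j + n)) =
            ENNReal.ofReal (2 * l⁻¹) * ENNReal.ofReal (∑' j, τ (j + n)) :=
          ENNReal.ofReal_mul (by positivity)
        rw [ENNReal.ofReal_add (by positivity) (by positivity), ENNReal.ofReal_mul hl.le, e2]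

/-- scaling -/
lemma nn_smul (c : ℂ) (a : ℕ → ℂ) : nn (fun j => c * a j) = ENNReal.ofReal ‖c‖ * nn a := by
  unfold nn
  have h1 : ∀ j, ENNReal.ofReal (‖c * a j‖ ^ 2) = ENNReal.ofReal (‖c‖ ^ 2) *
      ENNReal.ofReal (‖a j‖ ^ 2) := fun j => by
    rw [norm_mul, mul_pow, ENNReal.ofReal_mul (by positivity)]
  simp_rw [h1]
  rw [ENNReal.tsum_mul_left, ENNReal.mul_rpow_of_nonneg _ _ (by norm_num),
    ENNReal.ofReal_rpow_of_nonneg (by positivity) (by norm_num), ← Real.sqrt_eq_rpow,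
    Real.sqrt_sq (norm_nonneg _)]

/-- the weights -/
noncomputable def wt (κ : ℕ → ℕ) (j : ℕ) : ℝ := (1 / 4 : ℝ) ^ κ j * (1 + κ j)

lemma wt_nonneg (κ : ℕ → ℕ) (j : ℕ) : 0 ≤ wt κ j := by
  unfold wt
  positivity

/-- homogeneous form -/
theorem nn_hom {a : ℂ → ℕ → ℂ} (ha : ∀ j, Measurable fun z => a z j) {κ : ℕ → ℕ}
    (hκ : Summable (wt κ)) {R D w l : ℝ} (hD : 0 ≤ D) (hw : 0 ≤ w) (hl : 0 < l) (hl1 : l ≤ 1)
    (h : ∀ j, Wk (fun z => a z j) R (w * (D * (1 / 2 : ℝ) ^ κ j))) (n : ℕ) :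
    ∫⁻ z in ball 0 R, nn (tl n (a z)) ≤
      ENNReal.ofReal (w * (l * vb R + 2 * l⁻¹ * ((4 * D ^ 2 + vb R) * ∑' j, wt κ (j + n)))) := by
  set Q : ℝ := l * vb R + 2 * l⁻¹ * ((4 * D ^ 2 + vb R) * ∑' j, wt κ (j + n)) with hQ
  have hv := vb_nonneg R
  have key : ∀ w' : ℝ, 0 < w' → w ≤ w' → ∫⁻ z in ball 0 R, nn (tl n (a z)) ≤
      ENNReal.ofReal (w' * Q) := by
    intro w' hw' hww
    set b : ℂ → ℕ → ℂ := fun z j => ((w' : ℂ)⁻¹) * a z j with hb
    have hbm : ∀ j, Measurable fun z => b z j := fun j => (ha j).const_mul _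
    have hbW : ∀ j, Wk (fun z => b z j) R (D * (1 / 2 : ℝ) ^ κ j) := by
      intro j
      refine ((h j).smul ((w' : ℂ)⁻¹)).mono ?_
      rw [norm_inv, Complex.norm_real, Real.norm_of_nonneg hw'.le, ← mul_assoc]
      have : w'⁻¹ * w ≤ 1 := by
        rw [inv_mul_le_iff₀ hw', mul_one]
        exact hww
      calc w'⁻¹ * w * (D * (1 / 2 : ℝ) ^ κ j) ≤ 1 * (D * (1 / 2 : ℝ) ^ κ j) := by gcongr
        _ = _ := one_mul _
    have h1 := nn_tail hbm hl hl1 (τ := fun j => (4 * D ^ 2 + vb R) * wt κ j)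
      (fun j => mul_nonneg (by positivity) (wt_nonneg κ j)) (hκ.mul_left _)
      (fun j => psi_int (hbm j) hD (hbW j)) n
    rw [tsum_mul_left] at h1
    have h2 : ∀ z, nn (tl n (a z)) = ENNReal.ofReal w' * nn (tl n (b z)) := by
      intro z
      have e : tl n (a z) = fun j => (w' : ℂ) * tl n (b z) j := by
        funext j
        simp only [tl, hb]
        split_ifs
        · rw [mul_zero]
        · rw [← mul_assoc, mul_inv_cancel₀ (by exact_mod_cast hw'.ne'), one_mul]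
      rw [e, nn_smul, Complex.norm_real, Real.norm_of_nonneg hw'.le]
    simp_rw [h2]
    rw [lintegral_const_mul' _ _ ENNReal.ofReal_ne_top, ENNReal.ofReal_mul hw'.le]
    exact mul_le_mul' le_rfl h1
  have hlim : Tendsto (fun n : ℕ => ENNReal.ofReal ((w + 1 / ((n : ℝ) + 1)) * Q)) atTop
      (𝓝 (ENNReal.ofReal (w * Q))) := by
    refine ENNReal.tendsto_ofReal ?_
    have h1 : Tendsto (fun n : ℕ => w + 1 / ((n : ℝ) + 1)) atTop (𝓝 (w + 0)) :=
      tendsto_one_div_add_atTop_nhds_zero_nat.const_add w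
    rw [add_zero] at h1
    exact h1.mul_const Q
  exact ge_of_tendsto' hlim fun k => key _ (by positivity) (by
    have : (0 : ℝ) ≤ 1 / ((k : ℝ) + 1) := by positivity
    linarith)

end Pool.Agent.N812.IS
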